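import Pool.Agent.NSA.FD1

set_option autoImplicit false

/-!
[NSA-FD2] two vertices meeting all cycles: one of the two attractors is a single configuration.
`cross` (connectivity): if `y, y' ∈ C` (an attractor), `y u ≠ y' u` and `y w ≠ y' w`, then `C` contains a configuration `z` with
`(z u, z w) = (y u, y' w)` or `(y' u, y w)`.  Follow a path `Reach f y y'` (`att_reach`), all of whose vertices are in `C` (`trap_reach`), up to the first
configuration with `u`-value `y' u` or `w`-value `y' w`: one step changes one coordinate only.  (Induction on `ReflTransGen` with the statement: every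
`z` with `Reach f y z` either has `(z u, z w) = (y u, y w)` or there is a configuration in `C` as wanted.)
`pair1`: `exists_agree` at `u`: `x ∈ A`, `y ∈ B`, `x u = y u =: α`; by `agree_W` `x w ≠ y w`; put `β = x w`.  `exists_agree` at `w`: `x' ∈ A`, `y' ∈ B`,
`x' w = y' w`, `x' u ≠ y' u`.  `agree_W` says that no member of `A` and member of `B` have the same values at `(u, w)`.
Case `(x' u, x' w) = (α, β)`: `B` has the values `(α, !β)` and `(!α, β)`, so by `cross` also `(!α, !β)` (not `(α, β)`, a value of `A`); so `A` has only the value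
`(α, β)` and `single_of_const` applies to `A`.
Case `(!α, !β)`: `A` has `(α, β)` and `(!α, !β)`, by `cross` one of `(α, !β)`, `(!α, β)`; the first is a value of `B` (`y`), so `A` has `(!α, β)`; so `B`
has only the value `(α, !β)`, `single_of_const` for `B`.
Case `(α, !β)`: it is the value of `y ∈ B`, contradiction.  Case `(!α, β)`: `y'` has the value `(α, β)` of `x`, contradiction.
-/

open Relation NSep

namespace NSA

variable {n : ℕ} {f : Cfg n → Cfg n}

theorem FD2_path {C : Set (Cfg n)} (hC : IsAttractor f C) {u w : Fin n} (huw : u ≠ w) {y y' : Cfg n} (hy : y ∈ C)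
    (h1 : y u ≠ y' u) (h2 : y w ≠ y' w) {z : Cfg n} (hz : Reach f y z) :
    (z u = y u ∧ z w = y w) ∨ ∃ z ∈ C, (z u = y u ∧ z w = y' w) ∨ (z u = y' u ∧ z w = y w) := by
  unfold Reach at hz
  induction hz with
  | refl => exact Or.inl ⟨rfl, rfl⟩
  | @tail b c hb hbc ih =>
    rcases ih with ⟨e1, e2⟩ | h
    · have hcC : c ∈ C := trap_reach hC.2.1 hy (ReflTransGen.tail hb hbc)
      obtain ⟨i, hi, rfl⟩ := hbc
      by_cases hiu : i = u
      · subst hiu
        refine Or.inr ⟨_, hcC, Or.inr ⟨?_, ?_⟩⟩
        · rw [Function.update_self, e1]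
          revert h1
          cases y i <;> cases y' i <;> simp
        · rw [Function.update_of_ne huw.symm, e2]
      · by_cases hiw : i = w
        · subst hiw
          refine Or.inr ⟨_, hcC, Or.inl ⟨?_, ?_⟩⟩
          · rw [Function.update_of_ne huw, e1]
          · rw [Function.update_self, e2]
            revert h2
            cases y i <;> cases y' i <;> simp
        · refine Or.inl ⟨?_, ?_⟩
          · rw [Function.update_of_ne (Ne.symm hiu), e1]
          · rw [Function.update_of_ne (Ne.symm hiw), e2]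
    · exact Or.inr h

theorem cross {C : Set (Cfg n)} (hC : IsAttractor f C) {u w : Fin n} (huw : u ≠ w) {y y' : Cfg n} (hy : y ∈ C)
    (hy' : y' ∈ C) (h1 : y u ≠ y' u) (h2 : y w ≠ y' w) :
    ∃ z ∈ C, (z u = y u ∧ z w = y' w) ∨ (z u = y' u ∧ z w = y w) := by
  rcases FD2_path hC huw hy h1 h2 (att_reach hC hy hy') with ⟨e1, -⟩ | h
  · exact absurd e1.symm h1
  · exact h

/-- the final argument -/
theorem FD2_single {A B : Set (Cfg n)} (h : NSPair f A B) {u w : Fin n} (hW : Feed f {u, w}) {a b : Bool}
    (h1 : ∃ y ∈ B, y u = a ∧ y w = !b) (h2 : ∃ y ∈ B, y u = !a ∧ y w = b) (h3 : ∃ y ∈ B, y u = !a ∧ y w = !b) :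
    ∃ c, A = {c} := by
  obtain ⟨y1, hy1, e1, e1'⟩ := h1
  obtain ⟨y2, hy2, e2, e2'⟩ := h2
  obtain ⟨y3, hy3, e3, e3'⟩ := h3
  have key : ∀ x ∈ A, x u = a ∧ x w = b := by
    intro x hx
    have k1 := agree_W h hW hx hy1
    have k2 := agree_W h hW hx hy2
    have k3 := agree_W h hW hx hy3
    simp only [Finset.mem_insert, Finset.mem_singleton, exists_eq_or_imp, exists_eq_left] at k1 k2 k3
    rw [e1, e1'] at k1
    rw [e2, e2'] at k2
    rw [e3, e3'] at k3
    revert k1 k2 k3
    cases x u <;> cases x w <;> cases a <;> cases b <;> simp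
  refine single_of_const h.hA hW fun x hx x' hx' k hk => ?_
  simp only [Finset.mem_insert, Finset.mem_singleton] at hk
  rcases hk with rfl | rfl
  · rw [(key x hx).1, (key x' hx').1]
  · rw [(key x hx).2, (key x' hx').2]

theorem pair1 {A B : Set (Cfg n)} (h : NSPair f A B) {u w : Fin n} (huw : u ≠ w) (hW : Feed f {u, w}) :
    (∃ a, A = {a}) ∨ (∃ b, B = {b}) := by
  obtain ⟨x, hx, y, hy, hxy⟩ := exists_agree h u
  obtain ⟨x', hx', y', hy', hxy'⟩ := exists_agree h w
  have key : ∀ x ∈ A, ∀ y ∈ B, x u ≠ y u ∨ x w ≠ y w := by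
    intro x hx y hy
    have k1 := agree_W h hW hx hy
    simpa only [Finset.mem_insert, Finset.mem_singleton, exists_eq_or_imp, exists_eq_left] using k1
  have k1 := key x hx y hy
  have k2 := key x' hx' y' hy'
  have k3 := key x hx y' hy'
  have k4 := key x' hx' y hy
  have hyw : y w = !x w := by
    revert k1 hxy
    cases x u <;> cases y u <;> cases x w <;> cases y w <;> simp
  have hyu' : y' u = !x' u := by
    revert k2 hxy'
    cases x' u <;> cases y' u <;> cases x' w <;> cases y' w <;> simp
  by_cases c1 : x' u = x u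
  · -- x' u = x u, so x' w = x w (otherwise it is the value of y)
    have c2 : x' w = x w := by
      revert k4
      rw [c1, ← hxy, hyw]
      cases x' w <;> cases x w <;> simp
    left
    have e1 : y' u = !x u := by rw [hyu', c1]
    have e2 : y' w = x w := by rw [← hxy', c2]
    obtain ⟨z, hz, hz'⟩ := cross h.hB huw hy hy' (by rw [← hxy, e1]; cases x u <;> simp) (by rw [hyw, e2]; cases x w <;> simp)
    refine FD2_single h hW (a := x u) (b := x w) ⟨y, hy, hxy.symm, hyw⟩ ⟨y', hy', e1, e2⟩ ⟨z, hz, ?_⟩
    rcases hz' with ⟨g1, g2⟩ | ⟨g1, g2⟩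
    · exfalso
      have k5 := key x hx z hz
      rw [g1, g2, e2, ← hxy] at k5
      rcases k5 with k5 | k5
      · exact k5 rfl
      · exact k5 rfl
    · exact ⟨by rw [g1, e1], by rw [g2, hyw]⟩
  · have c1' : x' u = !x u := by
      revert c1
      cases x' u <;> cases x u <;> simp
    -- the value of y' at u is x u; so x' w = ! x w
    have e1 : y' u = x u := by rw [hyu', c1']; cases x u <;> rfl
    have c2 : x' w = !x w := by
      revert k3
      rw [e1, ← hxy']
      cases x' w <;> cases x w <;> simp
    right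
    obtain ⟨z, hz, hz'⟩ := cross h.hA huw hx hx' (by rw [c1']; cases x u <;> simp) (by rw [c2]; cases x w <;> simp)
    refine FD2_single h.symm (by exact hW) (a := x u) (b := !x w) ⟨x, hx, rfl, by simp⟩ ⟨x', hx', c1', c2⟩ ⟨z, hz, ?_⟩
    rcases hz' with ⟨g1, g2⟩ | ⟨g1, g2⟩
    · exfalso
      have k5 := key z hz y hy
      rw [g1, g2, hyw, c2, ← hxy] at k5
      rcases k5 with k5 | k5
      · exact k5 rfl
      · exact k5 rfl
    · exact ⟨by rw [g1, c1'], by rw [g2]; simp⟩

end NSA
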