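import Pool.Agent.NSA.FD1
import Pool.Agent.NSA.FD2

set_option autoImplicit false

/-!
[NSA-FD3] the second attractor.  `A = {0}`, so `f 0 = 0` (`fix_of_single`).
`avoid`: `agree_W` with `x = 0 ∈ A`.  `exists_agree` at `u` gives `y ∈ B` with `y u = false`, so `y w = true`; at `w`: `y' ∈ B` with
`y' w = false`, `y' u = true`; `cross` gives `z ∈ B` with values `(false, false)` (impossible) or `(true, true)`.  For each of the three values apply `settle`
with `W = {u, w}` (the result is in `B` by `trap_reach`): `visit`.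
The other statements (`z ∈ B`): if `(z u, z w) = (false, true)` then `f z w = true`, since otherwise `update z w false ∈ B` has the value `(false, false)`
(`up01`, second part of `lo`).  If moreover `z` is settled outside `u, w` then `f z u = true`: otherwise `f z = z`, `{z}` is a trap set in `B`, so `B = {z}`,
but `B` contains configurations with different values at `u` (`visit`).  At `(true, true)` not both `f z u = true` and `f z w = true` by the same argument.
-/

open Relation NSep

namespace NSA

variable {n : ℕ} {f : Cfg n → Cfg n}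

private theorem FD3_upd {B : Set (Cfg n)} (hB : IsAttractor f B) {z : Cfg n} (hz : z ∈ B) {i : Fin n}
    (h : f z i ≠ z i) : Function.update z i (!z i) ∈ B := hB.2.1 z hz _ ⟨i, h, rfl⟩

private theorem FD3_fix {B : Set (Cfg n)} (hB : IsAttractor f B) {z : Cfg n} (hz : z ∈ B) (h : f z = z) :
    B = {z} := by
  have h1 : ({z} : Set (Cfg n)) = B := by
    refine hB.2.2 _ ⟨z, rfl⟩ ?_ ?_
    · rintro x hx y ⟨i, hi, rfl⟩
      have hx' : x = z := hx
      subst hx'
      rw [h] at hi
      exact absurd rfl hi
    · intro x hx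
      have hx' : x = z := hx
      rw [hx']
      exact hz
  exact h1.symm

theorem pair2 {B : Set (Cfg n)} (h : NSPair f {fun _ => false} B) {u w : Fin n} (huw : u ≠ w)
    (hW : Feed f {u, w}) : FixPair f B u w := by
  have hav : ∀ y ∈ B, ¬ (y u = false ∧ y w = false) := by
    rintro y hy ⟨h1, h2⟩
    obtain ⟨k, hk, hne⟩ := agree_W h hW (x := fun _ => false) rfl hy
    rw [Finset.mem_insert, Finset.mem_singleton] at hk
    rcases hk with rfl | rfl
    · exact hne h1.symm
    · exact hne h2.symm
  have hset : ∀ z ∈ B, ∃ z' ∈ B, z' u = z u ∧ z' w = z w ∧ ∀ k, k ≠ u → k ≠ w → f z' k = z' k := by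
    intro z hz
    obtain ⟨z', hr, h1, h2⟩ := settle hW z
    refine ⟨z', trap_reach h.hB.2.1 hz hr, h1 u (by simp), h1 w (by simp), ?_⟩
    intro k hku hkw
    exact h2 k (by simp [hku, hkw])
  obtain ⟨x, hx, y, hy, hxy⟩ := exists_agree h u
  have hx0 : x = fun _ => false := hx
  obtain ⟨x', hx', y', hy', hxy'⟩ := exists_agree h w
  have hx0' : x' = fun _ => false := hx'
  have hyu : y u = false := by rw [← hxy, hx0]
  have hyw : y w = true := by
    cases hc : y w with
    | true => rfl
    | false => exact absurd ⟨hyu, hc⟩ (hav y hy)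
  have hyw' : y' w = false := by rw [← hxy', hx0']
  have hyu' : y' u = true := by
    cases hc : y' u with
    | true => rfl
    | false => exact absurd ⟨hc, hyw'⟩ (hav y' hy')
  obtain ⟨z, hz, hzz⟩ := cross h.hB huw hy hy' (by rw [hyu, hyu']; decide) (by rw [hyw, hyw']; decide)
  have hz11 : z u = true ∧ z w = true := by
    rcases hzz with ⟨h1, h2⟩ | ⟨h1, h2⟩
    · exact absurd ⟨h1.trans hyu, h2.trans hyw'⟩ (hav z hz)
    · exact ⟨h1.trans hyu', h2.trans hyw⟩
  refine ⟨huw, fix_of_single h.hA, h.hB, hav, ?_⟩
  intro b c hbc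
  cases b with
  | false =>
    cases c with
    | false => exact absurd ⟨rfl, rfl⟩ hbc
    | true =>
      obtain ⟨z', h1, h2, h3, h4⟩ := hset y hy
      exact ⟨z', h1, h2.trans hyu, h3.trans hyw, h4⟩
  | true =>
    cases c with
    | false =>
      obtain ⟨z', h1, h2, h3, h4⟩ := hset y' hy'
      exact ⟨z', h1, h2.trans hyu', h3.trans hyw', h4⟩
    | true =>
      obtain ⟨z', h1, h2, h3, h4⟩ := hset z hz
      exact ⟨z', h1, h2.trans hz11.1, h3.trans hz11.2, h4⟩

theorem FixPair.symm {B : Set (Cfg n)} {u w : Fin n} (h : FixPair f B u w) : FixPair f B w u := by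
  refine ⟨h.ne.symm, h.fix, h.att, fun y hy hyy => h.avoid y hy ⟨hyy.2, hyy.1⟩, ?_⟩
  intro b c hbc
  obtain ⟨z, h1, h2, h3, h4⟩ := h.visit c b (fun e => hbc ⟨e.2, e.1⟩)
  exact ⟨z, h1, h3, h2, fun k hk1 hk2 => h4 k hk2 hk1⟩

theorem FixPair.lo {B : Set (Cfg n)} {u w : Fin n} (h : FixPair f B u w) {z : Cfg n} (hz : z ∈ B)
    (hu : z u = false) : z w = true ∧ f z w = true := by
  have h1 : z w = true := by
    cases hc : z w with
    | true => rfl
    | false => exact absurd ⟨hu, hc⟩ (h.avoid z hz)
  refine ⟨h1, ?_⟩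
  cases hc : f z w with
  | true => rfl
  | false =>
    exfalso
    have h2 := FD3_upd h.att hz (i := w) (by rw [hc, h1]; decide)
    refine h.avoid _ h2 ⟨?_, ?_⟩
    · rw [Function.update_of_ne h.ne]
      exact hu
    · rw [Function.update_self, h1]
      rfl

theorem FixPair.up {B : Set (Cfg n)} {u w : Fin n} (h : FixPair f B u w) {z : Cfg n} (hz : z ∈ B)
    (hu : z u = false) (hs : ∀ k, k ≠ u → k ≠ w → f z k = z k) : f z u = true := by
  cases hc : f z u with
  | true => rfl
  | false =>
    exfalso
    obtain ⟨hw, hfw⟩ := h.lo hz hu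
    have hfix : f z = z := by
      funext k
      by_cases hku : k = u
      · rw [hku, hc, hu]
      · by_cases hkw : k = w
        · rw [hkw, hfw, hw]
        · exact hs k hku hkw
    have hB := FD3_fix h.att hz hfix
    obtain ⟨z', hz', h1, -, -⟩ := h.visit true true (by simp)
    rw [hB] at hz'
    have hz'' : z' = z := hz'
    rw [hz'', hu] at h1
    exact absurd h1 (by decide)

theorem FixPair.top {B : Set (Cfg n)} {u w : Fin n} (h : FixPair f B u w) {z : Cfg n} (hz : z ∈ B)
    (hu : z u = true) (hw : z w = true) (hs : ∀ k, k ≠ u → k ≠ w → f z k = z k) :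
    f z u = false ∨ f z w = false := by
  by_contra hcon
  push Not at hcon
  obtain ⟨h1, h2⟩ := hcon
  have h1' : f z u = true := by
    cases hc : f z u with
    | true => rfl
    | false => exact absurd hc h1
  have h2' : f z w = true := by
    cases hc : f z w with
    | true => rfl
    | false => exact absurd hc h2
  have hfix : f z = z := by
    funext k
    by_cases hku : k = u
    · rw [hku, h1', hu]
    · by_cases hkw : k = w
      · rw [hkw, h2', hw]
      · exact hs k hku hkw
  have hB := FD3_fix h.att hz hfix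
  obtain ⟨z', hz', h3, -, -⟩ := h.visit false true (by simp)
  rw [hB] at hz'
  have hz'' : z' = z := hz'
  rw [hz'', hu] at h3
  exact absurd h3 (by decide)

end NSA
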