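import Pool.Agent.NSA.Defs

set_option autoImplicit false

/-!
[NSA-NF1] configurations and the normal form.  `flat r x = fun k => x (r k)`.
`flat_flat`: `r (r k) = r k` by `mem`, `gate`.
`flush`: every `x` reaches `flat r x`.  Let `rk` be the rank from `wf`.  Prove by induction on `t`: there is `z` with `Reach f x z`, `z g = x g` for `g ∈ G`, and
`z k = x (r k)` for all `k` with `k ∈ G` or `rk k < t`.  Step from `t` to `t + 1`: update one after the other the vertices `k ∉ G` with `rk k = t` (induction
over a `Finset` of them): `f z k = z (p k)` (`copy`), `rk (p k) < t` or `p k ∈ G`, so `z (p k) = x (r (p k)) = x (r k)` (`step`); either `z k` has this value already or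
flipping it is a `Step`.  (Alternatively: `Feed f G` and `settle`; direct is easier.)  Take `t` larger than all ranks.
`flat_mem`: `trap_reach` along `flush`.
`flat_of_settled`: if `f z k = z k` for all `k ∉ G` then `z k = z (p k)`, so `z k = z (r k)` by strong induction on `rk k`.
`f_flat`: `f (flat r x) k = flat r x k` for `k ∉ G` (`copy`, `step`).
`gstep`: `y = update (flat r x) g (!x g)` is a `Step` from `flat r x` (`flat r x g = x g` as `r g = g`), so `y ∈ A`, and
`flat r y = flat r (update x g (!x g))` (`flat r y k = y (r k)`; if `r k = g` it is `!x g`, otherwise `x (r (r k)) = x (r k)`); use `flat_mem`.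
`arc_copy`: from the witnesses of the arc, `f x k = x (p k)`: the two configurations differ only at `j`, so `j = p k`, and `s = true`.
-/

open Relation NSep

namespace NSA

variable {n : ℕ} {f : Cfg n → Cfg n} {G : Finset (Fin n)} {p r : Fin n → Fin n}

theorem NF.flat_flat (h : NF f G p r) (x : Cfg n) : flat r (flat r x) = flat r x := by
  funext k
  show x (r (r k)) = x (r k)
  rw [h.gate _ (h.mem k)]

theorem NF.flush (h : NF f G p r) (x : Cfg n) : Reach f x (flat r x) := by
  obtain ⟨rk, hrk⟩ := h.wf
  have key : ∀ t : ℕ, ∃ z, Reach f x z ∧ ∀ k, (k ∈ G ∨ rk k < t) → z k = x (r k) := by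
    intro t
    induction t with
    | zero =>
      refine ⟨x, ReflTransGen.refl, ?_⟩
      intro k hk
      rcases hk with hk | hk
      · rw [h.gate k hk]
      · exact absurd hk (Nat.not_lt_zero _)
    | succ t ih =>
      obtain ⟨z, hz1, hz2⟩ := ih
      have key2 : ∀ S : Finset (Fin n), (∀ k ∈ S, k ∉ G ∧ rk k = t) →
          ∃ z', Reach f x z' ∧ ∀ k, (k ∈ G ∨ rk k < t ∨ k ∈ S) → z' k = x (r k) := by
        intro S
        induction S using Finset.induction_on with
        | empty =>
          intro _
          refine ⟨z, hz1, ?_⟩
          intro k hk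
          rcases hk with hk | hk | hk
          · exact hz2 k (Or.inl hk)
          · exact hz2 k (Or.inr hk)
          · exact absurd hk (Finset.notMem_empty _)
        | insert a S ha ihS =>
          intro hS
          obtain ⟨w, hw1, hw2⟩ := ihS (fun k hk => hS k (Finset.mem_insert_of_mem hk))
          obtain ⟨haG, hat⟩ := hS a (Finset.mem_insert_self _ _)
          by_cases hwa : w a = x (r a)
          · refine ⟨w, hw1, ?_⟩
            intro k hk
            rcases hk with hk | hk | hk
            · exact hw2 k (Or.inl hk)
            · exact hw2 k (Or.inr (Or.inl hk))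
            · rcases Finset.mem_insert.1 hk with hk | hk
              · rw [hk]
                exact hwa
              · exact hw2 k (Or.inr (Or.inr hk))
          · have hfa : f w a = x (r a) := by
              rw [h.copy a haG w, h.step a haG]
              apply hw2
              right
              left
              rw [← hat]
              exact hrk a haG
            have hst : Step f w (Function.update w a (!w a)) := by
              refine ⟨a, ?_, rfl⟩
              rw [hfa]
              exact fun he => hwa he.symm
            refine ⟨Function.update w a (!w a), ReflTransGen.tail hw1 hst, ?_⟩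
            intro k hk
            by_cases hka : k = a
            · rw [hka, Function.update_self]
              cases h1 : w a <;> cases h2 : x (r a) <;> simp_all
            · rw [Function.update_of_ne hka]
              apply hw2
              rcases hk with hk | hk | hk
              · exact Or.inl hk
              · exact Or.inr (Or.inl hk)
              · rcases Finset.mem_insert.1 hk with hk | hk
                · exact absurd hk hka
                · exact Or.inr (Or.inr hk)
      classical
      obtain ⟨w, hw1, hw2⟩ := key2 (Finset.univ.filter (fun k => k ∉ G ∧ rk k = t))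
        (fun k hk => (Finset.mem_filter.1 hk).2)
      refine ⟨w, hw1, ?_⟩
      intro k hk
      apply hw2
      by_cases hkG : k ∈ G
      · exact Or.inl hkG
      · right
        rcases hk with hk | hk
        · exact absurd hk hkG
        · rcases Nat.lt_succ_iff_lt_or_eq.1 hk with hk | hk
          · exact Or.inl hk
          · exact Or.inr (Finset.mem_filter.2 ⟨Finset.mem_univ _, hkG, hk⟩)
  obtain ⟨z, hz1, hz2⟩ := key (Finset.univ.sup rk + 1)
  have hzx : z = flat r x := by
    funext k
    exact hz2 k (Or.inr (Nat.lt_succ_of_le (Finset.le_sup (Finset.mem_univ k))))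
  rw [← hzx]
  exact hz1

theorem NF.flat_mem (h : NF f G p r) {A : Set (Cfg n)} (hA : IsAttractor f A) {x : Cfg n} (hx : x ∈ A) :
    flat r x ∈ A := by
  exact trap_reach hA.2.1 hx (h.flush x)

theorem NF.flat_of_settled (h : NF f G p r) {z : Cfg n} (hz : ∀ k, k ∉ G → f z k = z k) : flat r z = z := by
  obtain ⟨rk, hrk⟩ := h.wf
  have key : ∀ t : ℕ, ∀ k, rk k = t → z (r k) = z k := by
    intro t
    induction t using Nat.strong_induction_on with
    | _ t ih =>
      intro k hk
      by_cases hkG : k ∈ G
      · rw [h.gate k hkG]
      · have h1 : z k = z (p k) := by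
          rw [← h.copy k hkG z]
          exact (hz k hkG).symm
        have h2 : rk (p k) < t := by
          rw [← hk]
          exact hrk k hkG
        rw [h.step k hkG, ih _ h2 (p k) rfl, h1]
  funext k
  exact key _ k rfl

theorem NF.f_flat (h : NF f G p r) (x : Cfg n) {k : Fin n} (hk : k ∉ G) : f (flat r x) k = flat r x k := by
  rw [h.copy k hk]
  show x (r (p k)) = x (r k)
  rw [h.step k hk]

theorem NF.gstep (h : NF f G p r) {A : Set (Cfg n)} (hA : IsAttractor f A) {x : Cfg n} (hx : flat r x ∈ A)
    {g : Fin n} (hg : g ∈ G) (hne : f (flat r x) g ≠ x g) : flat r (Function.update x g (!x g)) ∈ A := by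
  have hxg : flat r x g = x g := by
    show x (r g) = x g
    rw [h.gate g hg]
  have hst : Step f (flat r x) (Function.update (flat r x) g (!x g)) := by
    refine ⟨g, ?_, ?_⟩
    · rw [hxg]
      exact hne
    · rw [hxg]
  have hy := hA.2.1 _ hx _ hst
  have he : flat r (Function.update (flat r x) g (!x g)) = flat r (Function.update x g (!x g)) := by
    funext k
    show Function.update (flat r x) g (!x g) (r k) = Function.update x g (!x g) (r k)
    by_cases hk : r k = g
    · rw [hk, Function.update_self, Function.update_self]
    · rw [Function.update_of_ne hk, Function.update_of_ne hk]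
      show x (r (r k)) = x (r k)
      rw [h.gate _ (h.mem k)]
  rw [← he]
  exact h.flat_mem hA hy

theorem NF.arc_copy (h : NF f G p r) {k : Fin n} (hk : k ∉ G) {s : Bool} {j : Fin n} (ha : Arc f s j k) :
    s = true ∧ j = p k := by
  obtain ⟨x, y, h1, h2, h3, h4, h5⟩ := ha
  rw [h.copy k hk] at h4 h5
  have hj : j = p k := by
    by_contra hne
    have h6 := h1 (p k) (fun he => hne he.symm)
    rw [h4, h5] at h6
    cases s <;> simp at h6
  refine ⟨?_, hj⟩
  rw [← hj, h3] at h5
  exact h5.symm

theorem NF.arc_p (h : NF f G p r) {k : Fin n} (hk : k ∉ G) : Arc f true (p k) k := by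
  refine ⟨fun _ => false, Function.update (fun _ => false) (p k) true, ?_, rfl, ?_, ?_, ?_⟩
  · intro l hl
    rw [Function.update_of_ne hl]
  · rw [Function.update_self]
  · rw [h.copy k hk]
    rfl
  · rw [h.copy k hk, Function.update_self]

end NSA
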