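import Pool.Agent.NSA.Defs

set_option autoImplicit false

/-!
[NSA-FD1] settling outside a set meeting all cycles.
`settle`: prove by induction on `D.card` the following claim for every `D` disjoint from `W` and every `x` such that (i) every `k ∉ W`, `k ∉ D` has
`f x k = x k`, and (ii) there is no arc from a vertex of `D` to a vertex outside `D ∪ W`: there is `z` with `Reach f x z`, `z = x` on `W`,
`f z k = z k` for all `k ∉ W`.  If `D = ∅` take `z = x`.  Otherwise `Feed` gives `k ∈ D` without arcs from `D`.  Let `x' = update x k (f x k)` (either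
`x' = x` or one `Step`).  `x` and `x'` differ at most at `k`; for `m ∉ W ∪ D` there is no arc `k → m` (ii), so `f x' m = f x m = x m = x' m`
(`exists_arc'`: a change of `f _ m` needs an arc from a changed vertex); there is no arc `k → k`, so `f x' k = f x k = x' k`.  Apply the induction
hypothesis to `D.erase k` and `x'` ((ii): arcs from `D.erase k` to `k` do not exist by the choice of `k`).  Start with `D = univ \ W`.
`settle_unique`: otherwise `D = {k | z k ≠ z' k}` is nonempty and disjoint from `W`; take `k ∈ D` without arcs from `D`; `f z k = z k ≠ z' k = f z' k`, and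
`exists_arc'` gives an arc into `k` from a vertex of `D`, contradiction.
`agree_W`: if `x, y` agree on `W`, settle both: the results agree on `W`, so they are equal (`settle_unique`) and lie in `A` and `B` (`trap_reach`), `A = B` by
`att_eq`, contradiction.
`exists_agree`: otherwise `x k ≠ y k` for all `x ∈ A`, `y ∈ B`; then `A` is constant `c` and `B` constant `!c` at `k`: contradiction to `not_sep`.
`one_feed`: `exists_agree` and `agree_W` for `W = {v}`.
`single_of_const`: all members of `A` agree on `W`; settle one of them: `z ∈ A`, `f z k = z k` for `k ∉ W`; for `k ∈ W`, if `f z k ≠ z k` then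
`update z k (!z k) ∈ A` (trap set) differs from `z` at `k ∈ W`, contradiction.  So `f z = z`, `{z}` is a trap set contained in `A`, so `A = {z}`.
`fix_of_single`: if `f a k ≠ a k` then `update a k (!a k) ∈ {a}`, contradiction.
-/

open Relation NSep

namespace NSA

variable {n : ℕ} {f : Cfg n → Cfg n}

theorem FD1_settle {W : Finset (Fin n)} (hW : Feed f W) (m : ℕ) : ∀ (D : Finset (Fin n)), D.card = m → Disjoint D W →
    (∀ j ∈ D, ∀ k, k ∉ D → k ∉ W → ∀ s, ¬ Arc f s j k) → ∀ x : Cfg n, (∀ k, k ∉ W → k ∉ D → f x k = x k) →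
    ∃ z, Reach f x z ∧ (∀ k ∈ W, z k = x k) ∧ ∀ k, k ∉ W → f z k = z k := by
  classical
  induction m with
  | zero =>
    intro D hD _ _ x hx
    rw [Finset.card_eq_zero] at hD
    subst hD
    exact ⟨x, ReflTransGen.refl, fun _ _ => rfl, fun k hk => hx k hk (Finset.notMem_empty k)⟩
  | succ m ih =>
    intro D hD hDW harc x hx
    have hne : D.Nonempty := by
      rw [← Finset.card_pos, hD]
      omega
    obtain ⟨k, hkD, hk⟩ := hW D hne hDW
    have hkW : k ∉ W := fun h => (Finset.disjoint_left.1 hDW hkD) h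
    set x' : Cfg n := Function.update x k (f x k) with hx'
    have hfx : ∀ l, f x' l ≠ f x l → ∃ s, Arc f s k l := by
      intro l hl
      obtain ⟨j, hj, hja⟩ := exists_arc' hl
      have hjk : j = k := by
        by_contra hne'
        apply hj
        rw [hx', Function.update_of_ne hne']
      subst hjk
      exact ⟨_, hja⟩
    have hreach : Reach f x x' := by
      by_cases h1 : f x k = x k
      · have h2 : x' = x := by rw [hx', h1, Function.update_eq_self]
        rw [h2]
        exact ReflTransGen.refl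
      · refine ReflTransGen.single ⟨k, h1, ?_⟩
        rw [hx']
        congr 1
        cases h2 : f x k <;> cases h3 : x k <;> simp_all
    have hA1 : ∀ j ∈ D.erase k, ∀ l, l ∉ D.erase k → l ∉ W → ∀ s, ¬ Arc f s j l := by
      intro j hj l hl hlW s hs
      by_cases hlk : l = k
      · subst hlk
        exact hk j (Finset.mem_of_mem_erase hj) s hs
      · exact harc j (Finset.mem_of_mem_erase hj) l (fun h => hl (Finset.mem_erase.2 ⟨hlk, h⟩)) hlW s hs
    have hA2 : ∀ l, l ∉ W → l ∉ D.erase k → f x' l = x' l := by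
      intro l hlW hl
      by_cases hlk : l = k
      · subst hlk
        have h1 : x' l = f x l := by rw [hx', Function.update_self]
        rw [h1]
        by_contra h2
        obtain ⟨s, hs⟩ := hfx l h2
        exact hk l hkD s hs
      · have hlD : l ∉ D := fun h => hl (Finset.mem_erase.2 ⟨hlk, h⟩)
        have h1 : x' l = x l := by rw [hx', Function.update_of_ne hlk]
        rw [h1, ← hx l hlW hlD]
        by_contra h2
        obtain ⟨s, hs⟩ := hfx l h2
        exact harc k hkD l hlD hlW s hs
    obtain ⟨z, hz1, hz2, hz3⟩ := ih (D.erase k) (by rw [Finset.card_erase_of_mem hkD, hD]; rfl)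
      (hDW.mono_left (Finset.erase_subset k D)) hA1 x' hA2
    refine ⟨z, ReflTransGen.trans hreach hz1, fun l hl => ?_, hz3⟩
    rw [hz2 l hl, hx', Function.update_of_ne]
    rintro rfl
    exact hkW hl

theorem settle {W : Finset (Fin n)} (hW : Feed f W) (x : Cfg n) :
    ∃ z, Reach f x z ∧ (∀ k ∈ W, z k = x k) ∧ ∀ k, k ∉ W → f z k = z k := by
  classical
  refine FD1_settle hW _ (Finset.univ \ W) rfl Finset.sdiff_disjoint ?_ x ?_
  · intro j _ k hk hkW
    exact absurd (Finset.mem_sdiff.2 ⟨Finset.mem_univ k, hkW⟩) hk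
  · intro k hkW hk
    exact absurd (Finset.mem_sdiff.2 ⟨Finset.mem_univ k, hkW⟩) hk

theorem settle_unique {W : Finset (Fin n)} (hW : Feed f W) {z z' : Cfg n} (h : ∀ k ∈ W, z k = z' k)
    (hz : ∀ k, k ∉ W → f z k = z k) (hz' : ∀ k, k ∉ W → f z' k = z' k) : z = z' := by
  classical
  by_contra hne
  have h1 : (Finset.univ.filter (fun k => z k ≠ z' k)).Nonempty := by
    by_contra h2
    rw [Finset.not_nonempty_iff_eq_empty] at h2
    apply hne
    funext k
    by_contra h3
    have h4 : k ∈ Finset.univ.filter (fun k => z k ≠ z' k) := by simp [h3]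
    rw [h2] at h4
    exact absurd h4 (Finset.notMem_empty _)
  obtain ⟨k, hk, hka⟩ := hW _ h1 (by
    rw [Finset.disjoint_left]
    intro k hk hkW
    exact (Finset.mem_filter.1 hk).2 (h k hkW))
  have hkne : z k ≠ z' k := (Finset.mem_filter.1 hk).2
  have hkW : k ∉ W := fun h2 => hkne (h k h2)
  have h2 : f z k ≠ f z' k := by
    rw [hz k hkW, hz' k hkW]
    exact hkne
  obtain ⟨j, hj, hja⟩ := exists_arc' h2
  exact hka j (by simp [hj]) _ hja

theorem agree_W {A B : Set (Cfg n)} (h : NSPair f A B) {W : Finset (Fin n)} (hW : Feed f W) {x y : Cfg n}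
    (hx : x ∈ A) (hy : y ∈ B) : ∃ k ∈ W, x k ≠ y k := by
  by_contra hcon
  push Not at hcon
  obtain ⟨z, hz1, hz2, hz3⟩ := settle hW x
  obtain ⟨z', hz1', hz2', hz3'⟩ := settle hW y
  have h1 : z = z' := settle_unique hW (fun k hk => by rw [hz2 k hk, hz2' k hk, hcon k hk]) hz3 hz3'
  apply h.ne
  exact att_eq h.hA h.hB (trap_reach h.hA.2.1 hx hz1) (by rw [h1]; exact trap_reach h.hB.2.1 hy hz1')

theorem exists_agree {A B : Set (Cfg n)} (h : NSPair f A B) (k : Fin n) : ∃ x ∈ A, ∃ y ∈ B, x k = y k := by
  by_contra hcon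
  push Not at hcon
  obtain ⟨x0, hx0⟩ := h.hA.1
  obtain ⟨y0, hy0⟩ := h.hB.1
  apply not_sep h.hA.1 h.hB.1 h.hull k (x0 k)
  constructor
  · intro x hx
    have h1 := hcon x hx y0 hy0
    have h2 := hcon x0 hx0 y0 hy0
    revert h1 h2
    cases x k <;> cases x0 k <;> cases y0 k <;> simp
  · intro y hy
    have h1 := hcon x0 hx0 y hy
    revert h1
    cases x0 k <;> cases y k <;> simp

theorem one_feed {A B : Set (Cfg n)} (h : NSPair f A B) {v : Fin n} (hW : Feed f {v}) : False := by
  obtain ⟨x, hx, y, hy, hxy⟩ := exists_agree h v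
  obtain ⟨k, hk, hne⟩ := agree_W h hW hx hy
  rw [Finset.mem_singleton] at hk
  subst hk
  exact hne hxy

theorem single_of_const {A : Set (Cfg n)} (hA : IsAttractor f A) {W : Finset (Fin n)} (hW : Feed f W)
    (hc : ∀ x ∈ A, ∀ x' ∈ A, ∀ k ∈ W, x k = x' k) : ∃ a, A = {a} := by
  obtain ⟨x, hx⟩ := hA.1
  obtain ⟨z, hz1, hz2, hz3⟩ := settle hW x
  have hzA : z ∈ A := trap_reach hA.2.1 hx hz1
  have hfz : ∀ k, f z k = z k := by
    intro k
    by_cases hk : k ∈ W
    · by_contra h1
      have h2 : Function.update z k (!z k) ∈ A := hA.2.1 z hzA _ ⟨k, h1, rfl⟩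
      have h3 := hc z hzA _ h2 k hk
      rw [Function.update_self] at h3
      revert h3
      cases z k <;> simp
    · exact hz3 k hk
  refine ⟨z, (hA.2.2 {z} ⟨z, rfl⟩ ?_ (Set.singleton_subset_iff.2 hzA)).symm⟩
  intro x hx y hxy
  rw [Set.mem_singleton_iff] at hx
  subst hx
  obtain ⟨i, hi, -⟩ := hxy
  exact absurd (hfz i) hi

theorem fix_of_single {a : Cfg n} (hA : IsAttractor f {a}) : f a = a := by
  funext k
  by_contra h1
  have h2 : Function.update a k (!a k) ∈ ({a} : Set (Cfg n)) := hA.2.1 a rfl _ ⟨k, h1, rfl⟩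
  rw [Set.mem_singleton_iff] at h2
  have h3 := congrFun h2 k
  rw [Function.update_self] at h3
  revert h3
  cases a k <;> simp

theorem NSPair.symm {A B : Set (Cfg n)} (h : NSPair f A B) : NSPair f B A :=
  ⟨h.hB, h.hA, fun e => h.ne e.symm, by rw [Set.inter_comm]; exact h.hull⟩

end NSA
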