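import Pool.Agent.NSA.Defs

set_option autoImplicit false

/-!
[NSA-SW] switching.  `xr a x` is the pointwise `xor`, `sw a f x = xr a (f (xr a x))`, `swS a A = {x | xr a x ∈ A}`.
`xr_xr`: `funext k; simp [xr]` (xor is an involution).
`arc_sw`: unfold `Arc`.  From witnesses `x, y` for `sw a f` (they differ only at `j`, `x j = false`, `y j = true`, values `!s`, `s` at `i`) the pair
`xr a x, xr a y` differs only at `j`, with values `a j`, `!a j`; if `a j = false` use `(xr a x, xr a y)`, if `a j = true` use `(xr a y, xr a x)`; the values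
of `f` at `i` are `xor (a i) (!s)` and `xor (a i) s`.  Case split on `a j`, `a i`, `s` and `simp`.  The converse is the same statement for
`sw a (sw a f) = f` (prove `sw_sw` first) and the sign `(s == (a j == a i))`, because `((s == t) == t) = s` for Booleans.
`indeg_sw`: `Finset.card_bij` (or `card_nbij'`) with `(s, j) ↦ (s == (a j == a i), j)`.
`step_sw`: `Step (sw a f) x y ↔ Step f (xr a x) (xr a y)`: `xr a (Function.update x i (!x i)) = Function.update (xr a x) i (!xr a x i)` and
`sw a f x i ≠ x i ↔ f (xr a x) i ≠ xr a x i`.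
`att_sw`: trap sets correspond under `swS a` (an involution, monotone), so attractors do.
`hull_sw`: `mem_hull` (both hulls of nonempty sets): `z ∈ hull (swS a A) ↔ xr a z ∈ hull A`.
-/

open Relation NSep

namespace NSA

variable {n : ℕ}

theorem xr_xr (a x : Cfg n) : xr a (xr a x) = x := by
  funext k
  simp [xr]

theorem sw_sw (a : Cfg n) (f : Cfg n → Cfg n) : sw a (sw a f) = f := by
  funext x
  simp [sw, xr_xr]

theorem SW_arc (a : Cfg n) (f : Cfg n → Cfg n) (s : Bool) (j i : Fin n) (h : Arc (sw a f) s j i) :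
    Arc f (s == (a j == a i)) j i := by
  obtain ⟨x, y, hxy, hx, hy, hfx, hfy⟩ := h
  have h1 : xor (a i) (f (xr a x) i) = !s := hfx
  have h2 : xor (a i) (f (xr a y) i) = s := hfy
  have hne : ∀ k, k ≠ j → xr a x k = xr a y k := by
    intro k hk
    simp only [xr, hxy k hk]
  have hxj : xr a x j = a j := by simp [xr, hx]
  have hyj : xr a y j = !a j := by simp [xr, hy]
  rcases haj : a j with _ | _
  · refine ⟨xr a x, xr a y, hne, by rw [hxj, haj], by rw [hyj, haj]; rfl, ?_, ?_⟩
    · cases hai : a i <;> cases s <;> simp_all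
    · cases hai : a i <;> cases s <;> simp_all
  · refine ⟨xr a y, xr a x, fun k hk => (hne k hk).symm, by rw [hyj, haj]; rfl, by rw [hxj, haj], ?_, ?_⟩
    · cases hai : a i <;> cases s <;> simp_all
    · cases hai : a i <;> cases s <;> simp_all

theorem arc_sw (a : Cfg n) (f : Cfg n → Cfg n) (s : Bool) (j i : Fin n) :
    Arc (sw a f) s j i ↔ Arc f (s == (a j == a i)) j i := by
  constructor
  · exact SW_arc a f s j i
  · intro h
    have h1 := SW_arc a (sw a f) (s == (a j == a i)) j i (by rw [sw_sw]; exact h)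
    have h2 : ((s == (a j == a i)) == (a j == a i)) = s := by
      cases s <;> cases a j <;> cases a i <;> rfl
    rw [h2] at h1
    exact h1

theorem indeg_sw (a : Cfg n) (f : Cfg n → Cfg n) (i : Fin n) : indeg (sw a f) i = indeg f i := by
  classical
  unfold indeg
  refine Finset.card_bij (fun t _ => ((t.1 == (a t.2 == a i)), t.2)) ?_ ?_ ?_
  · intro t ht
    rw [mem_inArcs] at ht ⊢
    exact (arc_sw a f t.1 t.2 i).1 ht
  · intro t _ t' _ h
    have h1 := congrArg Prod.snd h
    have h2 := congrArg Prod.fst h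
    simp only at h1 h2
    apply Prod.ext
    · rw [h1] at h2
      revert h2
      cases t.1 <;> cases t'.1 <;> cases a t'.2 <;> cases a i <;> simp
    · exact h1
  · intro t ht
    rw [mem_inArcs] at ht
    have h2 : ((t.1 == (a t.2 == a i)) == (a t.2 == a i)) = t.1 := by
      cases t.1 <;> cases a t.2 <;> cases a i <;> rfl
    refine ⟨((t.1 == (a t.2 == a i)), t.2), ?_, ?_⟩
    · rw [mem_inArcs, arc_sw]
      simp only
      rw [h2]
      exact ht
    · simp only [h2]

theorem SW_step (a : Cfg n) (f : Cfg n → Cfg n) {x y : Cfg n} (h : Step (sw a f) x y) : Step f (xr a x) (xr a y) := by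
  obtain ⟨i, hi, rfl⟩ := h
  refine ⟨i, ?_, ?_⟩
  · intro h2
    apply hi
    have h3 : sw a f x i = xor (a i) (f (xr a x) i) := rfl
    rw [h3, h2]
    simp [xr]
  · funext k
    by_cases hk : k = i
    · subst hk
      simp [xr]
    · simp [xr, Function.update_of_ne hk]

theorem SW_trap (a : Cfg n) (f : Cfg n → Cfg n) {X : Set (Cfg n)} (h : IsTrap f X) : IsTrap (sw a f) (swS a X) := by
  intro x hx y hxy
  exact h _ hx _ (SW_step a f hxy)

theorem SW_swS (a : Cfg n) (X : Set (Cfg n)) : swS a (swS a X) = X := by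
  ext x
  simp only [swS, Set.mem_ofPred_eq, xr_xr]

theorem SW_ne (a : Cfg n) {X : Set (Cfg n)} (h : X.Nonempty) : (swS a X).Nonempty := by
  obtain ⟨x, hx⟩ := h
  exact ⟨xr a x, by simp only [swS, Set.mem_ofPred_eq, xr_xr]; exact hx⟩

theorem SW_att (a : Cfg n) (f : Cfg n → Cfg n) {A : Set (Cfg n)} (h : IsAttractor f A) : IsAttractor (sw a f) (swS a A) := by
  obtain ⟨h1, h2, h3⟩ := h
  refine ⟨SW_ne a h1, SW_trap a f h2, fun X hX hXt hXA => ?_⟩
  have h4 : swS a X = A := by
    refine h3 _ (SW_ne a hX) ?_ ?_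
    · have h5 := SW_trap a (sw a f) hXt
      rw [sw_sw] at h5
      exact h5
    · intro x hx
      have h5 : xr a x ∈ swS a A := hXA hx
      simp only [swS, Set.mem_ofPred_eq, xr_xr] at h5
      exact h5
  rw [← h4, SW_swS]

theorem SW_hull (a : Cfg n) {A : Set (Cfg n)} (hA : A.Nonempty) {z : Cfg n} (hz : z ∈ NSep.hull A) : xr a z ∈ NSep.hull (swS a A) := by
  rw [mem_hull (SW_ne a hA)]
  intro i
  obtain ⟨x, hx, hxi⟩ := (mem_hull hA z).1 hz i
  refine ⟨xr a x, by simp only [swS, Set.mem_ofPred_eq, xr_xr]; exact hx, ?_⟩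
  simp only [xr, hxi]

theorem nspair_sw {f : Cfg n → Cfg n} {A B : Set (Cfg n)} (h : NSPair f A B) (a : Cfg n) :
    NSPair (sw a f) (swS a A) (swS a B) := by
  refine ⟨SW_att a f h.hA, SW_att a f h.hB, ?_, ?_⟩
  · intro h1
    apply h.ne
    rw [← SW_swS a A, h1, SW_swS]
  · obtain ⟨z, hz1, hz2⟩ := Set.nonempty_iff_ne_empty.2 h.hull
    apply Set.nonempty_iff_ne_empty.1
    exact ⟨xr a z, SW_hull a h.hA.1 hz1, SW_hull a h.hB.1 hz2⟩

end NSA
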