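import Pool.Agent.NSA.Defs
import Pool.Agent.NSA.SW
import Pool.Agent.NSA.FD1
import Pool.Agent.NSA.FD2
import Pool.Agent.NSA.NF1

set_option autoImplicit false

/-!
[NSA-NF2] normal form: sets meeting all cycles, and switching to a fixed point `0`.
`closed_root`: let `D` be a set such that every `k ∈ D`, `k ∉ G` has an in-arc from `D`; then `r k ∈ D` for all `k ∈ D`: strong induction on the rank `rk k` (`wf`);
if `k ∈ G` then `r k = k`; otherwise the in-arc is from `p k` (`arc_copy`), so `p k ∈ D`, `rk (p k) < rk k`, `r k = r (p k)`.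
`feed`: let `D` be nonempty, disjoint from `W`, and suppose every `k ∈ D` has an in-arc from `D`.  `S = D ∩ G` is nonempty (`closed_root`, `mem`), disjoint from
`W`; `hW S` gives `g ∈ S` such that no in-arc of `g` comes from a `j` with `r j ∈ S`; but `g` has an in-arc from some `j ∈ D`, and `r j ∈ D ∩ G = S`,
contradiction.
`feed_inv`: given `S ⊆ G` nonempty, disjoint from `W ⊆ G`, let `D = {k | r k ∈ S}` (contains `S`, disjoint from `W` because `r g = g` on `G`).  `Feed` gives `k ∈ D` with no
in-arc from `D`.  If `k ∉ G` then `p k → k` is an arc (`arc_p`) and `r (p k) = r k ∈ S`, contradiction.  So `k ∈ G`, `k = r k ∈ S`.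
`sw`: `copy`: `sw a f x k = xor (a k) (xor (a (p k)) (x (p k))) = x (p k)`; `big`: `indeg_sw`; `conn`: `arc_sw`; the other fields do not mention `f`.
`to_zero`: by `pair1` `A = {a}` or `B = {a}` (then exchange the roles by `NSPair.symm`); `f a = a` (`fix_of_single`).  Take `f' = sw a f`, `B' = swS a B`;
`swS a {a} = {fun _ => false}`.  `NF.sw` applies since `a k = f a k = a (p k)` for `k ∉ G`.  The last two statements: `indeg_sw`, `arc_sw`.
-/

open Relation NSep

namespace NSA

variable {n : ℕ} {f : Cfg n → Cfg n} {G : Finset (Fin n)} {p r : Fin n → Fin n}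

theorem NF.closed_root (h : NF f G p r) (D : Finset (Fin n))
    (hD : ∀ k ∈ D, k ∉ G → ∃ j ∈ D, ∃ s, Arc f s j k) : ∀ k ∈ D, r k ∈ D := by
  obtain ⟨rk, hrk⟩ := h.wf
  have key : ∀ m k, rk k = m → k ∈ D → r k ∈ D := by
    intro m
    induction m using Nat.strong_induction_on with
    | _ m ih =>
      intro k hkm hk
      by_cases hG : k ∈ G
      · rw [h.gate k hG]; exact hk
      · obtain ⟨j, hj, s, hs⟩ := hD k hk hG
        obtain ⟨-, hjp⟩ := h.arc_copy hG hs
        subst hjp
        rw [h.step k hG]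
        exact ih (rk (p k)) (hkm ▸ hrk k hG) (p k) rfl hj
  exact fun k hk => key _ k rfl hk

theorem NF.feed (h : NF f G p r) {W : Finset (Fin n)}
    (hW : ∀ S ⊆ G, S.Nonempty → Disjoint S W → ∃ g ∈ S, ∀ j s, Arc f s j g → r j ∉ S) : Feed f W := by
  classical
  intro D hD hd
  by_contra hcon
  push Not at hcon
  have hcl := h.closed_root D (fun k hk _ => by
    obtain ⟨j, hj, s, hs⟩ := hcon k hk
    exact ⟨j, hj, s, hs⟩)
  have hne : (D ∩ G).Nonempty := by
    obtain ⟨k, hk⟩ := hD
    exact ⟨r k, Finset.mem_inter.2 ⟨hcl k hk, h.mem k⟩⟩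
  have hdis : Disjoint (D ∩ G) W := Finset.disjoint_left.2 fun k hk =>
    Finset.disjoint_left.1 hd (Finset.mem_inter.1 hk).1
  obtain ⟨g, hg, hg'⟩ := hW (D ∩ G) Finset.inter_subset_right hne hdis
  obtain ⟨j, hj, s, hs⟩ := hcon g (Finset.mem_inter.1 hg).1
  exact hg' j s hs (Finset.mem_inter.2 ⟨hcl j hj, h.mem j⟩)

theorem NF.feed_inv (h : NF f G p r) {W : Finset (Fin n)} (hWG : W ⊆ G) (hW : Feed f W) {S : Finset (Fin n)}
    (hS : S ⊆ G) (hne : S.Nonempty) (hd : Disjoint S W) : ∃ g ∈ S, ∀ j s, Arc f s j g → r j ∉ S := by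
  classical
  have hD : (Finset.univ.filter (fun k => r k ∈ S)).Nonempty := by
    obtain ⟨g, hg⟩ := hne
    refine ⟨g, ?_⟩
    simp only [Finset.mem_filter, Finset.mem_univ, true_and]
    rw [h.gate g (hS hg)]
    exact hg
  have hdis : Disjoint (Finset.univ.filter (fun k => r k ∈ S)) W := by
    rw [Finset.disjoint_left]
    intro k hk hkW
    simp only [Finset.mem_filter, Finset.mem_univ, true_and] at hk
    rw [h.gate k (hWG hkW)] at hk
    exact Finset.disjoint_left.1 hd hk hkW
  obtain ⟨k, hk, hk'⟩ := hW _ hD hdis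
  simp only [Finset.mem_filter, Finset.mem_univ, true_and] at hk hk'
  have hkG : k ∈ G := by
    by_contra hkG
    refine hk' (p k) ?_ true (h.arc_p hkG)
    rw [← h.step k hkG]
    exact hk
  rw [h.gate k hkG] at hk
  exact ⟨k, hk, fun j s hs hj => hk' j hj s hs⟩

theorem NF.sw (h : NF f G p r) {a : Cfg n} (ha : ∀ k, k ∉ G → a k = a (p k)) : NF (sw a f) G p r := by
  refine ⟨?_, h.mem, h.gate, h.step, h.wf, ?_, ?_⟩
  · intro k hk x
    show xor (a k) (f (xr a x) k) = x (p k)
    rw [h.copy k hk, ha k hk]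
    show xor (a (p k)) (xor (a (p k)) (x (p k))) = x (p k)
    cases a (p k) <;> cases x (p k) <;> rfl
  · intro g hg
    rw [indeg_sw]
    exact h.big g hg
  · intro S hS hne hneq
    obtain ⟨g, hg, j, s, hs, hr⟩ := h.conn S hS hne hneq
    refine ⟨g, hg, j, (s == (a j == a g)), ?_, hr⟩
    rw [arc_sw]
    have e : ((s == (a j == a g)) == (a j == a g)) = s := by
      cases s <;> cases a j <;> cases a g <;> rfl
    rw [e]
    exact hs

theorem NF.to_zero (h : NF f G p r) {A B : Set (Cfg n)} (hns : NSPair f A B) {u w : Fin n} (huw : u ≠ w)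
    (hW : Feed f {u, w}) : ∃ (f' : Cfg n → Cfg n) (B' : Set (Cfg n)), NF f' G p r ∧
      NSPair f' {fun _ => false} B' ∧ (∀ i, indeg f' i = indeg f i) ∧
      ∀ j i, (∃ s, Arc f' s j i) ↔ ∃ s, Arc f s j i := by
  have key : ∀ (a : Cfg n) (C : Set (Cfg n)), NSPair f {a} C →
      ∃ (f' : Cfg n → Cfg n) (B' : Set (Cfg n)), NF f' G p r ∧
      NSPair f' {fun _ => false} B' ∧ (∀ i, indeg f' i = indeg f i) ∧
      ∀ j i, (∃ s, Arc f' s j i) ↔ ∃ s, Arc f s j i := by
    intro a C hn
    have hfa : f a = a := fix_of_single hn.hA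
    have ha : ∀ k, k ∉ G → a k = a (p k) := by
      intro k hk
      have h1 := h.copy k hk a
      rw [hfa] at h1
      exact h1
    have hset : swS a ({a} : Set (Cfg n)) = {fun _ => false} := by
      ext x
      simp only [swS, Set.mem_ofPred_eq, Set.mem_singleton_iff]
      constructor
      · intro hx
        funext k
        have h1 := congrFun hx k
        have h2 : xor (a k) (x k) = a k := h1
        revert h2
        cases a k <;> cases x k <;> simp
      · intro hx
        subst hx
        funext k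
        show xor (a k) false = a k
        cases a k <;> rfl
    refine ⟨NSA.sw a f, swS a C, h.sw ha, ?_, fun i => indeg_sw a f i, ?_⟩
    · have h1 := nspair_sw hn a
      rw [hset] at h1
      exact h1
    · intro j i
      constructor
      · rintro ⟨s, hs⟩
        exact ⟨_, (arc_sw a f s j i).1 hs⟩
      · rintro ⟨s, hs⟩
        refine ⟨(s == (a j == a i)), (arc_sw a f _ j i).2 ?_⟩
        have e : ((s == (a j == a i)) == (a j == a i)) = s := by
          cases s <;> cases a j <;> cases a i <;> rfl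
        rw [e]
        exact hs
  rcases pair1 hns huw hW with ⟨a, rfl⟩ | ⟨b, rfl⟩
  · exact key a B hns
  · exact key b A hns.symm

theorem feed_congr {f' : Cfg n → Cfg n} (h : ∀ j i, (∃ s, Arc f' s j i) ↔ ∃ s, Arc f s j i)
    {W : Finset (Fin n)} (hW : Feed f W) : Feed f' W := by
  intro D hD hd
  obtain ⟨k, hk, hk'⟩ := hW D hD hd
  refine ⟨k, hk, fun j hj s hs => ?_⟩
  obtain ⟨t, ht⟩ := (h j k).1 ⟨s, hs⟩
  exact hk' j hj t ht

end NSA
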