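import Pool.Agent.NSA.Defs

set_option autoImplicit false

/-!
[NSA-OH] all negative arcs enter one vertex: `separating_of_components` with `v := u` for every `a`, second alternative, `σ := fun _ => false`
(`(false == false) = true`).  Then `h.hull (hs A B h.hA h.hB h.ne)`.
-/

open Relation NSep

namespace NSA

variable {n : ℕ} {f : Cfg n → Cfg n}

theorem one_head {A B : Set (Cfg n)} (hns : NSPair f A B) (u : Fin n)
    (h : ∀ s j i, i ≠ u → Arc f s j i → s = true) : False := by
  have hs : Separating f := separating_of_components f fun a =>
    ⟨u, Or.inr ⟨fun _ => false, fun s j i ha _ _ hiu => h s j i hiu ha⟩⟩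
  exact hns.hull (hs A B hns.hA hns.hB hns.ne)

end NSA
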