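import Pool.Agent.NSA.Defs
import Pool.Agent.NSA.FD3
import Pool.Agent.NSA.NF1
import Pool.Agent.NSA.NF2
import Pool.Agent.NSA.OH

set_option autoImplicit false

/-!
[NSA-C2] two gates.  `four_arcs`: settled members `z10, z01, z11` of `B` (from `visit`) satisfy `flat r z = z` (`flat_of_settled`, `G = {u, w}`), so
`z k` is the value at `r k ∈ {u, w}`; also `f 0 = 0`.  `f z10 u = true`, `f z01 u = true` (`lo`, `up`, and `symm`).  Four arcs into `u` from `exists_arc'`:
`(0, z10)`: a vertex `j` with `z10 j = true`, i.e. `r j = u`, sign `(false == false) = true`; `(0, z01)`: `r j = w`, sign `true`;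
`(z11, z01)`: `z11 j ≠ z01 j`, i.e. `r j = u`, `z11 j = true`, sign `(true == f z11 u) = (true == false) = false`; `(z11, z10)`: `r j = w`, sign `false`.
The four pairs (sign, j) are different, so `4 ≤ indeg f u` (`Finset.card_le_card` with an explicit four element set).
`case2_core`: by `top` `f z11 u = false` or `f z11 w = false`; by symmetry (`FixPair.symm`, `Finset.pair_comm`, `add_comm`) the first.  So `4 ≤ indeg f u`,
`indeg f w ≤ 2`.  As above `w` has in-arcs `(true, j)`, `r j = u` (from `(0, z10)`, `f z10 w = true`) and `(true, j')`, `r j' = w` (from `(0, z01)`); so these are all in-arcs of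
`w`, all positive; in-arcs of vertices outside `G` are positive (`arc_copy`); `one_head` at `u`.
`case2`: `Feed f {u, w}` by `NF.feed` (no nonempty `S ⊆ G` is disjoint from `{u, w} = G`), then `to_zero`, `pair2` (`feed_congr`) and `case2_core`.
-/

open Relation NSep

namespace NSA

variable {n : ℕ} {f : Cfg n → Cfg n} {G : Finset (Fin n)} {p r : Fin n → Fin n}

private theorem C2_arc0 {g : Fin n} (hfix : f (fun _ => false) = fun _ => false) {z : Cfg n} (hg : f z g = true) :
    ∃ j, z j = true ∧ Arc f true j g := by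
  have h0 : f (fun _ => false) g = false := by rw [hfix]
  obtain ⟨j, hj, ha⟩ := exists_arc' (f := f) (k := g) (x := fun _ => false) (y := z) (by rw [h0, hg]; decide)
  rw [h0] at ha
  refine ⟨j, ?_, ha⟩
  cases hz : z j
  · rw [hz] at hj
    exact absurd rfl hj
  · rfl

private theorem C2_settled {u w : Fin n} (h : NF f {u, w} p r) {z : Cfg n}
    (hs : ∀ k, k ≠ u → k ≠ w → f z k = z k) (k : Fin n) : z k = z (r k) := by
  have h1 : flat r z = z := h.flat_of_settled (fun k hk => hs k (fun e => hk (by simp [e])) (fun e => hk (by simp [e])))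
  exact (congrFun h1 k).symm

private theorem C2_r {u w : Fin n} (h : NF f {u, w} p r) (k : Fin n) : r k = u ∨ r k = w := by
  have := h.mem k
  simpa using this

theorem four_arcs {u w : Fin n} (h : NF f {u, w} p r) {B : Set (Cfg n)} (hp : FixPair f B u w) {z : Cfg n}
    (hz : z ∈ B) (hu : z u = true) (hw : z w = true) (hs : ∀ k, k ≠ u → k ≠ w → f z k = z k)
    (hf : f z u = false) : 4 ≤ indeg f u := by
  classical
  obtain ⟨z1, hz1, h1u, h1w, h1s⟩ := hp.visit true false (by simp)
  obtain ⟨z2, hz2, h2u, h2w, h2s⟩ := hp.visit false true (by simp)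
  have f1 : f z1 u = true := (hp.symm.lo hz1 h1w).2
  have f2 : f z2 u = true := hp.up hz2 h2u h2s
  have hall : ∀ k, z k = true := by
    intro k
    rw [C2_settled h hs k]
    rcases C2_r h k with e | e <;> rw [e] <;> assumption
  obtain ⟨j1, hj1, a1⟩ := C2_arc0 hp.fix f1
  obtain ⟨j2, hj2, a2⟩ := C2_arc0 hp.fix f2
  have r1 : r j1 = u := by
    rcases C2_r h j1 with e | e
    · exact e
    · rw [C2_settled h h1s j1, e, h1w] at hj1
      exact absurd hj1 (by decide)
  have r2 : r j2 = w := by
    rcases C2_r h j2 with e | e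
    · rw [C2_settled h h2s j2, e, h2u] at hj2
      exact absurd hj2 (by decide)
    · exact e
  obtain ⟨j3, hj3, a3⟩ := exists_arc' (f := f) (k := u) (x := z) (y := z2) (by rw [hf, f2]; decide)
  obtain ⟨j4, hj4, a4⟩ := exists_arc' (f := f) (k := u) (x := z) (y := z1) (by rw [hf, f1]; decide)
  rw [hall j3, hf] at a3
  rw [hall j4, hf] at a4
  have r3 : r j3 = u := by
    rcases C2_r h j3 with e | e
    · exact e
    · rw [C2_settled h h2s j3, e, h2w, hall j3] at hj3
      exact absurd rfl hj3
  have r4 : r j4 = w := by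
    rcases C2_r h j4 with e | e
    · rw [C2_settled h h1s j4, e, h1u, hall j4] at hj4
      exact absurd rfl hj4
    · exact e
  have n12 : j1 ≠ j2 := fun e => hp.ne (by rw [← r1, ← r2, e])
  have n34 : j3 ≠ j4 := fun e => hp.ne (by rw [← r3, ← r4, e])
  have hsub : ({(true, j1), (true, j2), (false, j3), (false, j4)} : Finset (Bool × Fin n)) ⊆ inArcs f u := by
    intro t ht
    simp only [Finset.mem_insert, Finset.mem_singleton] at ht
    rw [mem_inArcs]
    rcases ht with rfl | rfl | rfl | rfl
    · exact a1
    · exact a2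
    · exact a3
    · exact a4
  have hc : ({(true, j1), (true, j2), (false, j3), (false, j4)} : Finset (Bool × Fin n)).card = 4 := by
    rw [Finset.card_insert_of_notMem, Finset.card_insert_of_notMem, Finset.card_pair]
    · simp [n34]
    · simp
    · simp [n12]
  rw [indeg, ← hc]
  exact Finset.card_le_card hsub

private theorem C2_aux {u w : Fin n} (h : NF f {u, w} p r) {B : Set (Cfg n)} (hns : NSPair f {fun _ => false} B)
    (hp : FixPair f B u w) (hd : indeg f u + indeg f w ≤ 6) {z : Cfg n}
    (hz : z ∈ B) (hu : z u = true) (hw : z w = true) (hs : ∀ k, k ≠ u → k ≠ w → f z k = z k)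
    (hf : f z u = false) : False := by
  classical
  have h4 := four_arcs h hp hz hu hw hs hf
  obtain ⟨z1, hz1, h1u, h1w, h1s⟩ := hp.visit true false (by simp)
  obtain ⟨z2, hz2, h2u, h2w, h2s⟩ := hp.visit false true (by simp)
  have f1 : f z1 w = true := hp.symm.up hz1 h1w (fun k h1 h2 => h1s k h2 h1)
  have f2 : f z2 w = true := (hp.lo hz2 h2u).2
  obtain ⟨j1, hj1, a1⟩ := C2_arc0 hp.fix f1
  obtain ⟨j2, hj2, a2⟩ := C2_arc0 hp.fix f2
  have r1 : r j1 = u := by
    rcases C2_r h j1 with e | e
    · exact e
    · rw [C2_settled h h1s j1, e, h1w] at hj1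
      exact absurd hj1 (by decide)
  have r2 : r j2 = w := by
    rcases C2_r h j2 with e | e
    · rw [C2_settled h h2s j2, e, h2u] at hj2
      exact absurd hj2 (by decide)
    · exact e
  have n12 : j1 ≠ j2 := fun e => hp.ne (by rw [← r1, ← r2, e])
  have hsub : ({(true, j1), (true, j2)} : Finset (Bool × Fin n)) ⊆ inArcs f w := by
    intro t ht
    simp only [Finset.mem_insert, Finset.mem_singleton] at ht
    rw [mem_inArcs]
    rcases ht with rfl | rfl
    · exact a1
    · exact a2
  have hc : ({(true, j1), (true, j2)} : Finset (Bool × Fin n)).card = 2 := by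
    rw [Finset.card_pair]
    simp [n12]
  have heq : ({(true, j1), (true, j2)} : Finset (Bool × Fin n)) = inArcs f w := by
    refine Finset.eq_of_subset_of_card_le hsub ?_
    rw [hc]
    have : (inArcs f w).card = indeg f w := rfl
    omega
  refine one_head hns u (fun s j i hi ha => ?_)
  by_cases hiw : i = w
  · subst hiw
    have hm : (s, j) ∈ inArcs f i := mem_inArcs.2 ha
    rw [← heq] at hm
    simp only [Finset.mem_insert, Finset.mem_singleton, Prod.mk.injEq] at hm
    rcases hm with hm | hm
    · exact hm.1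
    · exact hm.1
  · have hn : i ∉ ({u, w} : Finset (Fin n)) := by simp [hi, hiw]
    exact (h.arc_copy hn ha).1

theorem case2_core {u w : Fin n} (h : NF f {u, w} p r) {B : Set (Cfg n)} (hns : NSPair f {fun _ => false} B)
    (hp : FixPair f B u w) (hd : indeg f u + indeg f w ≤ 6) : False := by
  obtain ⟨z, hz, hu, hw, hs⟩ := hp.visit true true (by simp)
  rcases hp.top hz hu hw hs with hf | hf
  · exact C2_aux h hns hp hd hz hu hw hs hf
  · rw [Finset.pair_comm] at h
    exact C2_aux h hns hp.symm (by omega) hz hw hu (fun k h1 h2 => hs k h2 h1) hf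

theorem case2 {u w : Fin n} (huw : u ≠ w) (h : NF f {u, w} p r) {A B : Set (Cfg n)} (hns : NSPair f A B)
    (hd : indeg f u + indeg f w ≤ 6) : False := by
  have hW : Feed f {u, w} := by
    refine h.feed (fun S hS hne hdis => ?_)
    obtain ⟨g, hg⟩ := hne
    exact absurd (hS hg) (Finset.disjoint_left.1 hdis hg)
  obtain ⟨f', B', h', hns', hi, ha⟩ := h.to_zero hns huw hW
  exact case2_core h' hns' (pair2 hns' huw (feed_congr ha hW)) (by rw [hi, hi]; exact hd)

end NSA
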