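import Pool.Agent.NSA.Defs
import Pool.Agent.NSA.FD1
import Pool.Agent.NSA.NF1
import Pool.Agent.NSA.NF2

set_option autoImplicit false

/-!
[NSA-CP] closest pairs.
`closest`: among all pairs `(x', y') ∈ A × B` with `{k | x' k ≠ y' k} ⊆ {k | x k ≠ y k}` take one with the smallest number of differences (`Nat.find` on the
cardinality, or strong induction).  If `x' k ≠ y' k` and `f x' k ≠ x' k` then `update x' k (!x' k) ∈ A` has fewer differences; same for `y'`.  There is a difference, since
otherwise `x' = y' ∈ A ∩ B` and `A = B` (`att_eq`).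
`cp_root`: `exists_agree` at `g` gives `x₀ ∈ A`, `y₀ ∈ B` with `x₀ g = y₀ g`; apply `closest`; then `x g = y g`.  Let `D = {k | x k ≠ y k}`, nonempty.  For `k ∈ D`:
`f x k = x k ≠ y k = f y k`, so by `exists_arc'` there is `j ∈ D` with `Arc f (x j == f x k) j k`, i.e. `Arc f (x j == x k) j k`.  By `closed_root` `r k ∈ D` for
`k ∈ D`; so some `k ∈ G` is in `D`.  For `j ∈ D`: `x j = x (r j)`: strong induction on the rank (`wf`): for `j ∉ G`: `x j = f x j = x (p j)` (`copy`), `p j ∈ D` (`y j = f y j = y (p j)`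
as well), `r j = r (p j)`.  So the arc has the sign `x (r j) == x k` and `x (r j) ≠ y (r j)`.
-/

open Relation NSep

namespace NSA

variable {n : ℕ} {f : Cfg n → Cfg n} {G : Finset (Fin n)} {p r : Fin n → Fin n}

theorem CP_bn : ∀ a b : Bool, a ≠ b → (!a) = b := by decide

theorem CP_bn' : ∀ a b : Bool, a ≠ b → a = (!b) := by decide

theorem closest {A B : Set (Cfg n)} (h : NSPair f A B) {x y : Cfg n} (hx : x ∈ A) (hy : y ∈ B) :
    ∃ x' ∈ A, ∃ y' ∈ B, (∀ k, x' k ≠ y' k → x k ≠ y k) ∧ (∃ k, x' k ≠ y' k) ∧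
      ∀ k, x' k ≠ y' k → f x' k = x' k ∧ f y' k = y' k := by
  classical
  have hex : ∃ d : ℕ, ∃ x' ∈ A, ∃ y' ∈ B, (∀ k, x' k ≠ y' k → x k ≠ y k) ∧
      (Finset.univ.filter (fun k => x' k ≠ y' k)).card = d :=
    ⟨_, x, hx, y, hy, fun k hk => hk, rfl⟩
  obtain ⟨x', hx', y', hy', hsub, hcard⟩ := Nat.find_spec hex
  have hmin : ∀ d, d < Nat.find hex → ¬ ∃ x' ∈ A, ∃ y' ∈ B, (∀ k, x' k ≠ y' k → x k ≠ y k) ∧
      (Finset.univ.filter (fun k => x' k ≠ y' k)).card = d := fun d hd => Nat.find_min hex hd
  refine ⟨x', hx', y', hy', hsub, ?_, ?_⟩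
  · by_contra hne
    push Not at hne
    have e : x' = y' := funext hne
    rw [← e] at hy'
    exact h.ne (att_eq h.hA h.hB hx' hy')
  · intro k hk
    constructor
    · by_contra hf
      have hm : Function.update x' k (!x' k) ∈ A := h.hA.2.1 x' hx' _ ⟨k, hf, rfl⟩
      have hk2 : (!x' k) = y' k := CP_bn _ _ hk
      have hset : Finset.univ.filter (fun l => Function.update x' k (!x' k) l ≠ y' l) =
          (Finset.univ.filter (fun l => x' l ≠ y' l)).erase k := by
        ext l
        by_cases hl : l = k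
        · subst hl
          simp [hk2]
        · simp [hl]
      refine hmin _ ?_ ⟨_, hm, y', hy', ?_, rfl⟩
      · rw [hset, ← hcard]
        exact Finset.card_erase_lt_of_mem (by simpa using hk)
      · intro l hl
        by_cases hlk : l = k
        · subst hlk
          exact hsub l hk
        · rw [Function.update_of_ne hlk] at hl
          exact hsub l hl
    · by_contra hf
      have hm : Function.update y' k (!y' k) ∈ B := h.hB.2.1 y' hy' _ ⟨k, hf, rfl⟩
      have hk2 : x' k = (!y' k) := CP_bn' _ _ hk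
      have hset : Finset.univ.filter (fun l => x' l ≠ Function.update y' k (!y' k) l) =
          (Finset.univ.filter (fun l => x' l ≠ y' l)).erase k := by
        ext l
        by_cases hl : l = k
        · subst hl
          simp [hk2]
        · simp [hl]
      refine hmin _ ?_ ⟨x', hx', _, hm, ?_, rfl⟩
      · rw [hset, ← hcard]
        exact Finset.card_erase_lt_of_mem (by simpa using hk)
      · intro l hl
        by_cases hlk : l = k
        · subst hlk
          exact hsub l hk
        · rw [Function.update_of_ne hlk] at hl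
          exact hsub l hl

theorem cp_root (h : NF f G p r) {A B : Set (Cfg n)} (hns : NSPair f A B) (g : Fin n) :
    ∃ x ∈ A, ∃ y ∈ B, x g = y g ∧ (∃ k ∈ G, x k ≠ y k) ∧
      ∀ k ∈ G, x k ≠ y k → ∃ j, Arc f (x (r j) == x k) j k ∧ x (r j) ≠ y (r j) := by
  classical
  obtain ⟨x₀, hx₀, y₀, hy₀, h₀⟩ := exists_agree hns g
  obtain ⟨x, hx, y, hy, hsub, hex, hfix⟩ := closest hns hx₀ hy₀
  have hback : ∀ k, x k ≠ y k → ∃ j, x j ≠ y j ∧ Arc f (x j == x k) j k := by
    intro k hk
    obtain ⟨h1, h2⟩ := hfix k hk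
    have h3 : f x k ≠ f y k := by rw [h1, h2]; exact hk
    obtain ⟨j, hj, ha⟩ := exists_arc' h3
    rw [h1] at ha
    exact ⟨j, hj, ha⟩
  have hroot : ∀ k ∈ Finset.univ.filter (fun k => x k ≠ y k),
      r k ∈ Finset.univ.filter (fun k => x k ≠ y k) := by
    refine h.closed_root _ ?_
    intro k hk _
    obtain ⟨j, hj, ha⟩ := hback k (by simpa using hk)
    exact ⟨j, by simpa using hj, _, ha⟩
  have hroot' : ∀ k, x k ≠ y k → x (r k) ≠ y (r k) := by
    intro k hk
    have := hroot k (by simpa using hk)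
    simpa using this
  have hval : ∀ j, x j ≠ y j → x j = x (r j) := by
    obtain ⟨rk, hrk⟩ := h.wf
    have key : ∀ t : ℕ, ∀ j, rk j = t → x j ≠ y j → x j = x (r j) := by
      intro t
      induction t using Nat.strong_induction_on with
      | _ t ih =>
        intro j hj hne
        by_cases hG : j ∈ G
        · rw [h.gate j hG]
        · obtain ⟨h1, h2⟩ := hfix j hne
          have h3 : x j = x (p j) := by rw [← h.copy j hG x]; exact h1.symm
          have h4 : y j = y (p j) := by rw [← h.copy j hG y]; exact h2.symm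
          have h5 : x (p j) ≠ y (p j) := by rw [← h3, ← h4]; exact hne
          have h6 := ih (rk (p j)) (by rw [← hj]; exact hrk j hG) (p j) rfl h5
          rw [h.step j hG, ← h6]
          exact h3
    intro j hj
    exact key _ j rfl hj
  refine ⟨x, hx, y, hy, ?_, ?_, ?_⟩
  · by_contra hg
    exact hsub g hg h₀
  · obtain ⟨k, hk⟩ := hex
    exact ⟨r k, h.mem k, hroot' k hk⟩
  · intro k _ hk
    obtain ⟨j, hj, ha⟩ := hback k hk
    refine ⟨j, ?_, hroot' j hj⟩
    rw [← hval j hj]
    exact ha

end NSA
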