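import Pool.Agent.NSA.Defs

set_option autoImplicit false

/-!
[NSA-G2] gates with exactly two in-arcs.
`gate2`: `inArcs f g = {(s1, j1), (s2, j2)}` (`Finset.card_eq_two`).  `f x g` depends only on `x j1, x j2` (`exists_arc'`).  If `j1 = j2 =: j` then
`s1 ≠ s2`, `f _ g` depends only on `x j`, and the two arcs give both `f = false` and `f = true` at `x j = false`: contradiction.  So `j1 ≠ j2`, and
`f x g = φ (x j1) (x j2)`, where `φ b c = f (update (update 0 j1 b) j2 c) g`.  There is no arc `(!s1, j1)` and no arc `(!s2, j2)`, i.e. `φ` is monotone in each literal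
(`l1 = (b == s1)`, `l2 = (c == s2)`) and depends on both: in the literals `ψ(l1, l2)` is monotone and depends on both variables, so
`ψ(0,0) = 0`, `ψ(1,1) = 1` and `ψ(0,1) = ψ(1,0)` (if `ψ(0,1) ≠ ψ(1,0)`, `ψ` would not depend on one of the variables): `ψ = and` or `ψ = or`.  Finish by cases
on the four values of `φ` and `s1, s2`.
`gate2z`: with `f 0 = 0`: `op = true`: `false = (false == s1) || (false == s2)` so `s1 = s2 = true`: kind `0`.  `op = false`: not both `s1, s2` are `false`: kinds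
`1` (`s1 = s2 = true`), `2` (`s2 = false`), `3` (`s1 = false`).
-/

open Relation NSep

namespace NSA

variable {n : ℕ} {f : Cfg n → Cfg n}

theorem G2_fin0 : ∀ (s1 s2 p00 p01 p10 p11 : Bool),
    ((p00 = !s1 ∧ p10 = s1) ∨ (p01 = !s1 ∧ p11 = s1)) →
    ((p00 = !s2 ∧ p01 = s2) ∨ (p10 = !s2 ∧ p11 = s2)) →
    ¬ (p00 = s1 ∧ p10 = !s1) → ¬ (p01 = s1 ∧ p11 = !s1) →
    ¬ (p00 = s2 ∧ p01 = !s2) → ¬ (p10 = s2 ∧ p11 = !s2) →
    ∃ op : Bool,
      (p00 = if op then (false == s1) || (false == s2) else (false == s1) && (false == s2)) ∧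
      (p01 = if op then (false == s1) || (true == s2) else (false == s1) && (true == s2)) ∧
      (p10 = if op then (true == s1) || (false == s2) else (true == s1) && (false == s2)) ∧
      (p11 = if op then (true == s1) || (true == s2) else (true == s1) && (true == s2)) := by
  decide

theorem G2_fin (s1 s2 : Bool) (φ : Bool → Bool → Bool)
    (h1 : ∃ c, φ false c = !s1 ∧ φ true c = s1) (h2 : ∃ b, φ b false = !s2 ∧ φ b true = s2)
    (h3 : ∀ c, ¬ (φ false c = s1 ∧ φ true c = !s1)) (h4 : ∀ b, ¬ (φ b false = s2 ∧ φ b true = !s2)) :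
    ∃ op : Bool, ∀ b c, φ b c = if op then (b == s1) || (c == s2) else (b == s1) && (c == s2) := by
  obtain ⟨op, e1, e2, e3, e4⟩ := G2_fin0 s1 s2 (φ false false) (φ false true) (φ true false)
    (φ true true) (by
      obtain ⟨c, hc⟩ := h1
      cases c
      · exact Or.inl hc
      · exact Or.inr hc) (by
      obtain ⟨c, hc⟩ := h2
      cases c
      · exact Or.inl hc
      · exact Or.inr hc) (h3 false) (h3 true) (h4 false) (h4 true)
  refine ⟨op, fun b c => ?_⟩
  cases b <;> cases c
  · exact e1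
  · exact e2
  · exact e3
  · exact e4

theorem G2_ev : ∀ (s1 s2 op : Bool),
    (if op then (false == s1) || (false == s2) else (false == s1) && (false == s2)) = false →
    ∃ k : Fin 4, s1 = decide (k ≠ 3) ∧ s2 = decide (k ≠ 2) ∧
      ∀ a b, (if op then (a == s1) || (b == s2) else (a == s1) && (b == s2)) = ev k a b := by
  decide

theorem gate2 {g : Fin n} (h2 : indeg f g = 2) : ∃ (j1 j2 : Fin n) (s1 s2 op : Bool), j1 ≠ j2 ∧
    (∀ s j, Arc f s j g ↔ (s = s1 ∧ j = j1) ∨ (s = s2 ∧ j = j2)) ∧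
    ∀ x, f x g = if op then (x j1 == s1) || (x j2 == s2) else (x j1 == s1) && (x j2 == s2) := by
  classical
  obtain ⟨t1, t2, hne, hset⟩ := Finset.card_eq_two.mp h2
  obtain ⟨s1, j1⟩ := t1
  obtain ⟨s2, j2⟩ := t2
  have harc : ∀ s j, Arc f s j g ↔ (s = s1 ∧ j = j1) ∨ (s = s2 ∧ j = j2) := by
    intro s j
    have h := @mem_inArcs n f g (s, j)
    rw [hset] at h
    rw [← h]
    simp
  have hdep : ∀ x y : Cfg n, x j1 = y j1 → x j2 = y j2 → f x g = f y g := by
    intro x y h1 h3
    by_contra h4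
    obtain ⟨j, hj, ha⟩ := exists_arc' h4
    rcases (harc _ _).1 ha with ⟨-, h5⟩ | ⟨-, h5⟩
    · rw [h5] at hj; exact hj h1
    · rw [h5] at hj; exact hj h3
  have hj : j1 ≠ j2 := by
    intro hj
    subst hj
    have hs : s1 ≠ s2 := fun h => hne (by rw [h])
    have ht : Arc f true j1 g ∧ Arc f false j1 g := by
      constructor
      · refine (harc _ _).2 ?_
        cases s1 <;> cases s2 <;> simp at hs ⊢
      · refine (harc _ _).2 ?_
        cases s1 <;> cases s2 <;> simp at hs ⊢
    obtain ⟨⟨x, y, -, hx, -, hfx, -⟩, ⟨x', y', -, hx', -, hfx', -⟩⟩ := ht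
    have h5 := hdep x x' (by rw [hx, hx']) (by rw [hx, hx'])
    rw [hfx, hfx'] at h5
    exact absurd h5 (by decide)
  set φ : Bool → Bool → Bool := fun b c =>
    f (Function.update (Function.update (fun _ => false) j1 b) j2 c) g with hφ
  have hfφ : ∀ x, f x g = φ (x j1) (x j2) := by
    intro x
    refine hdep _ _ ?_ ?_
    · rw [Function.update_of_ne hj, Function.update_self]
    · rw [Function.update_self]
  have a1 : ∃ c, φ false c = !s1 ∧ φ true c = s1 := by
    obtain ⟨x, y, hxy, hx, hy, hfx, hfy⟩ := (harc s1 j1).2 (Or.inl ⟨rfl, rfl⟩)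
    refine ⟨x j2, ?_, ?_⟩
    · rw [← hfx, hfφ x, hx]
    · rw [← hfy, hfφ y, hy, hxy j2 hj.symm]
  have a2 : ∃ b, φ b false = !s2 ∧ φ b true = s2 := by
    obtain ⟨x, y, hxy, hx, hy, hfx, hfy⟩ := (harc s2 j2).2 (Or.inr ⟨rfl, rfl⟩)
    refine ⟨x j1, ?_, ?_⟩
    · rw [← hfx, hfφ x, hx]
    · rw [← hfy, hfφ y, hy, hxy j1 hj]
  have a3 : ∀ c, ¬ (φ false c = s1 ∧ φ true c = !s1) := by
    rintro c ⟨h3, h4⟩
    have ha : Arc f (!s1) j1 g := by
      refine ⟨Function.update (Function.update (fun _ => false) j1 false) j2 c,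
        Function.update (Function.update (fun _ => false) j1 true) j2 c, ?_, ?_, ?_, ?_, ?_⟩
      · intro k hk
        by_cases hk2 : k = j2
        · subst hk2; rw [Function.update_self, Function.update_self]
        · rw [Function.update_of_ne hk2, Function.update_of_ne hk2, Function.update_of_ne hk,
            Function.update_of_ne hk]
      · rw [Function.update_of_ne hj, Function.update_self]
      · rw [Function.update_of_ne hj, Function.update_self]
      · rw [Bool.not_not]; exact h3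
      · exact h4
    rcases (harc _ _).1 ha with ⟨h5, -⟩ | ⟨-, h5⟩
    · exact absurd h5 (by cases s1 <;> decide)
    · exact hj h5
  have a4 : ∀ b, ¬ (φ b false = s2 ∧ φ b true = !s2) := by
    rintro b ⟨h3, h4⟩
    have ha : Arc f (!s2) j2 g := by
      refine ⟨Function.update (Function.update (fun _ => false) j1 b) j2 false,
        Function.update (Function.update (fun _ => false) j1 b) j2 true, ?_, ?_, ?_, ?_, ?_⟩
      · intro k hk
        rw [Function.update_of_ne hk, Function.update_of_ne hk]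
      · rw [Function.update_self]
      · rw [Function.update_self]
      · rw [Bool.not_not]; exact h3
      · exact h4
    rcases (harc _ _).1 ha with ⟨-, h5⟩ | ⟨h5, -⟩
    · exact hj h5.symm
    · exact absurd h5 (by cases s2 <;> decide)
  obtain ⟨op, hop⟩ := G2_fin s1 s2 φ a1 a2 a3 a4
  exact ⟨j1, j2, s1, s2, op, hj, harc, fun x => by rw [hfφ x, hop]⟩

theorem gate2z {g : Fin n} (h2 : indeg f g = 2) (h0 : f (fun _ => false) g = false) :
    ∃ (j1 j2 : Fin n) (k : Fin 4), j1 ≠ j2 ∧
    (∀ s j, Arc f s j g ↔ (s = decide (k ≠ 3) ∧ j = j1) ∨ (s = decide (k ≠ 2) ∧ j = j2)) ∧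
    ∀ x, f x g = ev k (x j1) (x j2) := by
  obtain ⟨j1, j2, s1, s2, op, hj, harc, hf⟩ := gate2 h2
  rw [hf] at h0
  obtain ⟨k, hk1, hk2, hk3⟩ := G2_ev s1 s2 op h0
  refine ⟨j1, j2, k, hj, ?_, ?_⟩
  · intro s j
    rw [← hk1, ← hk2]
    exact harc s j
  · intro x
    rw [hf x, hk3]

end NSA
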