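import Pool.Agent.NSA.Defs
import Pool.Agent.NSA.FD1
import Pool.Agent.NSA.NF1
import Pool.Agent.NSA.NF2
import Pool.Agent.NSA.CP
import Pool.Agent.NSA.G2

set_option autoImplicit false

/-!
[NSA-CG] a two-input gate `g` with a positive input whose root is `g` itself is constant in every attractor.
`gate2`: inputs `(s1, j1)`, `(s2, j2)`; WLOG `(true, j)` is the first one: `j1 = j`, `s1 = true` (both cases by the same argument).
`op = false`: `f x g = x j && (x j2 == s2)`.  `T = {x | ∀ k, r k = g → x k = false}` is a trap set: let `x ∈ T` and `Step` at `i`, `f x i ≠ x i`; if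
`r i ≠ g` the result is in `T`; if `r i = g`, `i ∉ G`: `f x i = x (p i) = false = x i` (`r (p i) = r i = g`), contradiction; if `i ∈ G`, `i = r i = g`: `f x g = false`, as
`x j = false` (`r j = g`), contradiction.  If some `x ∈ A` has `x g = false`, then `flat r x ∈ A ∩ T` (`flat_mem`; `flat r x k = x (r k)`), so `A ⊆ T` (`A ∩ T` is a nonempty
trap set contained in `A`, minimality), and `x g = false` on `A`.  Otherwise `x g = true` on `A`.
`op = true`: the same with `true`.
`const_gate_false`: with a closest pair: if `x, y` differ at `g` then the constants of `A` and `B` differ, contradiction to `exists_agree`.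
-/

open Relation NSep

namespace NSA

variable {n : ℕ} {f : Cfg n → Cfg n} {G : Finset (Fin n)} {p r : Fin n → Fin n}

theorem const_gate (h : NF f G p r) {g : Fin n} (hg : g ∈ G) (h2 : indeg f g = 2) {j : Fin n}
    (ha : Arc f true j g) (hj : r j = g) {A : Set (Cfg n)} (hA : IsAttractor f A) : ∃ c, ∀ x ∈ A, x g = c := by
  obtain ⟨j1, j2, s1, s2, op, hj12, harc, hf⟩ := gate2 h2
  have habs : ∀ x : Cfg n, x j = op → f x g = op := by
    intro x hx
    rw [hf x]
    rcases (harc _ _).1 ha with ⟨h3, h4⟩ | ⟨h3, h4⟩
    · subst h4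
      rw [← h3, hx]
      cases op <;> simp
    · subst h4
      rw [← h3, hx]
      cases op <;> simp
  set T : Set (Cfg n) := {x | ∀ k, r k = g → x k = op} with hT
  have hTt : IsTrap f T := by
    rintro x hx y ⟨i, hi, rfl⟩ k hk
    have hri : r i ≠ g := by
      intro hri
      apply hi
      have hxi : x i = op := hx i hri
      by_cases hiG : i ∈ G
      · have h3 : i = g := by rw [← h.gate i hiG]; exact hri
        subst h3
        rw [hxi]
        exact habs x (hx j hj)
      · rw [h.copy i hiG, hxi]
        exact hx (p i) (by rw [← h.step i hiG]; exact hri)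
    have hki : k ≠ i := by
      rintro rfl
      exact hri hk
    rw [Function.update_of_ne hki]
    exact hx k hk
  by_cases hex : ∃ x ∈ A, x g = op
  · obtain ⟨x, hx, hxg⟩ := hex
    have hm : flat r x ∈ A := h.flat_mem hA hx
    have hm' : flat r x ∈ T := by
      intro k hk
      show x (r k) = op
      rw [hk, hxg]
    have hAT : A ∩ T = A := by
      refine hA.2.2 _ ⟨_, hm, hm'⟩ ?_ Set.inter_subset_left
      intro z hz w hw
      exact ⟨hA.2.1 z hz.1 w hw, hTt z hz.2 w hw⟩
    refine ⟨op, fun z hz => ?_⟩
    rw [← hAT] at hz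
    exact hz.2 g (h.gate g hg)
  · push Not at hex
    refine ⟨!op, fun z hz => ?_⟩
    have := hex z hz
    revert this
    cases z g <;> cases op <;> simp

/-- in the situation of `cp_root` the in-arc at a two-input gate is not from its own root -/
theorem const_gate_false (h : NF f G p r) {g : Fin n} (hg : g ∈ G) (h2 : indeg f g = 2) {A B : Set (Cfg n)}
    (hns : NSPair f A B) {x y : Cfg n} (hx : x ∈ A) (hy : y ∈ B) (hxy : x g ≠ y g) {j : Fin n}
    (ha : Arc f (x (r j) == x g) j g) : r j ≠ g := by
  intro hj
  rw [hj, beq_self_eq_true] at ha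
  obtain ⟨c, hc⟩ := const_gate h hg h2 ha hj hns.hA
  obtain ⟨c', hc'⟩ := const_gate h hg h2 ha hj hns.hB
  obtain ⟨x₀, hx₀, y₀, hy₀, h₀⟩ := exists_agree hns g
  apply hxy
  rw [hc x hx, hc' y hy, ← hc x₀ hx₀, ← hc' y₀ hy₀, h₀]

end NSA
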