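import Pool.Agent.NSA.Defs
import Pool.Agent.NSA.FD3
import Pool.Agent.NSA.NF1
import Pool.Agent.NSA.NF2
import Pool.Agent.NSA.CP
import Pool.Agent.NSA.G2
import Pool.Agent.NSA.CG
import Pool.Agent.NSA.OH

set_option autoImplicit false

/-!
[NSA-C3A] three gates, two of them (`g2`, `g3`) with in-degree two.
`case3_root`: `cp_root` at `g1`: `x ∈ A`, `y ∈ B` equal at `g1`, different at some gate.  If they differ at `g2`: the in-arc of `g2` from `cp_root` has root `r j ∈ G` with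
`x (r j) ≠ y (r j)`, so `r j ≠ g1`, and `r j ≠ g2` by `const_gate_false`; so `r j = g3` and they differ at `g3`; then the same for `g3`: root `g2`.  Symmetric if they differ at `g3`.
-/


open Relation NSep

namespace NSA

variable {n : ℕ} {f : Cfg n → Cfg n} {G : Finset (Fin n)} {p r : Fin n → Fin n}

theorem C3A_step (h : NF f G p r) {g1 g g' : Fin n} (hG : ∀ k ∈ G, k = g1 ∨ k = g ∨ k = g')
    (hg : g ∈ G) (dg : indeg f g = 2) {A B : Set (Cfg n)} (hns : NSPair f A B) {x y : Cfg n}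
    (hx : x ∈ A) (hy : y ∈ B) (h1 : x g1 = y g1) (hxg : x g ≠ y g)
    (hall : ∀ k ∈ G, x k ≠ y k → ∃ j, Arc f (x (r j) == x k) j k ∧ x (r j) ≠ y (r j)) :
    (∃ s j, Arc f s j g ∧ r j = g') ∧ x g' ≠ y g' := by
  obtain ⟨j, ha, hj⟩ := hall g hg hxg
  rcases hG (r j) (h.mem j) with h3 | h3 | h3
  · rw [h3] at hj
    exact absurd h1 hj
  · exact absurd h3 (const_gate_false h hg dg hns hx hy hxg ha)
  · refine ⟨⟨_, j, ha, h3⟩, ?_⟩
    rw [h3] at hj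
    exact hj

theorem case3_root (h : NF f G p r) {g1 g2 g3 : Fin n} (hG : G = {g1, g2, g3}) (h12 : g1 ≠ g2) (h13 : g1 ≠ g3)
    (h23 : g2 ≠ g3) (d2 : indeg f g2 = 2) (d3 : indeg f g3 = 2) {A B : Set (Cfg n)} (hns : NSPair f A B) :
    (∃ s j, Arc f s j g2 ∧ r j = g3) ∧ ∃ s j, Arc f s j g3 ∧ r j = g2 := by
  have hG' : ∀ k, k ∈ G ↔ k = g1 ∨ k = g2 ∨ k = g3 := by
    intro k
    rw [hG]
    simp
  obtain ⟨x, hx, y, hy, hxy, ⟨k, hkG, hk⟩, hall⟩ := cp_root h hns g1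
  have m2 : g2 ∈ G := (hG' g2).2 (Or.inr (Or.inl rfl))
  have m3 : g3 ∈ G := (hG' g3).2 (Or.inr (Or.inr rfl))
  have hG2 : ∀ k ∈ G, k = g1 ∨ k = g2 ∨ k = g3 := fun k hk => (hG' k).1 hk
  have hG3 : ∀ k ∈ G, k = g1 ∨ k = g3 ∨ k = g2 := fun k hk => by
    rcases (hG' k).1 hk with h4 | h4 | h4
    · exact Or.inl h4
    · exact Or.inr (Or.inr h4)
    · exact Or.inr (Or.inl h4)
  rcases hG2 k hkG with h4 | h4 | h4
  · rw [h4] at hk
    exact absurd hxy hk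
  · rw [h4] at hk
    obtain ⟨a1, a2⟩ := C3A_step h hG2 m2 d2 hns hx hy hxy hk hall
    obtain ⟨a3, -⟩ := C3A_step h hG3 m3 d3 hns hx hy hxy a2 hall
    exact ⟨a1, a3⟩
  · rw [h4] at hk
    obtain ⟨a1, a2⟩ := C3A_step h hG3 m3 d3 hns hx hy hxy hk hall
    obtain ⟨a3, -⟩ := C3A_step h hG2 m2 d2 hns hx hy hxy a2 hall
    exact ⟨a3, a1⟩

end NSA
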