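import Pool.Agent.NSA.Defs
import Pool.Agent.NSA.FD3
import Pool.Agent.NSA.NF1
import Pool.Agent.NSA.NF2
import Pool.Agent.NSA.CP
import Pool.Agent.NSA.G2
import Pool.Agent.NSA.CG
import Pool.Agent.NSA.OH

set_option autoImplicit false

/-!
[NSA-C3B] three gates, the core.
`case3_core` (fixed point `0`, `A = {0}`): `gate2z` for `g2` and `g3`: inputs `j1, j2` of `g2` have the roots `g1` and `g3` (in some order; these are all in-arcs), inputs of
`g3`: one has root `g2`, the other a root `c ∈ {g1, g2, g3}`.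
`Feed f {g1, g3}` (`NF.feed`: a nonempty `S ⊆ G` disjoint from it is `{g2}`, and no input of `g2` has root `g2`), so `FixPair f B g1 g3` (`pair2`).
Case `c = g3`.  If the input of `g3` with root `g3` is positive, `const_gate` makes `g3` constant in `B`, but `B` visits both values (`visit`).  So it is negative: kind `2` or `3`, and
`f x g3 = false` whenever this input is `true`.  `z ∈ B` with `z g1 = false`, `z g3 = true`, settled (`visit`): `flat r z = z` needs settled outside `G`: fine.
So the input is `z g3 = true`, `f z g3 = false`, but `lo` says `f z g3 = true`.  Contradiction.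
Case `c ∈ {g1, g2}`: also `Feed f {g1, g2}` (no input of `g3` has root `g3`), so `FixPair f B g1 g2`.
Let `z` be the settled member of `B` with `(g1, g2) = (false, true)`; `z g3 = true` by `lo` for `(g1, g3)`; `f z g2 = true` (`lo`), `f z g3 = z g3 = true`.
Let `z'` be the settled member with `(g1, g2) = (true, false)`: `f z' g2 = true` (`up` for `FixPair f B g2 g1`).  `g2` has kind `0` or `1`: let `k` be its kind, input `a` with root `g1`, input `b`
with root `g3`: at `z` `(a, b) = (false, true)` gives `true`, so if the kind is not `0` it is `!a && b`; but at `z'` `a = true` and the value is `true`, contradiction.  So kind `0`: all in-arcs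
of `g2` are positive.
`g3`: if `c = g1`: the same argument with `g3` in the role of `g2` (`FixPair f B g1 g3`, `z` has `(g1, g3) = (false, true)`, `z g2 = true`).  If `c = g2`: at `z` both inputs of `g3` are
`z g2 = true` and `f z g3 = true`: kinds `2, 3` are impossible, so all in-arcs of `g3` are positive.  All in-arcs outside `G` are positive (`arc_copy`): `one_head` at `g1`.
-/


open Relation NSep

namespace NSA

variable {n : ℕ} {f : Cfg n → Cfg n} {G : Finset (Fin n)} {p r : Fin n → Fin n}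

theorem C3B_swap : ∀ k : Fin 4, ∃ k' : Fin 4, decide (k' ≠ 3) = decide (k ≠ 2) ∧
    decide (k' ≠ 2) = decide (k ≠ 3) ∧ ∀ a b, ev k' a b = ev k b a := by
  decide

theorem C3B_gate {g : Fin n} (h2 : indeg f g = 2) (h0 : f (fun _ => false) g = false) {s : Bool}
    {j : Fin n} (ha : Arc f s j g) : ∃ (j' : Fin n) (k : Fin 4), j ≠ j' ∧
      (∀ t i, Arc f t i g ↔ (t = decide (k ≠ 3) ∧ i = j) ∨ (t = decide (k ≠ 2) ∧ i = j')) ∧
      ∀ x, f x g = ev k (x j) (x j') := by
  obtain ⟨j1, j2, k, hj, harc, hf⟩ := gate2z h2 h0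
  rcases (harc _ _).1 ha with ⟨-, e1⟩ | ⟨-, e1⟩
  · subst e1
    exact ⟨j2, k, hj, harc, hf⟩
  · subst e1
    obtain ⟨k', h1, h3, h4⟩ := C3B_swap k
    refine ⟨j1, k', hj.symm, ?_, ?_⟩
    · intro t i
      rw [h1, h3, harc t i]
      exact or_comm
    · intro x
      rw [hf x, h4]

theorem C3B_k0 : ∀ k : Fin 4, ∀ b : Bool, ev k false true = true → ev k true b = true → k = 0 := by
  decide

theorem C3B_k0' : ∀ k : Fin 4, ∀ b : Bool, ev k true false = true → ev k b true = true →
    decide (k ≠ 3) = true ∧ decide (k ≠ 2) = true := by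
  decide

theorem C3B_k1 : ∀ k : Fin 4, ev k true true = true →
    decide (k ≠ 3) = true ∧ decide (k ≠ 2) = true := by
  decide

theorem C3B_feed (h : NF f G p r) {u w g : Fin n} (hG : ∀ k ∈ G, k = u ∨ k = w ∨ k = g)
    (hg : ∀ s j, Arc f s j g → r j ≠ g) : Feed f {u, w} := by
  refine h.feed ?_
  intro S hS hne hd
  have hS2 : ∀ k ∈ S, k = g := by
    intro k hk
    have h1 := hG k (hS hk)
    have h2 := Finset.disjoint_left.1 hd hk
    simp only [Finset.mem_insert, Finset.mem_singleton, not_or] at h2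
    rcases h1 with h3 | h3 | h3
    · exact absurd h3 h2.1
    · exact absurd h3 h2.2
    · exact h3
  obtain ⟨k, hk⟩ := hne
  have hk2 := hS2 k hk
  subst hk2
  refine ⟨k, hk, ?_⟩
  intro j s ha hmem
  exact hg s j ha (hS2 _ hmem)

theorem case3_core (h : NF f G p r) {g1 g2 g3 : Fin n} (hG : G = {g1, g2, g3}) (h12 : g1 ≠ g2) (h13 : g1 ≠ g3)
    (h23 : g2 ≠ g3) (d2 : indeg f g2 = 2) (d3 : indeg f g3 = 2) {B : Set (Cfg n)}
    (hns : NSPair f {fun _ => false} B) (h21 : ∃ s j, Arc f s j g2 ∧ r j = g1)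
    (h23' : ∃ s j, Arc f s j g2 ∧ r j = g3) (h32 : ∃ s j, Arc f s j g3 ∧ r j = g2) : False := by
  have hfix : f (fun _ => false) = fun _ => false := fix_of_single hns.hA
  have h0 : ∀ g, f (fun _ => false) g = false := fun g => by rw [hfix]
  have hGm : ∀ k, k ∈ G ↔ k = g1 ∨ k = g2 ∨ k = g3 := by
    intro k
    rw [hG]
    simp
  have m3 : g3 ∈ G := (hGm g3).2 (Or.inr (Or.inr rfl))
  -- the gate `g2`
  obtain ⟨s1, a, ha, hra⟩ := h21
  obtain ⟨b, k, hab, harc2, hf2⟩ := C3B_gate d2 (h0 g2) ha
  have hrb : r b = g3 := by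
    obtain ⟨s3, b', hb', hrb'⟩ := h23'
    rcases (harc2 _ _).1 hb' with ⟨-, e⟩ | ⟨-, e⟩
    · rw [e, hra] at hrb'
      exact absurd hrb' h13
    · rw [← e]
      exact hrb'
  -- the gate `g3`
  obtain ⟨s2, j, hj, hrj⟩ := h32
  obtain ⟨j', k', hjj, harc3, hf3⟩ := C3B_gate d3 (h0 g3) hj
  have hfeed13 : Feed f {g1, g3} := by
    refine C3B_feed h (u := g1) (w := g3) (g := g2) ?_ ?_
    · intro k hk
      rcases (hGm k).1 hk with h4 | h4 | h4
      · exact Or.inl h4
      · exact Or.inr (Or.inr h4)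
      · exact Or.inr (Or.inl h4)
    · intro s i hi
      rcases (harc2 _ _).1 hi with ⟨-, e⟩ | ⟨-, e⟩
      · rw [e, hra]; exact h12
      · rw [e, hrb]; exact h23.symm
  have hp13 : FixPair f B g1 g3 := pair2 hns h13 hfeed13
  have hflat : ∀ z : Cfg n, ∀ u w : Fin n, u ∈ G → w ∈ G → (∀ k, k ≠ u → k ≠ w → f z k = z k) →
      ∀ i, z i = z (r i) := by
    intro z u w hu hw hs i
    have := h.flat_of_settled (z := z) (fun k hk => hs k (fun e => hk (e ▸ hu)) (fun e => hk (e ▸ hw)))
    exact (congrFun this i).symm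
  have m1 : g1 ∈ G := (hGm g1).2 (Or.inl rfl)
  have m2 : g2 ∈ G := (hGm g2).2 (Or.inr (Or.inl rfl))
  by_cases hc : r j' = g3
  · by_cases hk2 : decide (k' ≠ 2) = true
    · have hpos : Arc f true j' g3 := (harc3 _ _).2 (Or.inr ⟨hk2.symm, rfl⟩)
      obtain ⟨c, hcc⟩ := const_gate h m3 d3 hpos hc hns.hB
      obtain ⟨z, hz, -, hz3, -⟩ := hp13.visit true true (by simp)
      obtain ⟨z', hz', -, hz3', -⟩ := hp13.visit true false (by simp)
      have e1 := hcc z hz
      have e2 := hcc z' hz'
      rw [hz3] at e1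
      rw [hz3', ← e1] at e2
      exact absurd e2 (by decide)
    · have hk3 : k' = 2 := by simpa using hk2
      obtain ⟨z, hz, hz1, hz3, hs⟩ := hp13.visit false true (by simp)
      have e1 := (hp13.lo hz hz1).2
      rw [hf3 z, hk3] at e1
      have e2 : z j' = true := by
        rw [hflat z g1 g3 m1 m3 hs j', hc, hz3]
      rw [e2] at e1
      revert e1
      cases z j <;> simp [ev]
  · have hfeed12 : Feed f {g1, g2} := by
      refine C3B_feed h (u := g1) (w := g2) (g := g3) ?_ ?_
      · intro k hk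
        exact (hGm k).1 hk
      · intro s i hi
        rcases (harc3 _ _).1 hi with ⟨-, e⟩ | ⟨-, e⟩
        · rw [e, hrj]; exact h23
        · rw [e]; exact hc
    have hp12 : FixPair f B g1 g2 := pair2 hns h12 hfeed12
    obtain ⟨z, hz, hz1, hz2, hs⟩ := hp12.visit false true (by simp)
    have hz3 := hp13.lo hz hz1
    have hfz2 := (hp12.lo hz hz1).2
    obtain ⟨z', hz', hz1', hz2', hs'⟩ := hp12.visit true false (by simp)
    have hfz2' := hp12.symm.up hz' hz2' (fun i h1 h2 => hs' i h2 h1)
    have hk : k = 0 := by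
      refine C3B_k0 k (z' b) ?_ ?_
      · rw [hf2 z, hflat z g1 g2 m1 m2 hs a, hra, hz1, hflat z g1 g2 m1 m2 hs b, hrb, hz3.1] at hfz2
        exact hfz2
      · rw [hf2 z', hflat z' g1 g2 m1 m2 hs' a, hra, hz1'] at hfz2'
        exact hfz2'
    have hpos3 : decide (k' ≠ 3) = true ∧ decide (k' ≠ 2) = true := by
      have hf3z := hz3.2
      rw [hf3 z, hflat z g1 g2 m1 m2 hs j, hrj, hz2] at hf3z
      rcases (hGm (r j')).1 (h.mem j') with hc1 | hc2 | hc3
      · rw [hflat z g1 g2 m1 m2 hs j', hc1, hz1] at hf3z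
        obtain ⟨z'', hz'', hz1'', hz3'', hs''⟩ := hp13.visit true false (by simp)
        have hfz3'' := hp13.symm.up hz'' hz3'' (fun i h1 h2 => hs'' i h2 h1)
        rw [hf3 z'', hflat z'' g1 g3 m1 m3 hs'' j', hc1, hz1''] at hfz3''
        exact C3B_k0' k' _ hf3z hfz3''
      · rw [hflat z g1 g2 m1 m2 hs j', hc2, hz2] at hf3z
        exact C3B_k1 k' hf3z
      · exact absurd hc3 hc
    refine one_head hns g1 ?_
    intro s i t ht harc
    by_cases htG : t ∈ G
    · rcases (hGm t).1 htG with e | e | e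
      · exact absurd e ht
      · subst e
        rcases (harc2 _ _).1 harc with ⟨e1, -⟩ | ⟨e1, -⟩
        · rw [e1, hk]; decide
        · rw [e1, hk]; decide
      · subst e
        rcases (harc3 _ _).1 harc with ⟨e1, -⟩ | ⟨e1, -⟩
        · rw [e1]; exact hpos3.1
        · rw [e1]; exact hpos3.2
    · exact (h.arc_copy htG harc).1

end NSA
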