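import Pool.Agent.NSA.Defs
import Pool.Agent.NSA.FD3
import Pool.Agent.NSA.NF1
import Pool.Agent.NSA.NF2
import Pool.Agent.NSA.CP
import Pool.Agent.NSA.G2
import Pool.Agent.NSA.CG
import Pool.Agent.NSA.OH
import Pool.Agent.NSA.C3A
import Pool.Agent.NSA.C3B

set_option autoImplicit false

/-!
[NSA-C3] three gates.
`case3`: `case3_root`; `conn` for `S = {g2, g3}`: an input of `g2` or `g3` has root `g1`; by symmetry of `g2, g3` let it be `g2`.  Then the in-arcs of `g2` have the roots `g1, g3` (in-degree 2), so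
`Feed f {g1, g3}`; `to_zero` and `case3_core` (the hypotheses on arcs are transported by the last item of `to_zero`).
-/


open Relation NSep

namespace NSA

variable {n : ℕ} {f : Cfg n → Cfg n} {G : Finset (Fin n)} {p r : Fin n → Fin n}

/-- a two-input gate with two arcs of different roots has no others -/
theorem C3_two {g : Fin n} (h2 : indeg f g = 2) {s s' : Bool} {j j' : Fin n} (ha : Arc f s j g)
    (ha' : Arc f s' j' g) (hj : j ≠ j') {t : Bool} {k : Fin n} (hk : Arc f t k g) : k = j ∨ k = j' := by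
  obtain ⟨j1, j2, s1, s2, op, hj12, harc, hf⟩ := gate2 h2
  rcases (harc _ _).1 ha with ⟨-, e1⟩ | ⟨-, e1⟩ <;> rcases (harc _ _).1 ha' with ⟨-, e2⟩ | ⟨-, e2⟩ <;>
    rcases (harc _ _).1 hk with ⟨-, e3⟩ | ⟨-, e3⟩
  · exact Or.inl (by rw [e3, e1])
  · exact absurd (by rw [e1, e2]) hj
  · exact Or.inl (by rw [e3, e1])
  · exact Or.inr (by rw [e3, e2])
  · exact Or.inr (by rw [e3, e2])
  · exact Or.inl (by rw [e3, e1])
  · exact absurd (by rw [e1, e2]) hj
  · exact Or.inl (by rw [e3, e1])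

theorem C3_aux (h : NF f G p r) {g1 g2 g3 : Fin n} (hG : G = {g1, g2, g3}) (h12 : g1 ≠ g2) (h13 : g1 ≠ g3)
    (h23 : g2 ≠ g3) (d2 : indeg f g2 = 2) (d3 : indeg f g3 = 2) {A B : Set (Cfg n)} (hns : NSPair f A B)
    (h21 : ∃ s j, Arc f s j g2 ∧ r j = g1) (h23' : ∃ s j, Arc f s j g2 ∧ r j = g3)
    (h32 : ∃ s j, Arc f s j g3 ∧ r j = g2) : False := by
  have hfeed : Feed f {g1, g3} := by
    refine h.feed ?_
    intro S hS hne hd
    have hS2 : ∀ k ∈ S, k = g2 := by
      intro k hk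
      have h1 := hS hk
      rw [hG] at h1
      simp only [Finset.mem_insert, Finset.mem_singleton] at h1
      have h2 := Finset.disjoint_left.1 hd hk
      simp only [Finset.mem_insert, Finset.mem_singleton, not_or] at h2
      rcases h1 with h3 | h3 | h3
      · exact absurd h3 h2.1
      · exact h3
      · exact absurd h3 h2.2
    obtain ⟨k, hk⟩ := hne
    have hk2 := hS2 k hk
    subst hk2
    refine ⟨k, hk, ?_⟩
    intro j s ha hmem
    have hrj := hS2 _ hmem
    obtain ⟨s1, j1, a1, r1⟩ := h21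
    obtain ⟨s3, j3, a3, r3⟩ := h23'
    have hne13 : j1 ≠ j3 := by
      rintro rfl
      rw [r1] at r3
      exact h13 r3
    rcases C3_two d2 a1 a3 hne13 ha with h4 | h4
    · rw [h4, r1] at hrj
      exact h12 hrj
    · rw [h4, r3] at hrj
      exact h23 hrj.symm
  obtain ⟨f', B', hnf, hns', hdeg, harc⟩ := h.to_zero hns h13 hfeed
  refine case3_core hnf hG h12 h13 h23 (by rw [hdeg, d2]) (by rw [hdeg, d3]) hns' ?_ ?_ ?_
  · obtain ⟨s, j, ha, hr⟩ := h21
    obtain ⟨t, ht⟩ := (harc j g2).2 ⟨s, ha⟩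
    exact ⟨t, j, ht, hr⟩
  · obtain ⟨s, j, ha, hr⟩ := h23'
    obtain ⟨t, ht⟩ := (harc j g2).2 ⟨s, ha⟩
    exact ⟨t, j, ht, hr⟩
  · obtain ⟨s, j, ha, hr⟩ := h32
    obtain ⟨t, ht⟩ := (harc j g3).2 ⟨s, ha⟩
    exact ⟨t, j, ht, hr⟩

theorem case3 (h : NF f G p r) {g1 g2 g3 : Fin n} (hG : G = {g1, g2, g3}) (h12 : g1 ≠ g2) (h13 : g1 ≠ g3)
    (h23 : g2 ≠ g3) (d2 : indeg f g2 = 2) (d3 : indeg f g3 = 2) {A B : Set (Cfg n)} (hns : NSPair f A B) :
    False := by
  obtain ⟨a23, a32⟩ := case3_root h hG h12 h13 h23 d2 d3 hns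
  have hS : ({g2, g3} : Finset (Fin n)) ⊆ G := by
    rw [hG]
    intro k hk
    simp only [Finset.mem_insert, Finset.mem_singleton] at hk ⊢
    exact Or.inr hk
  have hSne : ({g2, g3} : Finset (Fin n)).Nonempty := ⟨g2, by simp⟩
  have hSG : ({g2, g3} : Finset (Fin n)) ≠ G := by
    intro e
    have h1 : g1 ∈ ({g2, g3} : Finset (Fin n)) := by rw [e, hG]; simp
    simp only [Finset.mem_insert, Finset.mem_singleton] at h1
    rcases h1 with h2 | h2
    · exact h12 h2
    · exact h13 h2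
  obtain ⟨g, hg, j, s, ha, hr⟩ := h.conn _ hS hSne hSG
  have hrj : r j = g1 := by
    have h1 := h.mem j
    rw [hG] at h1
    simp only [Finset.mem_insert, Finset.mem_singleton] at h1 hr
    rcases h1 with h2 | h2
    · exact h2
    · exact absurd h2 hr
  simp only [Finset.mem_insert, Finset.mem_singleton] at hg
  rcases hg with hg | hg
  · subst hg
    exact C3_aux h hG h12 h13 h23 d2 d3 hns ⟨s, j, ha, hrj⟩ a23 a32
  · subst hg
    refine C3_aux h ?_ h13 h12 h23.symm d3 d2 hns ⟨s, j, ha, hrj⟩ a32 a23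
    rw [hG]
    congr 1
    exact Finset.pair_comm _ _

end NSA
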