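import Pool.Agent.NSA.Defs

set_option autoImplicit false

/-!
[NSA-F4] finite checks (done by `decide +kernel`; complete).
-/

namespace NSA

/-- values of the four gates `u, w, v, v'` -/
def vals (q1 q2 x y : Bool) : Fin 4 → Bool
  | 0 => q1
  | 1 => q2
  | 2 => x
  | 3 => y

/-- gate data: roots of the two inputs and kind -/
def G4 : List (Fin 4 × Fin 4 × Fin 4) :=
  (List.finRange 4).flatMap fun a => (List.finRange 4).flatMap fun b => (List.finRange 4).map fun k => (a, b, k)

def BB : List (Bool × Bool) := [(false, false), (false, true), (true, false), (true, true)]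

def evv (t : Fin 4 × Fin 4 × Fin 4) (v : Fin 4 → Bool) : Bool := ev t.2.2 (v t.1) (v t.2.1)

theorem mem_G4 (t : Fin 4 × Fin 4 × Fin 4) : t ∈ G4 := by
  obtain ⟨a, b, k⟩ := t
  simp [G4, List.mem_flatMap]

theorem mem_BB (t : Bool × Bool) : t ∈ BB := by
  obtain ⟨_ | _, _ | _⟩ := t <;> simp [BB]

def chk4A : Bool :=
  G4.all fun t2 => (t2.1 == 2 || t2.2.1 == 2) || G4.all fun t3 => (t3.1 == 3 || t3.2.1 == 3) ||
    ((t2.1 == 3 || t2.2.1 == 3) && (t3.1 == 2 || t3.2.1 == 2)) ||
    BB.all fun c1 => !(c1.1 == evv t2 (vals false true c1.1 c1.2) && c1.2 == evv t3 (vals false true c1.1 c1.2)) ||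
    BB.all fun c2 => !(c2.1 == evv t2 (vals true false c2.1 c2.2) && c2.2 == evv t3 (vals true false c2.1 c2.2)) ||
    BB.all fun c3 => !(c3.1 == evv t2 (vals true true c3.1 c3.2) && c3.2 == evv t3 (vals true true c3.1 c3.2)) ||
    G4.all fun t0 => !(evv t0 (vals false true c1.1 c1.2) && evv t0 (vals true false c2.1 c2.2) &&
      !evv t0 (vals true true c3.1 c3.2)) ||
    G4.all fun t1 => !(evv t1 (vals false true c1.1 c1.2) && evv t1 (vals true false c2.1 c2.2) &&
      evv t1 (vals false true c3.1 c3.2)) ||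
      (t1.1 == 1 && !(t1.2.2 == 3)) || (t1.2.1 == 1 && !(t1.2.2 == 2)) ||
      (decide (t1.2.2.val < 2) && decide (t2.2.2.val < 2) && decide (t3.2.2.val < 2))

set_option maxRecDepth 100000 in
theorem chk4A_true : chk4A = true := by decide +kernel

/-- `t0, t1, t2, t3`: data of the gates `u, w, v, v'`; `c1, c2, c3`: values of `(v, v')` in the settled
configurations with `(u, w) = (0,1), (1,0), (1,1)`. -/
theorem fin4A (t0 t1 t2 t3 : Fin 4 × Fin 4 × Fin 4) (c1 c2 c3 : Bool × Bool)
    (n2 : t2.1 ≠ 2 ∧ t2.2.1 ≠ 2) (n3 : t3.1 ≠ 3 ∧ t3.2.1 ≠ 3)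
    (n23 : ¬ ((t2.1 = 3 ∨ t2.2.1 = 3) ∧ (t3.1 = 2 ∨ t3.2.1 = 2)))
    (e1 : c1.1 = evv t2 (vals false true c1.1 c1.2) ∧ c1.2 = evv t3 (vals false true c1.1 c1.2))
    (e2 : c2.1 = evv t2 (vals true false c2.1 c2.2) ∧ c2.2 = evv t3 (vals true false c2.1 c2.2))
    (e3 : c3.1 = evv t2 (vals true true c3.1 c3.2) ∧ c3.2 = evv t3 (vals true true c3.1 c3.2))
    (u1 : evv t0 (vals false true c1.1 c1.2) = true) (u2 : evv t0 (vals true false c2.1 c2.2) = true)
    (u3 : evv t0 (vals true true c3.1 c3.2) = false) (w1 : evv t1 (vals false true c1.1 c1.2) = true)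
    (w2 : evv t1 (vals true false c2.1 c2.2) = true) (w3 : evv t1 (vals false true c3.1 c3.2) = true)
    (s1 : ¬ (t1.1 = 1 ∧ t1.2.2 ≠ 3)) (s2 : ¬ (t1.2.1 = 1 ∧ t1.2.2 ≠ 2)) :
    t1.2.2.val < 2 ∧ t2.2.2.val < 2 ∧ t3.2.2.val < 2 := by
  have h := chk4A_true
  unfold chk4A at h
  rw [List.all_eq_true] at h
  have h := h t2 (mem_G4 _)
  simp only [Bool.or_eq_true, Bool.and_eq_true, beq_iff_eq, List.all_eq_true, Bool.not_eq_true', Bool.and_eq_false_imp,
    decide_eq_true_eq] at h
  rcases h with h | h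
  · rcases h with h | h
    · exact absurd h n2.1
    · exact absurd h n2.2
  rcases h t3 (mem_G4 _) with h | h
  · rcases h with h | h
    · rcases h with h | h
      · exact absurd h n3.1
      · exact absurd h n3.2
    · exact absurd h n23
  rcases h c1 (mem_BB _) with h | h
  · have h1 := h e1.1
    rw [← e1.2] at h1
    simp at h1
  rcases h c2 (mem_BB _) with h | h
  · have h1 := h e2.1
    rw [← e2.2] at h1
    simp at h1
  rcases h c3 (mem_BB _) with h | h
  · have h1 := h e3.1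
    rw [← e3.2] at h1
    simp at h1
  rcases h t0 (mem_G4 _) with h | h
  · have h1 := h ⟨u1, u2⟩
    rw [u3] at h1
    simp at h1
  rcases h t1 (mem_G4 _) with h | h
  · rcases h with h | h
    · rcases h with h | h
      · have h1 := h ⟨w1, w2⟩
        rw [w3] at h1
        simp at h1
      · exact absurd ⟨h.1, by
          intro h2
          have h3 := h.2
          rw [h2] at h3
          simp at h3⟩ s1
    · exact absurd ⟨h.1, by
        intro h2
        have h3 := h.2
        rw [h2] at h3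
        simp at h3⟩ s2
  · exact ⟨h.1.1, h.1.2, h.2⟩

end NSA
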