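import Pool.Agent.NSA.Defs
import Pool.Agent.NSA.FD3
import Pool.Agent.NSA.NF1
import Pool.Agent.NSA.NF2
import Pool.Agent.NSA.G2
import Pool.Agent.NSA.CG
import Pool.Agent.NSA.OH
import Pool.Agent.NSA.F4

set_option autoImplicit false

/-!
[NSA-C4A] four gates with in-degree two, two of them (`u, w`) meeting all cycles.
`idx`: index of a gate in the list `u, w, v, v'`.  `val_idx`: for `g ∈ G`: `z g = vals (z u) (z w) (z v) (z v') (idx g)`.
`core4A`: `gate2z` gives for every gate `g` the data `t_g = (idx (r j1), idx (r j2), k)`; for every configuration with `flat r z = z`: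
`f z g = evv t_g (vals (z u) (z w) (z v) (z v'))` (`z j = z (r j)`, `val_idx`).  Let `z01, z10 ∈ B` be the settled members (`visit`; settled outside `u, w`, so `flat r z = z` by
`flat_of_settled`) and `z11 = z`.  `e1, e2, e3` of `fin4A`: `f z v = z v`, `f z v' = z v'`.  `u1, u2, w1, w2`: `lo`, `up` (and `symm`).  `u3`: `hf`.
`w3`: `f z11 u = false ≠ z11 u`, so by `gstep` `y = flat r (update z11 u (!z11 u)) ∈ B`; `y u = false`, `y w = true`, `y v = z11 v`, `y v' = z11 v'`, and `f y w = true` by `lo`.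
`n2, n3, n23`: `feed_inv` with `S = {v}`, `{v'}`, `{v, v'}` (`W = {u, w} ⊆ G`).  `s1, s2`: otherwise `w` has a positive in-arc with root `w`; `const_gate` makes
`w` constant on `B`, but `visit` gives both values.  `fin4A` says that the kinds of `w, v, v'` are `< 2`, so by `gate2z` all their in-arcs are positive; so are those outside
`G` (`arc_copy`); `one_head` at `u`.
`case4A`: `to_zero` (`hW`), `pair2` with `feed_congr`; `z ∈ B` settled with values `(true, true)`; `top`; in the second case exchange `u` and `w`.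
-/

open Relation NSep

namespace NSA

variable {n : ℕ} {f : Cfg n → Cfg n} {G : Finset (Fin n)} {p r : Fin n → Fin n}

/-- index of a gate in the list `u, w, v, v'` -/
def idx (u w v : Fin n) (g : Fin n) : Fin 4 := if g = u then 0 else if g = w then 1 else if g = v then 2 else 3

theorem val_idx {u w v v' : Fin n} {g : Fin n} (hg : g = u ∨ g = w ∨ g = v ∨ g = v') (z : Cfg n) :
    z g = vals (z u) (z w) (z v) (z v') (idx u w v g) := by
  unfold idx
  split_ifs with h1 h2 h3
  · rw [h1]; rfl
  · rw [h2]; rfl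
  · rw [h3]; rfl
  · rcases hg with e | e | e | e
    · exact absurd e h1
    · exact absurd e h2
    · exact absurd e h3
    · rw [e]; rfl

private theorem C4A_idx1 {u w v g : Fin n} (h : idx u w v g = 1) : g = w := by
  unfold idx at h
  split_ifs at h with h1 h2 h3
  · exact absurd h (by decide)
  · exact h2
  · exact absurd h (by decide)
  · exact absurd h (by decide)

private theorem C4A_idx2 {u w v g : Fin n} (h : idx u w v g = 2) : g = v := by
  unfold idx at h
  split_ifs at h with h1 h2 h3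
  · exact absurd h (by decide)
  · exact absurd h (by decide)
  · exact h3
  · exact absurd h (by decide)

private theorem C4A_idx3 {u w v v' g : Fin n} (hg : g = u ∨ g = w ∨ g = v ∨ g = v') (h : idx u w v g = 3) :
    g = v' := by
  unfold idx at h
  split_ifs at h with h1 h2 h3
  · exact absurd h (by decide)
  · exact absurd h (by decide)
  · exact absurd h (by decide)
  · rcases hg with e | e | e | e
    · exact absurd e h1
    · exact absurd e h2
    · exact absurd e h3
    · exact e

private theorem C4A_mem {u w v v' : Fin n} (hG : G = {u, w, v, v'}) {g : Fin n} (hg : g ∈ G) :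
    g = u ∨ g = w ∨ g = v ∨ g = v' := by
  rw [hG] at hg
  simpa using hg

private theorem C4A_gate (h : NF f G p r) {u w v v' : Fin n} (hG : G = {u, w, v, v'})
    (d : ∀ g ∈ G, indeg f g = 2) (h0 : f (fun _ => false) = fun _ => false) {g : Fin n} (hg : g ∈ G) :
    ∃ (j1 j2 : Fin n) (t : Fin 4 × Fin 4 × Fin 4), t.1 = idx u w v (r j1) ∧ t.2.1 = idx u w v (r j2) ∧
      (∀ s j, Arc f s j g ↔ (s = decide (t.2.2 ≠ 3) ∧ j = j1) ∨ (s = decide (t.2.2 ≠ 2) ∧ j = j2)) ∧
      ∀ x, flat r x = x → f x g = evv t (vals (x u) (x w) (x v) (x v')) := by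
  obtain ⟨j1, j2, k, -, ha, hf⟩ := gate2z (d g hg) (by rw [h0])
  refine ⟨j1, j2, (idx u w v (r j1), idx u w v (r j2), k), rfl, rfl, ha, fun x hx => ?_⟩
  have e1 : x j1 = x (r j1) := (congrFun hx j1).symm
  have e2 : x j2 = x (r j2) := (congrFun hx j2).symm
  rw [hf, e1, e2, val_idx (C4A_mem hG (h.mem j1)) x, val_idx (C4A_mem hG (h.mem j2)) x]
  rfl

theorem core4A (h : NF f G p r) {u w v v' : Fin n} (hG : G = {u, w, v, v'}) (huw : u ≠ w) (huv : u ≠ v)
    (huv' : u ≠ v') (hwv : w ≠ v) (hwv' : w ≠ v') (hvv' : v ≠ v') (d : ∀ g ∈ G, indeg f g = 2) {B : Set (Cfg n)}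
    (hns : NSPair f {fun _ => false} B) (hW : Feed f {u, w}) (hp : FixPair f B u w) {z : Cfg n} (hz : z ∈ B)
    (hu : z u = true) (hw : z w = true) (hs : ∀ k, k ≠ u → k ≠ w → f z k = z k) (hf : f z u = false) : False := by
  have mu : u ∈ G := by rw [hG]; simp
  have mw : w ∈ G := by rw [hG]; simp
  have mv : v ∈ G := by rw [hG]; simp
  have mv' : v' ∈ G := by rw [hG]; simp
  have hWG : ({u, w} : Finset (Fin n)) ⊆ G := by
    intro g hg
    simp only [Finset.mem_insert, Finset.mem_singleton] at hg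
    rcases hg with rfl | rfl <;> assumption
  obtain ⟨j01, j02, t0, i01, i02, a0, f0⟩ := C4A_gate h hG d hp.fix mu
  obtain ⟨j11, j12, t1, i11, i12, a1, f1⟩ := C4A_gate h hG d hp.fix mw
  obtain ⟨j21, j22, t2, i21, i22, a2, f2⟩ := C4A_gate h hG d hp.fix mv
  obtain ⟨j31, j32, t3, i31, i32, a3, f3⟩ := C4A_gate h hG d hp.fix mv'
  obtain ⟨z10, hz10, z10u, z10w, z10s⟩ := hp.visit true false (by simp)
  obtain ⟨z01, hz01, z01u, z01w, z01s⟩ := hp.visit false true (by simp)
  have hflat : ∀ y : Cfg n, (∀ k, k ≠ u → k ≠ w → f y k = y k) → flat r y = y := by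
    intro y hy
    refine h.flat_of_settled (fun k hk => hy k ?_ ?_)
    · rintro rfl; exact hk mu
    · rintro rfl; exact hk mw
  have F10 := hflat z10 z10s
  have F01 := hflat z01 z01s
  have F11 := hflat z hs
  -- the equations of the two inner gates
  have e1 : (z01 v, z01 v').1 = evv t2 (vals false true (z01 v, z01 v').1 (z01 v, z01 v').2) ∧
      (z01 v, z01 v').2 = evv t3 (vals false true (z01 v, z01 v').1 (z01 v, z01 v').2) := by
    constructor
    · have := f2 z01 F01
      rw [z01s v huv.symm hwv.symm, z01u, z01w] at this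
      exact this
    · have := f3 z01 F01
      rw [z01s v' huv'.symm hwv'.symm, z01u, z01w] at this
      exact this
  have e2 : (z10 v, z10 v').1 = evv t2 (vals true false (z10 v, z10 v').1 (z10 v, z10 v').2) ∧
      (z10 v, z10 v').2 = evv t3 (vals true false (z10 v, z10 v').1 (z10 v, z10 v').2) := by
    constructor
    · have := f2 z10 F10
      rw [z10s v huv.symm hwv.symm, z10u, z10w] at this
      exact this
    · have := f3 z10 F10
      rw [z10s v' huv'.symm hwv'.symm, z10u, z10w] at this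
      exact this
  have e3 : (z v, z v').1 = evv t2 (vals true true (z v, z v').1 (z v, z v').2) ∧
      (z v, z v').2 = evv t3 (vals true true (z v, z v').1 (z v, z v').2) := by
    constructor
    · have := f2 z F11
      rw [hs v huv.symm hwv.symm, hu, hw] at this
      exact this
    · have := f3 z F11
      rw [hs v' huv'.symm hwv'.symm, hu, hw] at this
      exact this
  have u1 : evv t0 (vals false true (z01 v, z01 v').1 (z01 v, z01 v').2) = true := by
    have := f0 z01 F01
    rw [hp.up hz01 z01u z01s, z01u, z01w] at this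
    exact this.symm
  have u2 : evv t0 (vals true false (z10 v, z10 v').1 (z10 v, z10 v').2) = true := by
    have := f0 z10 F10
    rw [(hp.symm.lo hz10 z10w).2, z10u, z10w] at this
    exact this.symm
  have u3 : evv t0 (vals true true (z v, z v').1 (z v, z v').2) = false := by
    have := f0 z F11
    rw [hf, hu, hw] at this
    exact this.symm
  have w1 : evv t1 (vals false true (z01 v, z01 v').1 (z01 v, z01 v').2) = true := by
    have := f1 z01 F01
    rw [(hp.lo hz01 z01u).2, z01u, z01w] at this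
    exact this.symm
  have w2 : evv t1 (vals true false (z10 v, z10 v').1 (z10 v, z10 v').2) = true := by
    have := f1 z10 F10
    rw [hp.symm.up hz10 z10w (fun k h1 h2 => z10s k h2 h1), z10u, z10w] at this
    exact this.symm
  have w3 : evv t1 (vals false true (z v, z v').1 (z v, z v').2) = true := by
    have hy : flat r (Function.update z u (!z u)) ∈ B := by
      refine h.gstep hp.att (by rw [F11]; exact hz) mu ?_
      rw [F11, hf, hu]
      decide
    have yg : ∀ g ∈ G, flat r (Function.update z u (!z u)) g = Function.update z u (!z u) g := by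
      intro g hg
      show Function.update z u (!z u) (r g) = _
      rw [h.gate g hg]
    have yu : flat r (Function.update z u (!z u)) u = false := by
      rw [yg u mu, Function.update_self, hu]
      rfl
    have yw : flat r (Function.update z u (!z u)) w = true := by
      rw [yg w mw, Function.update_of_ne huw.symm, hw]
    have yv : flat r (Function.update z u (!z u)) v = z v := by
      rw [yg v mv, Function.update_of_ne huv.symm]
    have yv' : flat r (Function.update z u (!z u)) v' = z v' := by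
      rw [yg v' mv', Function.update_of_ne huv'.symm]
    have := f1 _ (h.flat_flat (Function.update z u (!z u)))
    rw [(hp.lo hy yu).2, yu, yw, yv, yv'] at this
    exact this.symm
  have n2 : t2.1 ≠ 2 ∧ t2.2.1 ≠ 2 := by
    obtain ⟨g, hg, hg'⟩ := h.feed_inv hWG hW (S := {v}) (by simpa using mv) (Finset.singleton_nonempty v)
      (by simp [huv.symm, hwv.symm])
    rw [Finset.mem_singleton] at hg
    subst hg
    constructor
    · intro e
      rw [i21] at e
      exact hg' j21 _ ((a2 _ _).2 (Or.inl ⟨rfl, rfl⟩)) (by rw [C4A_idx2 e]; simp)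
    · intro e
      rw [i22] at e
      exact hg' j22 _ ((a2 _ _).2 (Or.inr ⟨rfl, rfl⟩)) (by rw [C4A_idx2 e]; simp)
  have n3 : t3.1 ≠ 3 ∧ t3.2.1 ≠ 3 := by
    obtain ⟨g, hg, hg'⟩ := h.feed_inv hWG hW (S := {v'}) (by simpa using mv') (Finset.singleton_nonempty v')
      (by simp [huv'.symm, hwv'.symm])
    rw [Finset.mem_singleton] at hg
    subst hg
    constructor
    · intro e
      rw [i31] at e
      exact hg' j31 _ ((a3 _ _).2 (Or.inl ⟨rfl, rfl⟩)) (by rw [C4A_idx3 (C4A_mem hG (h.mem j31)) e]; simp)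
    · intro e
      rw [i32] at e
      exact hg' j32 _ ((a3 _ _).2 (Or.inr ⟨rfl, rfl⟩)) (by rw [C4A_idx3 (C4A_mem hG (h.mem j32)) e]; simp)
  have n23 : ¬ ((t2.1 = 3 ∨ t2.2.1 = 3) ∧ (t3.1 = 2 ∨ t3.2.1 = 2)) := by
    rintro ⟨q1, q2⟩
    obtain ⟨g, hg, hg'⟩ := h.feed_inv hWG hW (S := {v, v'}) (by
        intro g hg
        simp only [Finset.mem_insert, Finset.mem_singleton] at hg
        rcases hg with rfl | rfl <;> assumption) ⟨v, by simp⟩
      (by
        rw [Finset.disjoint_left]
        intro a ha ha'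
        simp only [Finset.mem_insert, Finset.mem_singleton] at ha ha'
        rcases ha with rfl | rfl <;> rcases ha' with e | e <;> first | exact huv e.symm | exact hwv e.symm | exact huv' e.symm | exact hwv' e.symm)
    simp only [Finset.mem_insert, Finset.mem_singleton] at hg
    rcases hg with rfl | rfl
    · rcases q1 with e | e
      · rw [i21] at e
        exact hg' j21 _ ((a2 _ _).2 (Or.inl ⟨rfl, rfl⟩)) (by rw [C4A_idx3 (C4A_mem hG (h.mem j21)) e]; simp)
      · rw [i22] at e
        exact hg' j22 _ ((a2 _ _).2 (Or.inr ⟨rfl, rfl⟩)) (by rw [C4A_idx3 (C4A_mem hG (h.mem j22)) e]; simp)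
    · rcases q2 with e | e
      · rw [i31] at e
        exact hg' j31 _ ((a3 _ _).2 (Or.inl ⟨rfl, rfl⟩)) (by rw [C4A_idx2 e]; simp)
      · rw [i32] at e
        exact hg' j32 _ ((a3 _ _).2 (Or.inr ⟨rfl, rfl⟩)) (by rw [C4A_idx2 e]; simp)
  have hconst : ∀ j, Arc f true j w → r j = w → False := by
    intro j ha hj
    obtain ⟨c, hc⟩ := const_gate h mw (d w mw) ha hj hp.att
    have c1 := hc z01 hz01
    have c2 := hc z10 hz10
    rw [z01w] at c1
    rw [z10w] at c2
    exact absurd (c1.trans c2.symm) (by decide)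
  have s1 : ¬ (t1.1 = 1 ∧ t1.2.2 ≠ 3) := by
    rintro ⟨e, e'⟩
    rw [i11] at e
    exact hconst j11 ((a1 _ _).2 (Or.inl ⟨(decide_eq_true e').symm, rfl⟩)) (C4A_idx1 e)
  have s2 : ¬ (t1.2.1 = 1 ∧ t1.2.2 ≠ 2) := by
    rintro ⟨e, e'⟩
    rw [i12] at e
    exact hconst j12 ((a1 _ _).2 (Or.inr ⟨(decide_eq_true e').symm, rfl⟩)) (C4A_idx1 e)
  obtain ⟨k1, k2, k3⟩ := fin4A t0 t1 t2 t3 (z01 v, z01 v') (z10 v, z10 v') (z v, z v') n2 n3 n23 e1 e2 e3
    u1 u2 u3 w1 w2 w3 s1 s2
  have hpos : ∀ k : Fin 4, k.val < 2 → decide (k ≠ 3) = true ∧ decide (k ≠ 2) = true := by decide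
  have hpos' : ∀ (t : Fin 4 × Fin 4 × Fin 4) (g j1 j2 : Fin n), t.2.2.val < 2 →
      (∀ s j, Arc f s j g ↔ (s = decide (t.2.2 ≠ 3) ∧ j = j1) ∨ (s = decide (t.2.2 ≠ 2) ∧ j = j2)) →
      ∀ s j, Arc f s j g → s = true := by
    intro t g j1 j2 hk ha s j harc
    obtain ⟨q1, q2⟩ := hpos _ hk
    rcases (ha s j).1 harc with ⟨e, -⟩ | ⟨e, -⟩
    · rw [e, q1]
    · rw [e, q2]
  refine one_head hns u (fun s j i hi ha => ?_)
  by_cases hiG : i ∈ G
  · rcases C4A_mem hG hiG with rfl | rfl | rfl | rfl
    · exact absurd rfl hi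
    · exact hpos' t1 _ _ _ k1 a1 s j ha
    · exact hpos' t2 _ _ _ k2 a2 s j ha
    · exact hpos' t3 _ _ _ k3 a3 s j ha
  · exact (h.arc_copy hiG ha).1

theorem case4A (h : NF f G p r) {u w v v' : Fin n} (hG : G = {u, w, v, v'}) (huw : u ≠ w) (huv : u ≠ v)
    (huv' : u ≠ v') (hwv : w ≠ v) (hwv' : w ≠ v') (hvv' : v ≠ v') (d : ∀ g ∈ G, indeg f g = 2) {A B : Set (Cfg n)}
    (hns : NSPair f A B) (hW : Feed f {u, w}) : False := by
  obtain ⟨f', B', h', hns', hi, ha⟩ := h.to_zero hns huw hW
  have hW' : Feed f' {u, w} := feed_congr ha hW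
  have hp := pair2 hns' huw hW'
  have d' : ∀ g ∈ G, indeg f' g = 2 := fun g hg => by rw [hi, d g hg]
  obtain ⟨z, hz, hu, hw, hs⟩ := hp.visit true true (by simp)
  rcases hp.top hz hu hw hs with hf | hf
  · exact core4A h' hG huw huv huv' hwv hwv' hvv' d' hns' hW' hp hz hu hw hs hf
  · have hG' : G = {w, u, v, v'} := by
      rw [hG, Finset.insert_comm]
    rw [Finset.pair_comm] at hW'
    exact core4A h' hG' huw.symm hwv hwv' huv huv' hvv' d' hns' hW' hp.symm hz hw hu
      (fun k h1 h2 => hs k h2 h1) hf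

end NSA
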