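import Pool.Agent.NSA.OM1

set_option autoImplicit false

/-!
[NSA-OM2] the exceptional topology, the bistable cases `o3 = o4 = true`, `s = t`.
`start2`: from `Om.start`: while `q1 = q2 = false`, `f g3 = (q4 == s)`, `f g4 = (q3 == s)`.  Update `g4`: then `q4 = (q3 == s)`; so for `s = true`: `q4 = q3`, for `s = false`: `q4 = !q3`.  So every attractor
contains `C c` := `flat r` of `(false, false, c, (c == s))` for some `c`.
`trap_true` (`s = true`): `T = {x | ∀ k, (r k = g3 ∨ r k = g4) → x k = true}` is a trap set: let `x ∈ T`, `f x i ≠ x i`; the new configuration can leave `T` only if `r i = g3` or `r i = g4`; if `i ∉ G` then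
`f x i = x (p i) = true = x i` (`copy`, `step`); if `i ∈ G`, `i = r i` is `g3` or `g4`: `f x g3 = (x j == true) || _ = true` since `r j = g4`.  Also `Z = {x | ∀ k, x k = false}` is a trap set (all four gate
functions vanish).  `A` contains `C c`, `B` contains `C c'`, `c ≠ c'` (otherwise `A = B` by `att_eq`, `flat_ext`).  The one with `c = true` is contained in `T`, the other one (`C false = 0`) in `Z`
(`att_sub`): they have different constant values at `g3`: `exists_agree` at `g3` gives the contradiction.
`s = false`: `T1 = {x | ∀ k, (r k = g3 → x k = true) ∧ ((r k = g4 ∨ r k = g2) → x k = false)}`: `f x g3 = (x j == false) || _ = true` (`r j = g4`), `f x g4 = (x j == false) || x j'` with `r j = g3`,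
`r j' = g2`: `false`; `f x g2 = _ && x j' = false` (`r j' = g4`); the others by `copy`.  `T0 = {x | ∀ k, (r k = g4 → x k = true) ∧ ((r k = g3 ∨ r k = g1) → x k = false)}`: symmetric.  `C true ∈ T1`,
`C false ∈ T0`.  Again different constants at `g3`.
-/

open Relation NSep

namespace NSA

variable {n : ℕ} {f : Cfg n → Cfg n} {G : Finset (Fin n)} {p r : Fin n → Fin n} {g1 g2 g3 g4 : Fin n} {s : Bool}

private theorem OM2_trap (h : NF f G p r) (c : Fin n → Option Bool)
    (hc : ∀ x : Cfg n, (∀ k b, c (r k) = some b → x k = b) → ∀ g ∈ G, ∀ b, c g = some b → f x g = b) :
    IsTrap f {x : Cfg n | ∀ k b, c (r k) = some b → x k = b} := by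
  intro x hx y hy k b hb
  obtain ⟨i, hi, rfl⟩ := hy
  by_cases hk : k = i
  · subst hk
    exfalso
    apply hi
    rw [hx k b hb]
    by_cases hG : k ∈ G
    · have h1 := h.gate k hG
      rw [h1] at hb
      exact hc x hx k hG b hb
    · rw [h.copy k hG x]
      apply hx
      rw [← h.step k hG]
      exact hb
  · rw [Function.update_of_ne hk]
    exact hx k b hb

/-- the bottom configuration -/
private def OM2_C (g3 g4 : Fin n) (s c : Bool) : Cfg n :=
  fun k => if k = g3 then c else if k = g4 then (c == s) else false

private theorem OM2_start (h : Om f G p r g1 g2 g3 g4 s s true true) {A : Set (Cfg n)} (hA : IsAttractor f A) :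
    ∃ c, flat r (OM2_C g3 g4 s c) ∈ A := by
  obtain ⟨x, hx, h1, h2⟩ := h.start hA
  have h4 : g4 ∈ G := by rw [h.hG]; simp
  have h3 := h.upd hA hx h4
  refine ⟨x g3, ?_⟩
  have e : flat r (OM2_C g3 g4 s (x g3)) = flat r (Function.update x g4 (f (flat r x) g4)) := by
    apply h.flat_ext
    · rw [Function.update_of_ne h.h14, h1]
      unfold OM2_C
      rw [if_neg h.h13, if_neg h.h14]
    · rw [Function.update_of_ne h.h24, h2]
      unfold OM2_C
      rw [if_neg h.h23, if_neg h.h24]
    · rw [Function.update_of_ne h.h34]
      unfold OM2_C
      rw [if_pos rfl]
    · rw [Function.update_self, h.e4]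
      unfold OM2_C
      rw [if_neg h.h34.symm, if_pos rfl, h2]
      simp
  rw [e]
  exact h3

theorem Om.bistable (h : Om f G p r g1 g2 g3 g4 s s true true) {A B : Set (Cfg n)} (hns : NSPair f A B) :
    False := by
  classical
  -- two trap sets
  have hG3 : g3 ∈ G := by rw [h.hG]; simp
  have hG4 : g4 ∈ G := by rw [h.hG]; simp
  have key : ∀ c : Bool, ∃ T : Set (Cfg n), IsTrap f T ∧ flat r (OM2_C g3 g4 s c) ∈ T ∧ ∀ x ∈ T, x g3 = c := by
    obtain ⟨j1, j1', a1, a1', F1⟩ := h.f1
    obtain ⟨j2, j2', a2, a2', F2⟩ := h.f2
    obtain ⟨j3, j3', a3, a3', F3⟩ := h.f3
    obtain ⟨j4, j4', a4, a4', F4⟩ := h.f4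
    have hg : ∀ g ∈ G, g = g1 ∨ g = g2 ∨ g = g3 ∨ g = g4 := by
      intro g hg
      rw [h.hG] at hg
      simpa using hg
    have h12 := h.h12
    have h13 := h.h13
    have h14 := h.h14
    have h23 := h.h23
    have h24 := h.h24
    have h34 := h.h34
    -- general construction
    have gen : ∀ (c : Bool) (o : Fin n → Option Bool),
        (∀ x : Cfg n, (∀ k b, o (r k) = some b → x k = b) → ∀ g ∈ G, ∀ b, o g = some b → f x g = b) →
        (∀ g ∈ G, ∀ b, o g = some b → OM2_C g3 g4 s c g = b) → o g3 = some c →
        ∃ T : Set (Cfg n), IsTrap f T ∧ flat r (OM2_C g3 g4 s c) ∈ T ∧ ∀ x ∈ T, x g3 = c := by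
      intro c o ho1 ho2 ho3
      refine ⟨_, OM2_trap h.nf o ho1, ?_, ?_⟩
      · intro k b hb
        exact ho2 (r k) (h.nf.mem k) b hb
      · intro x hx
        apply hx g3 c
        rw [h.nf.gate g3 hG3]
        exact ho3
    intro c
    cases s with
    | true =>
      cases c with
      | true =>
        refine gen true (fun k => if k = g3 ∨ k = g4 then some true else none) ?_ ?_ ?_
        · intro x hx g hgG b hb
          have v : ∀ k, (r k = g3 ∨ r k = g4) → x k = true := by
            intro k hk
            apply hx k true
            rw [if_pos hk]
          split_ifs at hb with h5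
          have hb' : b = true := (Option.some.inj hb).symm
          subst hb'
          rcases h5 with h5 | h5
          · subst h5
            rw [F3]
            simp [v j3 (Or.inr a3)]
          · subst h5
            rw [F4]
            simp [v j4 (Or.inl a4)]
        · intro g hgG b hb
          split_ifs at hb with h5
          have hb' : b = true := (Option.some.inj hb).symm
          subst hb'
          unfold OM2_C
          rcases h5 with h5 | h5
          · rw [if_pos h5]
          · rw [h5, if_neg h34.symm, if_pos rfl]
            rfl
        · simp
      | false =>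
        refine gen false (fun _ => some false) ?_ ?_ ?_
        · intro x hx g hgG b hb
          have v : ∀ k, x k = false := fun k => hx k false rfl
          have hb' : b = false := (Option.some.inj hb).symm
          subst hb'
          rcases hg g hgG with h5 | h5 | h5 | h5
          · rw [h5, F1]; simp [v]
          · rw [h5, F2]; simp [v]
          · rw [h5, F3]; simp [v]
          · rw [h5, F4]; simp [v]
        · intro g hgG b hb
          have hb' : b = false := (Option.some.inj hb).symm
          subst hb'
          unfold OM2_C
          split_ifs <;> rfl
        · rfl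
    | false =>
      cases c with
      | true =>
        refine gen true (fun k => if k = g3 then some true else if k = g4 ∨ k = g2 then some false else none) ?_ ?_ ?_
        · intro x hx g hgG b hb
          have v3 : ∀ k, r k = g3 → x k = true := by
            intro k hk
            apply hx k true
            rw [if_pos hk]
          have v4 : ∀ k, r k = g4 → x k = false := by
            intro k hk
            apply hx k false
            rw [if_neg (by rw [hk]; exact h34.symm), if_pos (Or.inl hk)]
          have v2 : ∀ k, r k = g2 → x k = false := by
            intro k hk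
            apply hx k false
            rw [if_neg (by rw [hk]; exact h23), if_pos (Or.inr hk)]
          split_ifs at hb with h5 h6
          · have hb' : b = true := (Option.some.inj hb).symm
            subst hb'
            rw [h5, F3]
            simp [v4 j3 a3]
          · have hb' : b = false := (Option.some.inj hb).symm
            subst hb'
            rcases h6 with h6 | h6
            · rw [h6, F4]
              simp [v3 j4 a4, v2 j4' a4']
            · rw [h6, F2]
              simp [v4 j2' a2']
        · intro g hgG b hb
          unfold OM2_C
          split_ifs at hb with h5 h6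
          · have hb' : b = true := (Option.some.inj hb).symm
            subst hb'
            rw [if_pos h5]
          · have hb' : b = false := (Option.some.inj hb).symm
            subst hb'
            rw [if_neg h5]
            split_ifs <;> rfl
        · simp
      | false =>
        refine gen false (fun k => if k = g4 then some true else if k = g3 ∨ k = g1 then some false else none) ?_ ?_ ?_
        · intro x hx g hgG b hb
          have v4 : ∀ k, r k = g4 → x k = true := by
            intro k hk
            apply hx k true
            rw [if_pos hk]
          have v3 : ∀ k, r k = g3 → x k = false := by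
            intro k hk
            apply hx k false
            rw [if_neg (by rw [hk]; exact h34), if_pos (Or.inl hk)]
          have v1 : ∀ k, r k = g1 → x k = false := by
            intro k hk
            apply hx k false
            rw [if_neg (by rw [hk]; exact h14), if_pos (Or.inr hk)]
          split_ifs at hb with h5 h6
          · have hb' : b = true := (Option.some.inj hb).symm
            subst hb'
            rw [h5, F4]
            simp [v3 j4 a4]
          · have hb' : b = false := (Option.some.inj hb).symm
            subst hb'
            rcases h6 with h6 | h6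
            · rw [h6, F3]
              simp [v4 j3 a3, v1 j3' a3']
            · rw [h6, F1]
              simp [v3 j1' a1']
        · intro g hgG b hb
          unfold OM2_C
          split_ifs at hb with h5 h6
          · have hb' : b = true := (Option.some.inj hb).symm
            subst hb'
            rw [h5, if_neg h34.symm, if_pos rfl]
            rfl
          · have hb' : b = false := (Option.some.inj hb).symm
            subst hb'
            rcases h6 with h6 | h6
            · rw [if_pos h6]
            · rw [h6, if_neg h13, if_neg h14]
        · simp [h34]
  obtain ⟨c, hc⟩ := OM2_start h hns.hA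
  obtain ⟨c', hc'⟩ := OM2_start h hns.hB
  have hne : c ≠ c' := by
    rintro rfl
    exact hns.ne (att_eq hns.hA hns.hB hc hc')
  obtain ⟨T, hT1, hT2, hT3⟩ := key c
  obtain ⟨T', hT1', hT2', hT3'⟩ := key c'
  obtain ⟨x, hx, y, hy, hxy⟩ := exists_agree hns g3
  have e1 := hT3 x (att_sub hns.hA hT1 hc hT2 hx)
  have e2 := hT3' y (att_sub hns.hB hT1' hc' hT2' hy)
  apply hne
  rw [← e1, ← e2]
  exact hxy

end NSA
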