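import Pool.Agent.NSA.OM1
import Pool.Agent.NSA.OM2

set_option autoImplicit false

open Relation NSep

namespace NSA

variable {n : ℕ} {f : Cfg n → Cfg n} {G : Finset (Fin n)} {p r : Fin n → Fin n}

theorem omega_norm (h : NF f G p r) {g1 g2 g3 g4 : Fin n} (hG : G = {g1, g2, g3, g4}) (h12 : g1 ≠ g2)
    (h13 : g1 ≠ g3) (h14 : g1 ≠ g4) (h23 : g2 ≠ g3) (h24 : g2 ≠ g4) (h34 : g3 ≠ g4)
    {j11 j13 j22 j24 j34 j31 j43 j42 : Fin n} (r11 : r j11 = g1) (r13 : r j13 = g3) (r22 : r j22 = g2)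
    (r24 : r j24 = g4) (r34 : r j34 = g4) (r31 : r j31 = g1) (r43 : r j43 = g3) (r42 : r j42 = g2)
    (s t o3 o4 : Bool) (f1 : ∀ x, f x g1 = (!x j11 && x j13)) (f2 : ∀ x, f x g2 = (!x j22 && x j24))
    (f3 : ∀ x, f x g3 = if o3 then (x j34 == s) || x j31 else (x j34 == s) && x j31)
    (f4 : ∀ x, f x g4 = if o4 then (x j43 == t) || x j42 else (x j43 == t) && x j42)
    {A B : Set (Cfg n)} (hns : NSPair f A B) : False := by
  have hO : Om f G p r g1 g2 g3 g4 s t o3 o4 :=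
    ⟨h, hG, h12, h13, h14, h23, h24, h34, ⟨_, _, r11, r13, f1⟩, ⟨_, _, r22, r24, f2⟩, ⟨_, _, r34, r31, f3⟩,
      ⟨_, _, r43, r42, f4⟩⟩
  by_cases ho : o3 = true ∧ o4 = true ∧ s = t
  · obtain ⟨h3, h4, hst⟩ := ho
    subst h3 h4 hst
    exact hO.bistable hns
  · obtain ⟨z, hz⟩ := hO.common ho
    exact hns.ne (att_eq hns.hA hns.hB (hz A hns.hA) (hz B hns.hB))

end NSA
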