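import Pool.Agent.NSA.Defs
import Pool.Agent.NSA.SW
import Pool.Agent.NSA.FD1
import Pool.Agent.NSA.NF1
import Pool.Agent.NSA.NF2
import Pool.Agent.NSA.OM

set_option autoImplicit false

/-!
[NSA-OF] switching to the normalised exceptional topology.
Let `q1 = o1`, `q2 = o2`, `q3 = xor (!σ13) o1`, `q4 = xor (!σ24) o2`, `q` a configuration with these values at the four gates (use `if`s; the gates are distinct), `b = flat r q`,
`f' = sw b f`.  `NF.sw`: `b k = q (r k) = q (r (p k)) = b (p k)` for `k ∉ G` (`h.step`).  `nspair_sw`.  `f' x g = xor (q g) (f (xr b x) g)` (`r g = g`), `xr b x j = xor (q (r j)) (x j)`.  Check by cases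
on the Booleans (`q1 = o1` etc.): `f' x g1 = !x j11 && x j13`, `f' x g2 = !x j22 && x j24`, `f' x g3 = if o3' then (x j34 == s) || x j31 else (x j34 == s) && x j31` with `o3' = xor o3 q3` and
`s = xor (xor σ34 q4) q3`, `f' x g4 = if o4' then (x j43 == t) || x j42 else (x j43 == t) && x j42` with `o4' = xor o4 q4`, `t = xor (xor σ43 q3) q4`.  Then `omega_norm` for `f'`,
`swS b A`, `swS b B`.
-/


open Relation NSep

namespace NSA

variable {n : ℕ} {f : Cfg n → Cfg n} {G : Finset (Fin n)} {p r : Fin n → Fin n}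

theorem omega_final (h : NF f G p r) {g1 g2 g3 g4 : Fin n} (hG : G = {g1, g2, g3, g4}) (h12 : g1 ≠ g2)
    (h13 : g1 ≠ g3) (h14 : g1 ≠ g4) (h23 : g2 ≠ g3) (h24 : g2 ≠ g4) (h34 : g3 ≠ g4)
    {j11 j13 j22 j24 j34 j31 j43 j42 : Fin n} (r11 : r j11 = g1) (r13 : r j13 = g3) (r22 : r j22 = g2)
    (r24 : r j24 = g4) (r34 : r j34 = g4) (r31 : r j31 = g1) (r43 : r j43 = g3) (r42 : r j42 = g2)
    (σ13 σ24 σ34 σ43 o1 o2 o3 o4 : Bool)
    (f1 : ∀ x, f x g1 = if o1 then (x j11 == false) || (x j13 == σ13) else (x j11 == false) && (x j13 == σ13))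
    (f2 : ∀ x, f x g2 = if o2 then (x j22 == false) || (x j24 == σ24) else (x j22 == false) && (x j24 == σ24))
    (f3 : ∀ x, f x g3 = if o3 then (x j34 == σ34) || (x j31 == σ13) else (x j34 == σ34) && (x j31 == σ13))
    (f4 : ∀ x, f x g4 = if o4 then (x j43 == σ43) || (x j42 == σ24) else (x j43 == σ43) && (x j42 == σ24))
    {A B : Set (Cfg n)} (hns : NSPair f A B) : False := by
  classical
  set q3 : Bool := xor (!σ13) o1 with hq3
  set q4 : Bool := xor (!σ24) o2 with hq4
  let q : Cfg n := fun k => if k = g1 then o1 else if k = g2 then o2 else if k = g3 then q3 else q4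
  let b : Cfg n := flat r q
  have hg1 : r g1 = g1 := h.gate g1 (by rw [hG]; simp)
  have hg2 : r g2 = g2 := h.gate g2 (by rw [hG]; simp)
  have hg3 : r g3 = g3 := h.gate g3 (by rw [hG]; simp)
  have hg4 : r g4 = g4 := h.gate g4 (by rw [hG]; simp)
  have b1 : ∀ k, r k = g1 → b k = o1 := fun k hk => by
    change q (r k) = o1
    rw [hk]
    simp [q]
  have b2 : ∀ k, r k = g2 → b k = o2 := fun k hk => by
    change q (r k) = o2
    rw [hk]
    simp [q, h12.symm]
  have b3 : ∀ k, r k = g3 → b k = q3 := fun k hk => by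
    change q (r k) = q3
    rw [hk]
    simp [q, h13.symm, h23.symm]
  have b4 : ∀ k, r k = g4 → b k = q4 := fun k hk => by
    change q (r k) = q4
    rw [hk]
    simp [q, h14.symm, h24.symm, h34.symm]
  have hb : ∀ k, k ∉ G → b k = b (p k) := fun k hk => by
    change q (r k) = q (r (p k))
    rw [h.step k hk]
  have hsw : ∀ x g, sw b f x g = xor (b g) (f (xr b x) g) := fun x g => rfl
  have hxr : ∀ x j, xr b x j = xor (b j) (x j) := fun x j => rfl
  refine omega_norm (h.sw hb) hG h12 h13 h14 h23 h24 h34 r11 r13 r22 r24 r34 r31 r43 r42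
    (xor (xor σ34 q4) q3) (xor (xor σ43 q3) q4) (xor o3 q3) (xor o4 q4) ?_ ?_ ?_ ?_ (nspair_sw hns b)
  · intro x
    rw [hsw, f1, hxr, hxr, b1 g1 hg1, b1 j11 r11, b3 j13 r13, hq3]
    cases o1 <;> cases σ13 <;> cases x j11 <;> cases x j13 <;> rfl
  · intro x
    rw [hsw, f2, hxr, hxr, b2 g2 hg2, b2 j22 r22, b4 j24 r24, hq4]
    cases o2 <;> cases σ24 <;> cases x j22 <;> cases x j24 <;> rfl
  · intro x
    rw [hsw, f3, hxr, hxr, b3 g3 hg3, b4 j34 r34, b1 j31 r31, hq3]
    clear_value q4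
    cases o1 <;> cases σ13 <;> cases o3 <;> cases σ34 <;> cases q4 <;> cases x j34 <;> cases x j31 <;> rfl
  · intro x
    rw [hsw, f4, hxr, hxr, b4 g4 hg4, b3 j43 r43, b2 j42 r42, hq4]
    clear_value q3
    cases o2 <;> cases σ24 <;> cases o4 <;> cases σ43 <;> cases q3 <;> cases x j43 <;> cases x j42 <;> rfl

end NSA
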