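import Mathlib

set_option autoImplicit false

/-!
[NSA-RC1] a finite combinatorial statement on four gates with two inputs each (roots `a g`, `b g`).
By hand: call `g` a loop gate if `a g = g` or `b g = g`; by `P1` for `{g}` not both.  `P2` for the complement of `{x, y}`: `x` or `y` is a loop gate, or both feed each other.  Let `N` be
the set of the non-loop gates; its members feed each other pairwise, so `|N| ≤ 2` (three of them would have all their inputs among themselves, against `P1`).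
A loop gate `g` has exactly one input `nx g ≠ g`.  `N = ∅`: `P3` gives a set `S` closed under `nx`, so all inputs of members of `S` are in `S`, and `S ≠ univ`: against `P1`.
`N = {m}`: `P3` for `g = m`: the same.  `N = {x3, x4}`: `x3` has the inputs `x4` and `c`, `x4` has the inputs `x3` and `d`; let `x1, x2` be the loop gates.  `P3` for `x3`: `S`; `S ⊆ {x1, x2}` is
impossible (`P1`), so `x4 ∈ S` and (its input `x3` is not in `S`) `d ∈ S`, `d ∈ {x1, x2}`.  Same for `x4`: `T`, `x3 ∈ T`, `c ∈ T`, `c ∈ {x1, x2}`.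
If `c = d`, say `= x1`: `nx x1 ∈ S ∩ T`, so `nx x1 = x2`, `x2 ∈ S ∩ T`, `nx x2 = x1`, against `P1` for `{x1, x2}`.  So (names) `c = x1`, `d = x2`.  `nx x2 ∈ S`: `x1` or `x4`; `nx x1 ∈ T`: `x2` or
`x3`; if `nx x2 = x1` then `x1 ∈ S`, `nx x1 ∈ S`, so `nx x1 = x2`: against `P1`.  So `nx x2 = x4` and in the same way `nx x1 = x3`.
Or by computation: the statement can be checked by `decide +kernel` on a Boolean function that runs through the `4^8` cases with early exits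
(`Finset (Fin 4)` replaced by bit masks `1..15`); see `F4.lean` for the style.  Either way is fine.
-/

namespace NSA

namespace RC1

def mk (a b : Fin 4) : ℕ := 2 ^ a.val ||| 2 ^ b.val

def masks : List ℕ := [1, 2, 4, 8, 3, 5, 9, 6, 10, 12]

def q1 (M0 M1 M2 M3 m : ℕ) : Bool :=
  (m.testBit 0 && !(Nat.beq (M0 &&& m) M0)) || (m.testBit 1 && !(Nat.beq (M1 &&& m) M1)) ||
    (m.testBit 2 && !(Nat.beq (M2 &&& m) M2)) || (m.testBit 3 && !(Nat.beq (M3 &&& m) M3))

def q2 (M0 M1 M2 M3 m : ℕ) : Bool :=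
  (!m.testBit 0 || !(Nat.beq (M0 &&& m) 0)) && (!m.testBit 1 || !(Nat.beq (M1 &&& m) 0)) &&
    (!m.testBit 2 || !(Nat.beq (M2 &&& m) 0)) && (!m.testBit 3 || !(Nat.beq (M3 &&& m) 0))

def q3 (M0 M1 M2 M3 m : ℕ) : Bool :=
  (!m.testBit 0 || !(Nat.beq ((M0 &&& m) &&& 14) 0)) && (!m.testBit 1 || !(Nat.beq ((M1 &&& m) &&& 13) 0)) &&
    (!m.testBit 2 || !(Nat.beq ((M2 &&& m) &&& 11) 0)) && (!m.testBit 3 || !(Nat.beq ((M3 &&& m) &&& 7) 0))

def prs : List (ℕ × ℕ) := [(0, 1), (0, 2), (0, 3), (1, 2), (1, 3), (2, 3)]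

def all15 : List ℕ := [1, 2, 3, 4, 5, 6, 7, 8, 9, 10, 11, 12, 13, 14, 15]

def all14 : List ℕ := [1, 2, 3, 4, 5, 6, 7, 8, 9, 10, 11, 12, 13, 14]

def perms : List (Fin 4 × Fin 4 × Fin 4 × Fin 4) :=
  (List.finRange 4).flatMap fun a => ((List.finRange 4).filter fun b => b ≠ a).flatMap fun b =>
    ((List.finRange 4).filter fun c => c ≠ a ∧ c ≠ b).flatMap fun c =>
      ((List.finRange 4).filter fun d => d ≠ a ∧ d ≠ b ∧ d ≠ c).map fun d => (a, b, c, d)

def get (M0 M1 M2 M3 : ℕ) : Fin 4 → ℕ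
  | 0 => M0
  | 1 => M1
  | 2 => M2
  | 3 => M3

def good (M0 M1 M2 M3 : ℕ) (e : Fin 4 × Fin 4 × Fin 4 × Fin 4) : Bool :=
  Nat.beq (get M0 M1 M2 M3 e.1) (mk e.1 e.2.2.1) && Nat.beq (get M0 M1 M2 M3 e.2.1) (mk e.2.1 e.2.2.2) &&
    Nat.beq (get M0 M1 M2 M3 e.2.2.1) (mk e.2.2.2 e.1) && Nat.beq (get M0 M1 M2 M3 e.2.2.2) (mk e.2.2.1 e.2.1)

def chk : Bool :=
  masks.all fun M0 => masks.all fun M1 => masks.all fun M2 => masks.all fun M3 =>
    !(prs.all fun t => all15.any fun m => !m.testBit t.1 && !m.testBit t.2 && q2 M0 M1 M2 M3 m) ||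
    !([0, 1, 2, 3].all fun g => all15.any fun m => !m.testBit g && q3 M0 M1 M2 M3 m) ||
    !(all14.all (q1 M0 M1 M2 M3)) || perms.any (good M0 M1 M2 M3)

set_option maxRecDepth 100000 in
theorem chk_true : chk = true := by decide +kernel

theorem mk_mem (a b : Fin 4) : mk a b ∈ masks := by
  revert a b; decide +kernel

theorem mask_of (S : Finset (Fin 4)) : ∃ m ∈ (0 :: all15), ∀ i : Fin 4, i ∈ S ↔ m.testBit i.val = true := by
  revert S; decide +kernel

theorem set_of (m : ℕ) : ∀ i : Fin 4, i ∈ (Finset.univ.filter fun i : Fin 4 => m.testBit i.val = true) ↔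
    m.testBit i.val = true := by
  intro i; simp

theorem a1 : ∀ m ∈ (0 :: all15), ∀ a b : Fin 4, (m.testBit a.val = true ∧ m.testBit b.val = true) ∨
    Nat.beq (mk a b &&& m) (mk a b) = false := by decide +kernel

theorem a2 : ∀ m ∈ (0 :: all15), ∀ a b : Fin 4, (m.testBit a.val = true ∨ m.testBit b.val = true) →
    Nat.beq (mk a b &&& m) 0 = false := by decide +kernel

theorem a3 : ∀ m ∈ (0 :: all15), ∀ a b h : Fin 4, ((m.testBit a.val = true ∧ a ≠ h) ∨ (m.testBit b.val = true ∧ b ≠ h)) →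
    Nat.beq ((mk a b &&& m) &&& (get 14 13 11 7 h)) 0 = false := by decide +kernel

theorem a4 : ∀ a b x y : Fin 4, x ≠ y → Nat.beq (mk a b) (mk x y) = true → (a = x ∧ b = y) ∨ (a = y ∧ b = x) := by
  decide +kernel

theorem a5 : ∀ t ∈ perms, ∃ e : Equiv.Perm (Fin 4), e 0 = t.1 ∧ e 1 = t.2.1 ∧ e 2 = t.2.2.1 ∧ e 3 = t.2.2.2 := by
  decide +kernel

theorem a6 : ∀ t ∈ prs, ∃ u w : Fin 4, u.val = t.1 ∧ w.val = t.2 ∧ u ≠ w := by decide +kernel

theorem a7 : ∀ m ∈ all14, (∃ i : Fin 4, m.testBit i.val = true) ∧ ∃ i : Fin 4, m.testBit i.val = false := by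
  decide +kernel

theorem a8 : ∀ m ∈ (0 :: all15), (∃ i : Fin 4, m.testBit i.val = true) → m ∈ all15 := by decide +kernel

theorem a9 : ∀ m ∈ all14, m ∈ (0 :: all15) := by decide +kernel

theorem a10 : ∀ t ∈ perms, t.1 ≠ t.2.2.1 ∧ t.2.1 ≠ t.2.2.2 ∧ t.2.2.2 ≠ t.1 ∧ t.2.2.1 ≠ t.2.1 := by decide +kernel

theorem get_eq (M : Fin 4 → ℕ) (i : Fin 4) : get (M 0) (M 1) (M 2) (M 3) i = M i := by
  fin_cases i <;> rfl

end RC1

open RC1 in
theorem root4 (a b : Fin 4 → Fin 4)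
    (P1 : ∀ S : Finset (Fin 4), S.Nonempty → S ≠ Finset.univ → ∃ g ∈ S, a g ∉ S ∨ b g ∉ S)
    (P2 : ∀ u w : Fin 4, u ≠ w → ∃ S : Finset (Fin 4), S.Nonempty ∧ u ∉ S ∧ w ∉ S ∧ ∀ g ∈ S, a g ∈ S ∨ b g ∈ S)
    (P3 : ∀ g : Fin 4, ∃ S : Finset (Fin 4), S.Nonempty ∧ g ∉ S ∧
      ∀ h ∈ S, (a h ∈ S ∧ a h ≠ h) ∨ (b h ∈ S ∧ b h ≠ h)) :
    ∃ e : Equiv.Perm (Fin 4),
      ((a (e 0) = e 0 ∧ b (e 0) = e 2) ∨ (a (e 0) = e 2 ∧ b (e 0) = e 0)) ∧
      ((a (e 1) = e 1 ∧ b (e 1) = e 3) ∨ (a (e 1) = e 3 ∧ b (e 1) = e 1)) ∧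
      ((a (e 2) = e 3 ∧ b (e 2) = e 0) ∨ (a (e 2) = e 0 ∧ b (e 2) = e 3)) ∧
      ((a (e 3) = e 2 ∧ b (e 3) = e 1) ∨ (a (e 3) = e 1 ∧ b (e 3) = e 2)) := by
  have H := chk_true
  unfold chk at H
  rw [List.all_eq_true] at H
  have H := H _ (mk_mem (a 0) (b 0))
  rw [List.all_eq_true] at H
  have H := H _ (mk_mem (a 1) (b 1))
  rw [List.all_eq_true] at H
  have H := H _ (mk_mem (a 2) (b 2))
  rw [List.all_eq_true] at H
  have H := H _ (mk_mem (a 3) (b 3))
  have c2 : (prs.all fun t => all15.any fun m => !m.testBit t.1 && !m.testBit t.2 &&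
      q2 (mk (a 0) (b 0)) (mk (a 1) (b 1)) (mk (a 2) (b 2)) (mk (a 3) (b 3)) m) = true := by
    rw [List.all_eq_true]
    intro t ht
    obtain ⟨u, w, hu, hw, huw⟩ := a6 t ht
    obtain ⟨S, hS, hSu, hSw, hSg⟩ := P2 u w huw
    obtain ⟨m, hm, hmS⟩ := mask_of S
    obtain ⟨i, hi⟩ := hS
    rw [List.any_eq_true]
    refine ⟨m, a8 m hm ⟨i, (hmS i).1 hi⟩, ?_⟩
    have e1 : m.testBit t.1 = false := by
      rw [← hu, ← Bool.not_eq_true, ← hmS]; exact hSu
    have e2 : m.testBit t.2 = false := by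
      rw [← hw, ← Bool.not_eq_true, ← hmS]; exact hSw
    have e3 : ∀ g : Fin 4, (!m.testBit g.val || !(Nat.beq (mk (a g) (b g) &&& m) 0)) = true := by
      intro g
      cases h : m.testBit g.val with
      | false => rfl
      | true =>
        have h1 := hSg g ((hmS g).2 h)
        rw [hmS, hmS] at h1
        rw [a2 m hm _ _ h1]; rfl
    have e30 := e3 0
    have e31 := e3 1
    have e32 := e3 2
    have e33 := e3 3
    rw [e1, e2]
    unfold q2
    simp only [Fin.val_zero, Fin.val_one, Fin.val_two] at e30 e31 e32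
    rw [e30, e31, e32]
    exact e33
  have c3 : ([0, 1, 2, 3].all fun g => all15.any fun m => !m.testBit g &&
      q3 (mk (a 0) (b 0)) (mk (a 1) (b 1)) (mk (a 2) (b 2)) (mk (a 3) (b 3)) m) = true := by
    rw [List.all_eq_true]
    intro t ht
    have ht' : ∃ u : Fin 4, u.val = t := by
      simp only [List.mem_cons, List.not_mem_nil, or_false] at ht
      rcases ht with rfl | rfl | rfl | rfl
      · exact ⟨0, rfl⟩
      · exact ⟨1, rfl⟩
      · exact ⟨2, rfl⟩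
      · exact ⟨3, rfl⟩
    obtain ⟨u, hu⟩ := ht'
    obtain ⟨S, hS, hSu, hSg⟩ := P3 u
    obtain ⟨m, hm, hmS⟩ := mask_of S
    obtain ⟨i, hi⟩ := hS
    rw [List.any_eq_true]
    refine ⟨m, a8 m hm ⟨i, (hmS i).1 hi⟩, ?_⟩
    have e1 : m.testBit t = false := by
      rw [← hu, ← Bool.not_eq_true, ← hmS]; exact hSu
    have e3 : ∀ g : Fin 4, (!m.testBit g.val || !(Nat.beq ((mk (a g) (b g) &&& m) &&& (get 14 13 11 7 g)) 0)) = true := by
      intro g
      cases h : m.testBit g.val with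
      | false => rfl
      | true =>
        have h1 := hSg g ((hmS g).2 h)
        rw [hmS, hmS] at h1
        rw [a3 m hm _ _ _ h1]; rfl
    have e30 := e3 0
    have e31 := e3 1
    have e32 := e3 2
    have e33 := e3 3
    rw [e1]
    unfold q3
    simp only [Fin.val_zero, Fin.val_one, Fin.val_two, RC1.get] at e30 e31 e32 e33
    rw [e30, e31, e32]
    exact e33
  have c1 : all14.all (q1 (mk (a 0) (b 0)) (mk (a 1) (b 1)) (mk (a 2) (b 2)) (mk (a 3) (b 3))) = true := by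
    rw [List.all_eq_true]
    intro m hm
    obtain ⟨⟨i, hi⟩, j, hj⟩ := a7 m hm
    obtain ⟨g, hg, hg'⟩ := P1 (Finset.univ.filter fun i : Fin 4 => m.testBit i.val = true)
      ⟨i, by simp [hi]⟩ (by
        intro h
        have : j ∈ (Finset.univ.filter fun i : Fin 4 => m.testBit i.val = true) := by rw [h]; simp
        rw [set_of, hj] at this
        exact Bool.noConfusion this)
    rw [set_of] at hg
    rw [set_of, set_of] at hg'
    have e : Nat.beq (mk (a g) (b g) &&& m) (mk (a g) (b g)) = false := by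
      rcases a1 m (a9 m hm) (a g) (b g) with h | h
      · rcases hg' with h' | h'
        · exact absurd h.1 h'
        · exact absurd h.2 h'
      · exact h
    have e' : (m.testBit g.val && !(Nat.beq (mk (a g) (b g) &&& m) (mk (a g) (b g)))) = true := by
      rw [hg, e]; rfl
    unfold q1
    simp only [Bool.or_eq_true]
    fin_cases g
    · left; left; left; exact e'
    · left; left; right; exact e'
    · left; right; exact e'
    · right; exact e'
  rw [c1, c2, c3] at H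
  simp only [Bool.not_true, Bool.false_or] at H
  rw [List.any_eq_true] at H
  obtain ⟨t, ht, hgood⟩ := H
  obtain ⟨e, he0, he1, he2, he3⟩ := a5 t ht
  obtain ⟨n1, n2, n3, n4⟩ := a10 t ht
  unfold good at hgood
  rw [get_eq (fun g => mk (a g) (b g)), get_eq (fun g => mk (a g) (b g)), get_eq (fun g => mk (a g) (b g)),
    get_eq (fun g => mk (a g) (b g))] at hgood
  simp only [Bool.and_eq_true] at hgood
  obtain ⟨⟨⟨g1, g2⟩, g3⟩, g4⟩ := hgood
  rw [← he0] at n1 n3 g1 g3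
  rw [← he1] at n2 n4 g2 g4
  rw [← he2] at n1 n4 g1 g3 g4
  rw [← he3] at n2 n3 g2 g3 g4
  refine ⟨e, ?_, ?_, ?_, ?_⟩
  · exact a4 _ _ _ _ n1 g1
  · exact a4 _ _ _ _ n2 g2
  · exact a4 _ _ _ _ n3 g3
  · exact a4 _ _ _ _ n4 g4

end NSA
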