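import Pool.Agent.NSA.Defs
import Pool.Agent.NSA.NF1
import Pool.Agent.NSA.NF2
import Pool.Agent.NSA.CP
import Pool.Agent.NSA.G2
import Pool.Agent.NSA.CG
import Pool.Agent.NSA.RC1

set_option autoImplicit false

/-!
[NSA-RC2] the topology of four gates with in-degree two, no two of them meeting all cycles.
`Inp f r g c d`: `g` has exactly two in-arcs, one with root `c`, the other with root `d`.
Proof: let `e : Fin 4 ≃ G` (`Finset.equivFinOfCardEq` or similar; `E i = (e i : Fin n)`), and for `i : Fin 4` let `j1 i, j2 i` be the inputs of `E i` (`gate2`), `a i, b i : Fin 4` with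
`E (a i) = r (j1 i)`, `E (b i) = r (j2 i)` (roots are in `G`).  Apply `root4`.
`P1`: for `S : Finset (Fin 4)` apply `conn` to `S.image E`: `g = E i`, `i ∈ S`, an in-arc of `E i` whose root is not in the image; it is `j1 i` or `j2 i`.
`P2`: if it fails for `u ≠ w`, every nonempty `S` avoiding `u, w` has `g ∈ S` with `a g ∉ S`, `b g ∉ S`; then `NF.feed` gives `Feed f {E u, E w}` (translate a set `S ⊆ G` by
`S' = {i | E i ∈ S}`), against `hno`.
`P3`: `cp_root` at `E g`: `S = {i | x (E i) ≠ y (E i)}`, nonempty, `g ∉ S`; for `h ∈ S` there is an in-arc `j` of `E h` with sign `x (r j) == x (E h)`, `x (r j) ≠ y (r j)`; `j = j1 h` or `j = j2 h`,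
so `a h ∈ S` (or `b h ∈ S`), and `r j ≠ E h` by `const_gate_false`.
-/

open Relation NSep

namespace NSA

variable {n : ℕ} {f : Cfg n → Cfg n} {G : Finset (Fin n)} {p r : Fin n → Fin n}

/-- `g` has exactly two in-arcs, one with root `c`, the other with root `d` -/
def Inp (f : Cfg n → Cfg n) (r : Fin n → Fin n) (g c d : Fin n) : Prop :=
  ∃ (j j' : Fin n) (s s' : Bool), j ≠ j' ∧ r j = c ∧ r j' = d ∧
    ∀ t i, Arc f t i g ↔ (t = s ∧ i = j) ∨ (t = s' ∧ i = j')

theorem root_omega (h : NF f G p r) (hG : G.card = 4) (d : ∀ g ∈ G, indeg f g = 2) {A B : Set (Cfg n)}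
    (hns : NSPair f A B) (hno : ∀ u ∈ G, ∀ w ∈ G, u ≠ w → ¬ Feed f {u, w}) :
    ∃ g1 g2 g3 g4 : Fin n, g1 ≠ g2 ∧ g1 ≠ g3 ∧ g1 ≠ g4 ∧ g2 ≠ g3 ∧ g2 ≠ g4 ∧ g3 ≠ g4 ∧ G = {g1, g2, g3, g4} ∧
      Inp f r g1 g1 g3 ∧ Inp f r g2 g2 g4 ∧ Inp f r g3 g4 g1 ∧ Inp f r g4 g3 g2 := by
  classical
  obtain ⟨e⟩ : Nonempty (Fin 4 ≃ G) := ⟨(G.equivFinOfCardEq hG).symm⟩
  obtain ⟨E, hE⟩ : ∃ E : Fin 4 → Fin n, ∀ i, E i = (e i : Fin n) := ⟨fun i => (e i : Fin n), fun _ => rfl⟩
  have hEm : ∀ i, E i ∈ G := fun i => by rw [hE]; exact (e i).2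
  have hEi : Function.Injective E := by
    intro i j hij
    rw [hE, hE] at hij
    exact e.injective (Subtype.ext hij)
  have hEs : ∀ g ∈ G, ∃ i, E i = g := by
    intro g hg
    refine ⟨e.symm ⟨g, hg⟩, ?_⟩
    rw [hE, Equiv.apply_symm_apply]
  choose j1 j2 s1 s2 op hne harc hform using fun i => gate2 (d (E i) (hEm i))
  choose a ha using fun i => hEs (r (j1 i)) (h.mem _)
  choose b hb using fun i => hEs (r (j2 i)) (h.mem _)
  have mkInp : ∀ i c c', (a i = c ∧ b i = c') ∨ (a i = c' ∧ b i = c) → Inp f r (E i) (E c) (E c') := by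
    intro i c c' hcc
    rcases hcc with ⟨h1, h2⟩ | ⟨h1, h2⟩
    · exact ⟨j1 i, j2 i, s1 i, s2 i, hne i, by rw [← ha, h1], by rw [← hb, h2], harc i⟩
    · refine ⟨j2 i, j1 i, s2 i, s1 i, (hne i).symm, by rw [← hb, h2], by rw [← ha, h1], fun t k => ?_⟩
      rw [harc i t k, or_comm]
  have P1 : ∀ S : Finset (Fin 4), S.Nonempty → S ≠ Finset.univ → ∃ g ∈ S, a g ∉ S ∨ b g ∉ S := by
    intro S hS hSu
    have hsub : S.image E ⊆ G := by
      intro g hg
      obtain ⟨i, -, rfl⟩ := Finset.mem_image.1 hg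
      exact hEm i
    have hneq : S.image E ≠ G := by
      intro heq
      apply hSu
      rw [Finset.eq_univ_iff_forall]
      intro i
      have hi : E i ∈ S.image E := by rw [heq]; exact hEm i
      obtain ⟨i', hi', hii⟩ := Finset.mem_image.1 hi
      rwa [← hEi hii]
    obtain ⟨g, hg, j, t, harcg, hrj⟩ := h.conn (S.image E) hsub (hS.image E) hneq
    obtain ⟨i, hi, rfl⟩ := Finset.mem_image.1 hg
    refine ⟨i, hi, ?_⟩
    rcases (harc i t j).1 harcg with ⟨-, rfl⟩ | ⟨-, rfl⟩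
    · left
      intro hm
      apply hrj
      rw [← ha]
      exact Finset.mem_image_of_mem E hm
    · right
      intro hm
      apply hrj
      rw [← hb]
      exact Finset.mem_image_of_mem E hm
  have P2 : ∀ u w : Fin 4, u ≠ w →
      ∃ S : Finset (Fin 4), S.Nonempty ∧ u ∉ S ∧ w ∉ S ∧ ∀ g ∈ S, a g ∈ S ∨ b g ∈ S := by
    intro u w huw
    by_contra hcon
    push Not at hcon
    refine hno (E u) (hEm u) (E w) (hEm w) (fun hh => huw (hEi hh)) (h.feed ?_)
    intro S hS hSne hdis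
    have hu' : E u ∉ S := fun hm => Finset.disjoint_left.1 hdis hm (by simp)
    have hw' : E w ∉ S := fun hm => Finset.disjoint_left.1 hdis hm (by simp)
    obtain ⟨g0, hg0⟩ := hSne
    obtain ⟨i0, hi0⟩ := hEs g0 (hS hg0)
    obtain ⟨i, hi, hai, hbi⟩ := hcon (Finset.univ.filter fun i => E i ∈ S)
      ⟨i0, by rw [Finset.mem_filter]; exact ⟨Finset.mem_univ _, by rw [hi0]; exact hg0⟩⟩
      (by rw [Finset.mem_filter]; exact fun hh => hu' hh.2) (by rw [Finset.mem_filter]; exact fun hh => hw' hh.2)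
    rw [Finset.mem_filter] at hi hai hbi
    refine ⟨E i, hi.2, fun j t hj hm => ?_⟩
    rcases (harc i t j).1 hj with ⟨-, rfl⟩ | ⟨-, rfl⟩
    · rw [← ha] at hm
      exact hai ⟨Finset.mem_univ _, hm⟩
    · rw [← hb] at hm
      exact hbi ⟨Finset.mem_univ _, hm⟩
  have P3 : ∀ g : Fin 4, ∃ S : Finset (Fin 4), S.Nonempty ∧ g ∉ S ∧
      ∀ h ∈ S, (a h ∈ S ∧ a h ≠ h) ∨ (b h ∈ S ∧ b h ≠ h) := by
    intro g
    obtain ⟨x, hx, y, hy, hxy, ⟨k, hk, hkne⟩, hall⟩ := cp_root h hns (E g)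
    obtain ⟨i0, hi0⟩ := hEs k hk
    refine ⟨Finset.univ.filter fun i => x (E i) ≠ y (E i), ⟨i0, ?_⟩, ?_, ?_⟩
    · rw [Finset.mem_filter]
      exact ⟨Finset.mem_univ _, by rw [hi0]; exact hkne⟩
    · rw [Finset.mem_filter]
      exact fun hh => hh.2 hxy
    · intro i hi
      rw [Finset.mem_filter] at hi
      obtain ⟨j, harcj, hrj⟩ := hall (E i) (hEm i) hi.2
      have hne' : r j ≠ E i := const_gate_false h (hEm i) (d _ (hEm i)) hns hx hy hi.2 harcj
      rcases (harc i _ j).1 harcj with ⟨-, rfl⟩ | ⟨-, rfl⟩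
      · left
        rw [← ha] at hrj hne'
        exact ⟨by rw [Finset.mem_filter]; exact ⟨Finset.mem_univ _, hrj⟩, fun hh => hne' (by rw [hh])⟩
      · right
        rw [← hb] at hrj hne'
        exact ⟨by rw [Finset.mem_filter]; exact ⟨Finset.mem_univ _, hrj⟩, fun hh => hne' (by rw [hh])⟩
  obtain ⟨q, q0, q1, q2, q3⟩ := root4 a b P1 P2 P3
  have hq : ∀ i j : Fin 4, i ≠ j → E (q i) ≠ E (q j) := fun i j hij hh => hij (q.injective (hEi hh))
  refine ⟨E (q 0), E (q 1), E (q 2), E (q 3), hq _ _ (by decide), hq _ _ (by decide), hq _ _ (by decide),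
    hq _ _ (by decide), hq _ _ (by decide), hq _ _ (by decide), ?_, mkInp _ _ _ q0, mkInp _ _ _ q1,
    mkInp _ _ _ q2, mkInp _ _ _ q3⟩
  ext g
  simp only [Finset.mem_insert, Finset.mem_singleton]
  constructor
  · intro hg
    obtain ⟨i, rfl⟩ := hEs g hg
    have h4 : ∀ i : Fin 4, i = 0 ∨ i = 1 ∨ i = 2 ∨ i = 3 := by decide
    have hi : i = q (q.symm i) := (Equiv.apply_symm_apply q i).symm
    rcases h4 (q.symm i) with e | e | e | e <;> rw [e] at hi <;> rw [hi] <;> simp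
  · rintro (rfl | rfl | rfl | rfl) <;> exact hEm _

end NSA
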