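import Pool.Agent.NSA.Defs
import Pool.Agent.NSA.SW
import Pool.Agent.NSA.FD1
import Pool.Agent.NSA.NF1
import Pool.Agent.NSA.NF2
import Pool.Agent.NSA.CP
import Pool.Agent.NSA.G2
import Pool.Agent.NSA.CG
import Pool.Agent.NSA.RC2

set_option autoImplicit false

/-!
[NSA-SG] signs in the exceptional topology.
`omega_signs`: topology `Inp f r g1 g1 g3`, `Inp f r g2 g2 g4`, `Inp f r g3 g4 g1`, `Inp f r g4 g3 g2` (`Inp`: exactly two in-arcs with these roots).
Let `σ11, σ13, σ22, σ24, σ34, σ31, σ43, σ42` be the signs.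
(a) `σ11 = false`: suppose `true`.  `const_gate`: `g1` is constant on `A` and on `B`, with the same value (`exists_agree`).  `cp_root` at `g4`: `x, y` equal at `g4`, and at `g1`.  They differ at a
gate: if at `g3`: its in-arcs have the roots `g4`, `g1`, where `x, y` agree, contradiction.  So they differ at `g2`: its in-arc has root `g2` or `g4`, `g4` is impossible, `g2` is
impossible by `const_gate_false`.  In the same way `σ22 = false` (exchange `1,2` and `3,4`).
(b) `σ13 = σ31`: `cp_root` at `g4`: `x g4 = y g4`.  If `x, y` differ at `g2`: in-arc with root `g4` impossible, root `g2` impossible (`const_gate_false`).  So they do not differ at `g2`; they differ at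
`g1` or `g3`.  If at `g3`: in-arc with root `g1` (not `g4`), sign `σ31 = (x g1 == x g3)`, and `x, y` differ at `g1`; if at `g1`: in-arc with root `g3` (`g1` impossible by
`const_gate_false`), sign `σ13 = (x g3 == x g1)`, and they differ at `g3`.  So they differ at both and `σ13 = σ31`.  In the same way `σ24 = σ42` (`cp_root` at `g3`).
-/


open Relation NSep

namespace NSA

variable {n : ℕ} {f : Cfg n → Cfg n} {G : Finset (Fin n)} {p r : Fin n → Fin n}

/-- one half of `omega_signs` -/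
theorem omega_signs_half (h : NF f G p r) {g1 g2 g3 g4 : Fin n} (hG : G = {g1, g2, g3, g4})
    (h14 : g1 ≠ g4) (h34 : g3 ≠ g4) (h13 : g1 ≠ g3)
    (d : ∀ g ∈ G, indeg f g = 2) {A B : Set (Cfg n)} (hns : NSPair f A B)
    (i1 : Inp f r g1 g1 g3) (i2 : Inp f r g2 g2 g4) (i3 : Inp f r g3 g4 g1) :
    (∀ s j, Arc f s j g1 → r j = g1 → s = false) ∧
    (∀ s j s' j', Arc f s j g1 → r j = g3 → Arc f s' j' g3 → r j' = g1 → s = s') := by
  have m1 : g1 ∈ G := by rw [hG]; simp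
  have m2 : g2 ∈ G := by rw [hG]; simp
  have m3 : g3 ∈ G := by rw [hG]; simp
  -- roots of the in-arcs
  have root1 : ∀ t i, Arc f t i g1 → r i = g1 ∨ r i = g3 := by
    obtain ⟨j, j', s, s', _, hj, hj', H⟩ := i1
    intro t i ha
    rcases (H t i).1 ha with ⟨_, rfl⟩ | ⟨_, rfl⟩
    · exact Or.inl hj
    · exact Or.inr hj'
  have root2 : ∀ t i, Arc f t i g2 → r i = g2 ∨ r i = g4 := by
    obtain ⟨j, j', s, s', _, hj, hj', H⟩ := i2
    intro t i ha
    rcases (H t i).1 ha with ⟨_, rfl⟩ | ⟨_, rfl⟩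
    · exact Or.inl hj
    · exact Or.inr hj'
  have root3 : ∀ t i, Arc f t i g3 → r i = g4 ∨ r i = g1 := by
    obtain ⟨j, j', s, s', _, hj, hj', H⟩ := i3
    intro t i ha
    rcases (H t i).1 ha with ⟨_, rfl⟩ | ⟨_, rfl⟩
    · exact Or.inl hj
    · exact Or.inr hj'
  have uniq1 : ∀ t i t' i', Arc f t i g1 → r i = g3 → Arc f t' i' g1 → r i' = g3 → t = t' := by
    obtain ⟨j, j', s, s', _, hj, hj', H⟩ := i1
    intro t i t' i' ha hr ha' hr'
    rcases (H t i).1 ha with ⟨e1, e2⟩ | ⟨e1, e2⟩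
    · exact absurd (by rw [← hr, e2, hj]) h13
    · rcases (H t' i').1 ha' with ⟨e1', e2'⟩ | ⟨e1', e2'⟩
      · exact absurd (by rw [← hr', e2', hj]) h13
      · rw [e1, e1']
  have uniq3 : ∀ t i t' i', Arc f t i g3 → r i = g1 → Arc f t' i' g3 → r i' = g1 → t = t' := by
    obtain ⟨j, j', s, s', _, hj, hj', H⟩ := i3
    intro t i t' i' ha hr ha' hr'
    rcases (H t i).1 ha with ⟨e1, e2⟩ | ⟨e1, e2⟩
    · exact absurd (by rw [← hr, e2, hj]) h14
    · rcases (H t' i').1 ha' with ⟨e1', e2'⟩ | ⟨e1', e2'⟩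
      · exact absurd (by rw [← hr', e2', hj]) h14
      · rw [e1, e1']
  obtain ⟨x, hx, y, hy, hxy4, ⟨k, hk, hkne⟩, hall⟩ := cp_root h hns g4
  have no2 : x g2 = y g2 := by
    by_contra hne
    obtain ⟨j, ha, hj⟩ := hall g2 m2 hne
    rcases root2 _ _ ha with e | e
    · exact const_gate_false h m2 (d g2 m2) hns hx hy hne ha e
    · rw [e] at hj; exact hj hxy4
  have st3 : x g3 ≠ y g3 → x g1 ≠ y g1 ∧ ∃ j, Arc f (x g1 == x g3) j g3 ∧ r j = g1 := by
    intro hne
    obtain ⟨j, ha, hj⟩ := hall g3 m3 hne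
    rcases root3 _ _ ha with e | e
    · rw [e] at hj; exact absurd hxy4 hj
    · rw [e] at hj ha; exact ⟨hj, j, ha, e⟩
  have st1 : x g1 ≠ y g1 → x g3 ≠ y g3 ∧ ∃ j, Arc f (x g3 == x g1) j g1 ∧ r j = g3 := by
    intro hne
    obtain ⟨j, ha, hj⟩ := hall g1 m1 hne
    rcases root1 _ _ ha with e | e
    · exact absurd e (const_gate_false h m1 (d g1 m1) hns hx hy hne ha)
    · rw [e] at hj ha; exact ⟨hj, j, ha, e⟩
  have hdiff : x g1 ≠ y g1 ∧ x g3 ≠ y g3 := by
    rw [hG] at hk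
    simp only [Finset.mem_insert, Finset.mem_singleton] at hk
    rcases hk with e | e | e | e
    · rw [e] at hkne; exact ⟨hkne, (st1 hkne).1⟩
    · rw [e] at hkne; exact absurd no2 hkne
    · rw [e] at hkne; exact ⟨(st3 hkne).1, hkne⟩
    · rw [e] at hkne; exact absurd hxy4 hkne
  constructor
  · intro s j ha hj
    by_contra hs
    have hs' : s = true := by simpa using hs
    subst hs'
    obtain ⟨c, hc⟩ := const_gate h m1 (d g1 m1) ha hj hns.hA
    obtain ⟨c', hc'⟩ := const_gate h m1 (d g1 m1) ha hj hns.hB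
    obtain ⟨u, hu, v, hv, huv⟩ := exists_agree hns g1
    apply hdiff.1
    rw [hc x hx, hc' y hy, ← hc u hu, ← hc' v hv, huv]
  · intro s j s' j' ha hj ha' hj'
    obtain ⟨j1, hj1, hr1⟩ := (st1 hdiff.1).2
    obtain ⟨j3, hj3, hr3⟩ := (st3 hdiff.2).2
    rw [uniq1 s j _ j1 ha hj hj1 hr1, uniq3 s' j' _ j3 ha' hj' hj3 hr3]
    exact Bool.beq_comm

theorem omega_signs (h : NF f G p r) {g1 g2 g3 g4 : Fin n} (hG : G = {g1, g2, g3, g4}) (h12 : g1 ≠ g2)
    (h13 : g1 ≠ g3) (h14 : g1 ≠ g4) (h23 : g2 ≠ g3) (h24 : g2 ≠ g4) (h34 : g3 ≠ g4)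
    (d : ∀ g ∈ G, indeg f g = 2) {A B : Set (Cfg n)} (hns : NSPair f A B)
    (i1 : Inp f r g1 g1 g3) (i2 : Inp f r g2 g2 g4) (i3 : Inp f r g3 g4 g1) (i4 : Inp f r g4 g3 g2) :
    (∀ s j, Arc f s j g1 → r j = g1 → s = false) ∧
    (∀ s j, Arc f s j g2 → r j = g2 → s = false) ∧
    (∀ s j s' j', Arc f s j g1 → r j = g3 → Arc f s' j' g3 → r j' = g1 → s = s') ∧
    (∀ s j s' j', Arc f s j g2 → r j = g4 → Arc f s' j' g4 → r j' = g2 → s = s') := by
  obtain ⟨a1, b1⟩ := omega_signs_half h hG h14 h34 h13 d hns i1 i2 i3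
  obtain ⟨a2, b2⟩ := omega_signs_half (g1 := g2) (g2 := g1) (g3 := g4) (g4 := g3) h
    (by rw [hG]; ext k; simp only [Finset.mem_insert, Finset.mem_singleton]; tauto)
    h23 h34.symm h24 d hns i2 i1 i4
  exact ⟨a1, a2, b1, b2⟩

end NSA
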