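import Pool.Agent.NSA.Defs
import Pool.Agent.NSA.SW
import Pool.Agent.NSA.FD1
import Pool.Agent.NSA.NF1
import Pool.Agent.NSA.NF2
import Pool.Agent.NSA.CP
import Pool.Agent.NSA.G2
import Pool.Agent.NSA.CG
import Pool.Agent.NSA.RC2
import Pool.Agent.NSA.OM
import Pool.Agent.NSA.SG
import Pool.Agent.NSA.OF

set_option autoImplicit false

/-!
[NSA-C4B] four gates, no two meeting all cycles.
`root_omega` gives the gates `g1, g2, g3, g4` and the inputs with their roots; `omega_signs` the signs: the self-inputs of `g1`, `g2` are negative, the signs of `g3 → g1` and `g1 → g3` are equal (`σ13`), those of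
`g4 → g2` and `g2 → g4` are equal (`σ24`).  `gate2` for the four gates: the in-arcs are the same two as in `Inp` (up to order; compare the two descriptions of `Arc f _ _ g`), so
`f x g1 = (x j11 == false) o1 (x j13 == σ13)` etc. in the form needed by `omega_final`.  (A small lemma `form_of_inp`: `Inp`-data `j, j', s, s'` of `g` and `indeg f g = 2` give
`∃ op, ∀ x, f x g = if op then (x j == s) || (x j' == s') else (x j == s) && (x j' == s')`.)
-/


open Relation NSep

namespace NSA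

variable {n : ℕ} {f : Cfg n → Cfg n} {G : Finset (Fin n)} {p r : Fin n → Fin n}

/-- the form of a gate with two in-arcs with the given roots -/
theorem form_of_inp {g c d : Fin n} (h2 : indeg f g = 2) (hi : Inp f r g c d) :
    ∃ (j j' : Fin n) (s s' op : Bool), r j = c ∧ r j' = d ∧ Arc f s j g ∧ Arc f s' j' g ∧
      ∀ x, f x g = if op then (x j == s) || (x j' == s') else (x j == s) && (x j' == s') := by
  obtain ⟨j, j', s, s', hne, hj, hj', H⟩ := hi
  obtain ⟨j1, j2, s1, s2, op, _, H', hf⟩ := gate2 h2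
  have a1 : Arc f s j g := (H s j).2 (Or.inl ⟨rfl, rfl⟩)
  have a2 : Arc f s' j' g := (H s' j').2 (Or.inr ⟨rfl, rfl⟩)
  rcases (H' s j).1 a1 with ⟨e1, e2⟩ | ⟨e1, e2⟩
  · rcases (H' s' j').1 a2 with ⟨e3, e4⟩ | ⟨e3, e4⟩
    · exact absurd (e2.trans e4.symm) hne
    · refine ⟨j, j', s, s', op, hj, hj', a1, a2, ?_⟩
      intro x
      rw [hf x, e1, e2, e3, e4]
  · rcases (H' s' j').1 a2 with ⟨e3, e4⟩ | ⟨e3, e4⟩
    · refine ⟨j, j', s, s', op, hj, hj', a1, a2, ?_⟩
      intro x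
      rw [hf x, e1, e2, e3, e4, Bool.or_comm, Bool.and_comm]
    · exact absurd (e2.trans e4.symm) hne

theorem case4B (h : NF f G p r) (hG : G.card = 4) (d : ∀ g ∈ G, indeg f g = 2) {A B : Set (Cfg n)}
    (hns : NSPair f A B) (hno : ∀ u ∈ G, ∀ w ∈ G, u ≠ w → ¬ Feed f {u, w}) : False := by
  obtain ⟨g1, g2, g3, g4, h12, h13, h14, h23, h24, h34, hG', i1, i2, i3, i4⟩ := root_omega h hG d hns hno
  obtain ⟨a1, a2, b1, b2⟩ := omega_signs h hG' h12 h13 h14 h23 h24 h34 d hns i1 i2 i3 i4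
  have m1 : g1 ∈ G := by rw [hG']; simp
  have m2 : g2 ∈ G := by rw [hG']; simp
  have m3 : g3 ∈ G := by rw [hG']; simp
  have m4 : g4 ∈ G := by rw [hG']; simp
  obtain ⟨j11, j13, s11, s13, o1, r11, r13, c11, c13, f1⟩ := form_of_inp (d g1 m1) i1
  obtain ⟨j22, j24, s22, s24, o2, r22, r24, c22, c24, f2⟩ := form_of_inp (d g2 m2) i2
  obtain ⟨j34, j31, s34, s31, o3, r34, r31, c34, c31, f3⟩ := form_of_inp (d g3 m3) i3
  obtain ⟨j43, j42, s43, s42, o4, r43, r42, c43, c42, f4⟩ := form_of_inp (d g4 m4) i4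
  obtain rfl := a1 _ _ c11 r11
  obtain rfl := a2 _ _ c22 r22
  obtain rfl := b1 _ _ _ _ c13 r13 c31 r31
  obtain rfl := b2 _ _ _ _ c24 r24 c42 r42
  exact omega_final h hG' h12 h13 h14 h23 h24 h34 r11 r13 r22 r24 r34 r31 r43 r42 s13 s24 s34 s43 o1 o2 o3 o4
    f1 f2 f3 f4 hns

end NSA
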