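import Pool.Agent.NSA.Defs

set_option autoImplicit false

/-!
The number of elementary cycles of a strongly connected signed digraph is at least `m - n + 1`.
-/

open Relation NSep

namespace NSA

variable {n : ℕ}

/-- the arcs `(sign, source, target)` of `G(f)` -/
noncomputable def arcSet (f : Cfg n → Cfg n) : Finset (Bool × Fin n × Fin n) := by
  classical exact Finset.univ.filter (fun t : Bool × Fin n × Fin n => Arc f t.1 t.2.1 t.2.2)

/-- `S` is the arc set of an elementary directed cycle of `G(f)` (loops included) -/
def IsCycle (f : Cfg n → Cfg n) (S : Finset (Bool × Fin n × Fin n)) : Prop :=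
  ∃ (m : ℕ) (c : Fin (m + 1) → Fin n) (s : Fin (m + 1) → Bool), Function.Injective c ∧
    (∀ t, Arc f (s t) (c t) (c (t + 1))) ∧ S = Finset.univ.image (fun t => (s t, c t, c (t + 1)))

theorem mem_arcSet {f : Cfg n → Cfg n} {t : Bool × Fin n × Fin n} : t ∈ arcSet f ↔ Arc f t.1 t.2.1 t.2.2 := by
  classical
  simp [arcSet]

/-- a walk of length `L`: vertices `c 0, ..., c L`, arcs `a k` from `c k` to `c (k + 1)` -/
def IsWalk (f : Cfg n → Cfg n) (L : ℕ) (c : ℕ → Fin n) (s : ℕ → Bool) : Prop :=
  ∀ k < L, Arc f (s k) (c k) (c (k + 1))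

theorem cycle_sum {f : Cfg n → Cfg n} {φ : Bool × Fin n × Fin n → ℚ}
    (h : ∀ S, IsCycle f S → ∑ e ∈ S, φ e = 0) : ∀ (L : ℕ) (c : ℕ → Fin n) (s : ℕ → Bool), IsWalk f L c s → c 0 = c L →
      ∑ k ∈ Finset.range L, φ (s k, c k, c (k + 1)) = 0 := by
  intro L
  induction L using Nat.strong_induction_on with
  | _ L ih =>
    intro c s hw hc
    by_cases hinj : ∀ i j, i < j → j < L → c i ≠ c j
    · rcases L with _ | m
      · simp
      · -- an elementary cycle
        have hci : Function.Injective (fun t : Fin (m + 1) => c t) := by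
          intro a b hab
          have hab' : c a = c b := hab
          by_contra hne
          have hne' : (a : ℕ) ≠ b := fun e => hne (Fin.ext e)
          rcases Nat.lt_or_gt_of_ne hne' with h1 | h1
          · exact hinj a b h1 b.isLt hab'
          · exact hinj b a h1 a.isLt hab'.symm
        have hnext : ∀ t : Fin (m + 1), c ((t + 1 : Fin (m + 1)) : ℕ) = c ((t : ℕ) + 1) := by
          intro t
          by_cases ht : (t : ℕ) = m
          · have h1 : ((t + 1 : Fin (m + 1)) : ℕ) = 0 := by
              rw [Fin.val_add_one]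
              have : t = Fin.last m := Fin.ext ht
              simp [this]
            rw [h1, ht, hc]
          · have h1 : ((t + 1 : Fin (m + 1)) : ℕ) = (t : ℕ) + 1 := by
              rw [Fin.val_add_one]
              have : t ≠ Fin.last m := fun e => ht (by rw [e]; rfl)
              simp [this]
            rw [h1]
        have h1 := h (Finset.univ.image (fun t : Fin (m + 1) => (s t, c t, c ((t + 1 : Fin (m + 1)) : ℕ))))
          ⟨m, fun t => c t, fun t => s t, hci, fun t => by
            show Arc f (s t) (c t) (c ((t + 1 : Fin (m + 1)) : ℕ))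
            rw [hnext t]
            exact hw t t.isLt, rfl⟩
        rw [Finset.sum_image] at h1
        · rw [Finset.sum_range]
          rw [← h1]
          refine Finset.sum_congr rfl fun t _ => ?_
          rw [hnext t]
        · intro a _ b _ hab
          have : c a = c b := congrArg (fun e : Bool × Fin n × Fin n => e.2.1) hab
          exact hci this
    · push Not at hinj
      obtain ⟨i, j, hij, hjL, hcc⟩ := hinj
      -- first closed walk: from i to j
      have h1 := ih (j - i) (by omega) (fun k => c (i + k)) (fun k => s (i + k))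
        (fun k hk => hw (i + k) (by omega)) (by
          show c (i + 0) = c (i + (j - i))
          rw [Nat.add_zero, hcc]
          congr 1
          omega)
      -- second closed walk: skip the part from i to j
      have h2 := ih (L - (j - i)) (by omega) (fun k => if k ≤ i then c k else c (k + (j - i)))
        (fun k => if k < i then s k else s (k + (j - i))) (by
          intro k hk
          show Arc f (if k < i then s k else s (k + (j - i))) (if k ≤ i then c k else c (k + (j - i)))
            (if k + 1 ≤ i then c (k + 1) else c (k + 1 + (j - i)))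
          by_cases hk1 : k < i
          · rw [if_pos hk1, if_pos (by omega), if_pos (by omega)]
            exact hw k (by omega)
          · rw [if_neg hk1, if_neg (show ¬ (k + 1 ≤ i) by omega)]
            have h3 : (if k ≤ i then c k else c (k + (j - i))) = c (k + (j - i)) := by
              by_cases hk2 : k ≤ i
              · have hki : k = i := by omega
                rw [if_pos hk2, hki, hcc]
                congr 1
                omega
              · rw [if_neg hk2]
            rw [h3]
            have h4 := hw (k + (j - i)) (by omega)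
            have h5 : k + (j - i) + 1 = k + 1 + (j - i) := by omega
            rw [h5] at h4
            exact h4) (by
          show (if 0 ≤ i then c 0 else c (0 + (j - i))) =
            (if L - (j - i) ≤ i then c (L - (j - i)) else c (L - (j - i) + (j - i)))
          rw [if_pos (Nat.zero_le _), if_neg (by omega), hc]
          congr 1
          omega)
      have hsplit : ∑ k ∈ Finset.range L, φ (s k, c k, c (k + 1)) =
          ∑ k ∈ Finset.range i, φ (s k, c k, c (k + 1)) + (∑ k ∈ Finset.range (j - i), φ (s (i + k), c (i + k), c (i + k + 1))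
          + ∑ k ∈ Finset.range (L - j), φ (s (j + k), c (j + k), c (j + k + 1))) := by
        have e1 : L = i + ((j - i) + (L - j)) := by omega
        conv_lhs => rw [e1]
        rw [Finset.sum_range_add, Finset.sum_range_add]
        congr 2
        refine Finset.sum_congr rfl fun k _ => ?_
        have e2 : i + (j - i + k) = j + k := by omega
        rw [e2]
      have h2' : ∑ k ∈ Finset.range i, φ (s k, c k, c (k + 1)) +
          ∑ k ∈ Finset.range (L - j), φ (s (j + k), c (j + k), c (j + k + 1)) = 0 := by
        have e1 : L - (j - i) = i + (L - j) := by omega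
        rw [e1, Finset.sum_range_add] at h2
        rw [← h2]
        congr 1
        · refine Finset.sum_congr rfl fun k hk => ?_
          have hk' := Finset.mem_range.1 hk
          rw [if_pos hk', if_pos (by omega), if_pos (by omega)]
        · refine Finset.sum_congr rfl fun k hk => ?_
          have hk' := Finset.mem_range.1 hk
          rw [if_neg (by omega), if_neg (show ¬ (i + k + 1 ≤ i) by omega)]
          have e2 : i + k + (j - i) = j + k := by omega
          have e3 : i + k + 1 + (j - i) = j + k + 1 := by omega
          rw [e2, e3]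
          by_cases hk2 : i + k ≤ i
          · have hk0 : k = 0 := by omega
            rw [if_pos hk2, hk0]
            simp only [Nat.add_zero]
            rw [hcc]
          · rw [if_neg hk2]
      rw [hsplit]
      have h1' : ∑ k ∈ Finset.range (j - i), φ (s (i + k), c (i + k), c (i + k + 1)) = 0 := by
        rw [← h1]
        refine Finset.sum_congr rfl fun k _ => ?_
        rfl
      linarith

/-- a path gives a walk -/
theorem walk_of_path {f : Cfg n → Cfg n} {u v : Fin n} (h : Path f u v) :
    ∃ (L : ℕ) (c : ℕ → Fin n) (s : ℕ → Bool), IsWalk f L c s ∧ c 0 = u ∧ c L = v := by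
  unfold NSep.Path at h
  induction h with
  | refl => exact ⟨0, fun _ => u, fun _ => true, fun k hk => absurd hk (Nat.not_lt_zero k), rfl, rfl⟩
  | @tail b w _ h2 ih =>
    obtain ⟨L, c, s, hw, h0, hL⟩ := ih
    obtain ⟨t, ht⟩ := h2
    refine ⟨L + 1, fun k => if k ≤ L then c k else w, fun k => if k < L then s k else t, ?_, ?_, ?_⟩
    · intro k hk
      show Arc f (if k < L then s k else t) (if k ≤ L then c k else w) (if k + 1 ≤ L then c (k + 1) else w)
      by_cases h1 : k < L
      · rw [if_pos h1, if_pos (by omega), if_pos (by omega)]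
        exact hw k h1
      · have hkL : k = L := by omega
        rw [if_neg h1, if_pos (by omega), if_neg (by omega), hkL, hL]
        exact ht
    · show (if 0 ≤ L then c 0 else w) = u
      rw [if_pos (Nat.zero_le _), h0]
    · show (if L + 1 ≤ L then c (L + 1) else w) = w
      rw [if_neg (by omega)]

/-- the sum of `φ` along a walk -/
noncomputable def wsum (φ : Bool × Fin n × Fin n → ℚ) (L : ℕ) (c : ℕ → Fin n) (s : ℕ → Bool) : ℚ :=
  ∑ k ∈ Finset.range L, φ (s k, c k, c (k + 1))

theorem walk_append {f : Cfg n → Cfg n} (φ : Bool × Fin n × Fin n → ℚ) {L L' : ℕ} {c c' : ℕ → Fin n} {s s' : ℕ → Bool}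
    (h : IsWalk f L c s) (h' : IsWalk f L' c' s') (he : c L = c' 0) :
    ∃ (c'' : ℕ → Fin n) (s'' : ℕ → Bool), IsWalk f (L + L') c'' s'' ∧ c'' 0 = c 0 ∧ c'' (L + L') = c' L' ∧
      wsum φ (L + L') c'' s'' = wsum φ L c s + wsum φ L' c' s' := by
  refine ⟨fun k => if k < L then c k else c' (k - L), fun k => if k < L then s k else s' (k - L), ?_, ?_, ?_, ?_⟩
  · intro k hk
    show Arc f (if k < L then s k else s' (k - L)) (if k < L then c k else c' (k - L))
      (if k + 1 < L then c (k + 1) else c' (k + 1 - L))
    by_cases h1 : k < L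
    · rw [if_pos h1, if_pos h1]
      by_cases h2 : k + 1 < L
      · rw [if_pos h2]
        exact h k h1
      · have h3 : k + 1 = L := by omega
        rw [if_neg h2, h3, Nat.sub_self, ← he, ← h3]
        exact h k h1
    · rw [if_neg h1, if_neg h1, if_neg (by omega)]
      have h3 := h' (k - L) (by omega)
      have h4 : k - L + 1 = k + 1 - L := by omega
      rw [h4] at h3
      exact h3
  · show (if 0 < L then c 0 else c' (0 - L)) = c 0
    by_cases h1 : 0 < L
    · rw [if_pos h1]
    · have h2 : L = 0 := by omega
      rw [if_neg h1, h2, Nat.sub_self, ← he, h2]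
  · show (if L + L' < L then c (L + L') else c' (L + L' - L)) = c' L'
    rw [if_neg (by omega)]
    congr 1
    omega
  · unfold wsum
    rw [Finset.sum_range_add]
    congr 1
    · refine Finset.sum_congr rfl fun k hk => ?_
      have hk' := Finset.mem_range.1 hk
      show φ (if k < L then s k else s' (k - L), if k < L then c k else c' (k - L),
        if k + 1 < L then c (k + 1) else c' (k + 1 - L)) = _
      rw [if_pos hk', if_pos hk']
      by_cases h2 : k + 1 < L
      · rw [if_pos h2]
      · have h3 : k + 1 = L := by omega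
        rw [if_neg h2, h3, Nat.sub_self, he]
    · refine Finset.sum_congr rfl fun k hk => ?_
      show φ (if L + k < L then s (L + k) else s' (L + k - L), if L + k < L then c (L + k) else c' (L + k - L),
        if L + k + 1 < L then c (L + k + 1) else c' (L + k + 1 - L)) = _
      rw [if_neg (by omega), if_neg (by omega), if_neg (by omega)]
      have e1 : L + k - L = k := by omega
      have e2 : L + k + 1 - L = k + 1 := by omega
      rw [e1, e2]

/-- a weighting of the arcs with sum zero on all cycles is a potential difference -/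
theorem potential {f : Cfg n → Cfg n} (hc : StrConn f) (r : Fin n) {φ : Bool × Fin n × Fin n → ℚ}
    (h : ∀ S, IsCycle f S → ∑ e ∈ S, φ e = 0) :
    ∃ π : Fin n → ℚ, ∀ s j i, Arc f s j i → φ (s, j, i) = π i - π j := by
  have hex : ∀ v, ∃ q, ∃ (L : ℕ) (c : ℕ → Fin n) (s : ℕ → Bool), IsWalk f L c s ∧ c 0 = r ∧ c L = v ∧ wsum φ L c s = q := by
    intro v
    obtain ⟨L, c, s, h1, h2, h3⟩ := walk_of_path (hc r v)
    exact ⟨_, L, c, s, h1, h2, h3, rfl⟩
  choose π hπ using hex
  refine ⟨π, fun s j i ha => ?_⟩
  obtain ⟨L1, c1, s1, w1, a1, b1, q1⟩ := hπ j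
  obtain ⟨L2, c2, s2, w2, a2, b2, q2⟩ := hπ i
  obtain ⟨L3, c3, s3, w3, a3, b3⟩ := walk_of_path (hc i r)
  -- walk r → j → i
  have w0 : IsWalk f 1 (fun k => if k = 0 then j else i) (fun _ => s) := by
    intro k hk
    have hk0 : k = 0 := by omega
    subst hk0
    exact ha
  obtain ⟨c4, s4, w4, a4, b4, q4⟩ := walk_append φ w1 w0 (by rw [b1]; rfl)
  have hb4 : c4 (L1 + 1) = i := by rw [b4]; rfl
  obtain ⟨c5, s5, w5, a5, b5, q5⟩ := walk_append φ w4 w3 (by rw [hb4, a3])
  obtain ⟨c6, s6, w6, a6, b6, q6⟩ := walk_append φ w2 w3 (by rw [b2, a3])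
  have h5 := cycle_sum h _ _ _ w5 (by rw [a5, b5, a4, a1, b3])
  have h6 := cycle_sum h _ _ _ w6 (by rw [a6, b6, a2, b3])
  have h5' : wsum φ (L1 + 1 + L3) c5 s5 = 0 := h5
  have h6' : wsum φ (L2 + L3) c6 s6 = 0 := h6
  have q0 : wsum φ 1 (fun k => if k = 0 then j else i) (fun _ => s) = φ (s, j, i) := by
    simp [wsum]
  rw [q5, q4, q0, q1] at h5'
  rw [q6, q2] at h6'
  linarith

theorem cycles_finite (f : Cfg n → Cfg n) : {S | IsCycle f S}.Finite := Set.toFinite _

/-- the number of elementary cycles of a strongly connected signed digraph is at least `m - n + 1` -/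
theorem cycle_count {f : Cfg n → Cfg n} (hc : StrConn f) (hn : 0 < n) :
    (arcSet f).card + 1 ≤ n + {S | IsCycle f S}.ncard := by
  classical
  let E := {e // e ∈ arcSet f}
  let C := {S // S ∈ (cycles_finite f).toFinset}
  have hCcard : Fintype.card C = {S | IsCycle f S}.ncard := by
    rw [Set.ncard_eq_toFinset_card _ (cycles_finite f)]
    exact Fintype.card_coe _
  have hEcard : Fintype.card E = (arcSet f).card := Fintype.card_coe _
  -- extension by zero
  let ext : (E → ℚ) → (Bool × Fin n × Fin n → ℚ) := fun φ e => if he : e ∈ arcSet f then φ ⟨e, he⟩ else 0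
  let Φ : (E → ℚ) →ₗ[ℚ] (C → ℚ) :=
    { toFun := fun φ S => ∑ e ∈ S.1, ext φ e
      map_add' := by
        intro φ ψ
        funext S
        show ∑ e ∈ S.1, ext (φ + ψ) e = ∑ e ∈ S.1, ext φ e + ∑ e ∈ S.1, ext ψ e
        rw [← Finset.sum_add_distrib]
        refine Finset.sum_congr rfl fun e _ => ?_
        by_cases he : e ∈ arcSet f
        · simp only [ext, dif_pos he]; rfl
        · simp only [ext, dif_neg he]; ring
      map_smul' := by
        intro a φ
        funext S
        show ∑ e ∈ S.1, ext (a • φ) e = a * ∑ e ∈ S.1, ext φ e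
        rw [Finset.mul_sum]
        refine Finset.sum_congr rfl fun e _ => ?_
        by_cases he : e ∈ arcSet f
        · simp only [ext, dif_pos he]; rfl
        · simp only [ext, dif_neg he]; ring }
  let δ : (Fin n → ℚ) →ₗ[ℚ] (E → ℚ) :=
    { toFun := fun π e => π e.1.2.2 - π e.1.2.1
      map_add' := by
        intro φ ψ
        funext e
        show (φ + ψ) e.1.2.2 - (φ + ψ) e.1.2.1 = (φ e.1.2.2 - φ e.1.2.1) + (ψ e.1.2.2 - ψ e.1.2.1)
        simp only [Pi.add_apply]; ring
      map_smul' := by
        intro a φ
        funext e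
        show (a • φ) e.1.2.2 - (a • φ) e.1.2.1 = a * (φ e.1.2.2 - φ e.1.2.1)
        simp only [Pi.smul_apply, smul_eq_mul]; ring }
  have hker : LinearMap.ker Φ ≤ LinearMap.range δ := by
    intro φ hφ
    rw [LinearMap.mem_ker] at hφ
    have hz : ∀ S, IsCycle f S → ∑ e ∈ S, ext φ e = 0 := by
      intro S hS
      exact congrFun hφ ⟨S, by simpa using hS⟩
    obtain ⟨π, hπ⟩ := potential hc ⟨0, hn⟩ hz
    refine ⟨π, ?_⟩
    funext e
    have h1 := hπ e.1.1 e.1.2.1 e.1.2.2 (mem_arcSet.1 e.2)
    show π e.1.2.2 - π e.1.2.1 = φ e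
    rw [← h1]
    show ext φ e.1 = φ e
    simp only [ext, dif_pos e.2]
    rfl
  have h1 : Module.finrank ℚ (LinearMap.range Φ) + Module.finrank ℚ (LinearMap.ker Φ) = Module.finrank ℚ (E → ℚ) :=
    LinearMap.finrank_range_add_finrank_ker Φ
  have h2 : Module.finrank ℚ (LinearMap.range Φ) ≤ Module.finrank ℚ (C → ℚ) := Submodule.finrank_le _
  have h3 : Module.finrank ℚ (LinearMap.ker Φ) ≤ Module.finrank ℚ (LinearMap.range δ) := Submodule.finrank_mono hker
  have h4 : Module.finrank ℚ (LinearMap.range δ) + Module.finrank ℚ (LinearMap.ker δ) = Module.finrank ℚ (Fin n → ℚ) :=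
    LinearMap.finrank_range_add_finrank_ker δ
  have h5 : 0 < Module.finrank ℚ (LinearMap.ker δ) := by
    have hm : (fun _ => (1 : ℚ)) ∈ LinearMap.ker δ := by
      rw [LinearMap.mem_ker]
      funext e
      show (1 : ℚ) - 1 = 0
      ring
    have hne : (⟨fun _ => (1 : ℚ), hm⟩ : LinearMap.ker δ) ≠ 0 := by
      intro h0
      have h6 : (fun _ => (1 : ℚ)) = (0 : Fin n → ℚ) := congrArg Subtype.val h0
      have h7 := congrFun h6 ⟨0, hn⟩
      exact absurd h7 one_ne_zero
    have : Nontrivial (LinearMap.ker δ) := ⟨⟨_, _, hne⟩⟩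
    exact Module.finrank_pos
  rw [Module.finrank_fintype_fun_eq_card] at h1 h2 h4
  rw [Fintype.card_fin] at h4
  rw [hEcard] at h1
  rw [hCcard] at h2
  omega

end NSA
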