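import Pool.Agent.MP_d0ff89_co.Final

set_option autoImplicit false

/-!
# The arc bound for non-separating strongly connected signed digraphs: definitions
-/

open Relation NSep

namespace NSA

variable {n : ℕ}

/-- the arcs entering `i`: pairs (sign, source) -/
noncomputable def inArcs (f : Cfg n → Cfg n) (i : Fin n) : Finset (Bool × Fin n) := by
  classical exact Finset.univ.filter (fun t => Arc f t.1 t.2 i)

/-- in-degree -/
noncomputable def indeg (f : Cfg n → Cfg n) (i : Fin n) : ℕ := (inArcs f i).card

/-- number of arcs of `G(f)` -/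
noncomputable def numArcs (f : Cfg n → Cfg n) : ℕ := by
  classical exact (Finset.univ.filter (fun t : Bool × Fin n × Fin n => Arc f t.1 t.2.1 t.2.2)).card

theorem mem_inArcs {f : Cfg n → Cfg n} {i : Fin n} {t : Bool × Fin n} : t ∈ inArcs f i ↔ Arc f t.1 t.2 i := by
  classical
  simp [inArcs]

/-- `G(f)` is strongly connected -/
def StrConn (f : Cfg n → Cfg n) : Prop := ∀ j i, Path f j i

/-- two distinct attractors that are not separated -/
structure NSPair (f : Cfg n → Cfg n) (A B : Set (Cfg n)) : Prop where
  hA : IsAttractor f A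
  hB : IsAttractor f B
  ne : A ≠ B
  hull : hull A ∩ hull B ≠ ∅

/-- `W` meets all cycles -/
def Feed (f : Cfg n → Cfg n) (W : Finset (Fin n)) : Prop :=
  ∀ D : Finset (Fin n), D.Nonempty → Disjoint D W → ∃ k ∈ D, ∀ j ∈ D, ∀ s, ¬ Arc f s j k

/-- the vertices of in-degree at least two -/
noncomputable def gates (f : Cfg n → Cfg n) : Finset (Fin n) := by
  classical exact Finset.univ.filter (fun i => 2 ≤ indeg f i)

theorem mem_gates {f : Cfg n → Cfg n} {i : Fin n} : i ∈ gates f ↔ 2 ≤ indeg f i := by
  classical
  simp [gates]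

/-- switching of a configuration -/
def xr (a x : Cfg n) : Cfg n := fun k => xor (a k) (x k)

/-- switching of a network -/
def sw (a : Cfg n) (f : Cfg n → Cfg n) : Cfg n → Cfg n := fun x => xr a (f (xr a x))

/-- switching of a set -/
def swS (a : Cfg n) (A : Set (Cfg n)) : Set (Cfg n) := {x | xr a x ∈ A}

/-- Normal form: `G` is the set of vertices of in-degree at least two; every other vertex `k` copies the
vertex `p k`; `r k ∈ G` is the gate that `k` copies in the end. -/
structure NF (f : Cfg n → Cfg n) (G : Finset (Fin n)) (p r : Fin n → Fin n) : Prop where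
  copy : ∀ k, k ∉ G → ∀ x, f x k = x (p k)
  mem : ∀ k, r k ∈ G
  gate : ∀ k ∈ G, r k = k
  step : ∀ k, k ∉ G → r k = r (p k)
  wf : ∃ rk : Fin n → ℕ, ∀ k, k ∉ G → rk (p k) < rk k
  big : ∀ g ∈ G, 2 ≤ indeg f g
  conn : ∀ S ⊆ G, S.Nonempty → S ≠ G → ∃ g ∈ S, ∃ j s, Arc f s j g ∧ r j ∉ S

/-- the settled configuration with the same gates: every vertex has the value of its gate -/
def flat (r : Fin n → Fin n) (x : Cfg n) : Cfg n := fun k => x (r k)

/-- The situation at two gates `u, w` meeting all cycles: `0` is a fixed point, `B` is another attractor, never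
`(0,0)` at `(u, w)`, and it contains the settled configurations with the three other values. -/
structure FixPair (f : Cfg n → Cfg n) (B : Set (Cfg n)) (u w : Fin n) : Prop where
  ne : u ≠ w
  fix : f (fun _ => false) = fun _ => false
  att : IsAttractor f B
  avoid : ∀ y ∈ B, ¬ (y u = false ∧ y w = false)
  visit : ∀ b c, ¬ (b = false ∧ c = false) → ∃ z ∈ B, z u = b ∧ z w = c ∧ ∀ k, k ≠ u → k ≠ w → f z k = z k

/-- The four kinds of a two-input gate `φ` with `φ(0,0) = 0`. -/
def ev : Fin 4 → Bool → Bool → Bool
  | 0, a, b => a || b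
  | 1, a, b => a && b
  | 2, a, b => a && !b
  | 3, a, b => !a && b

end NSA
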