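import Pool.Agent.NSA.Defs
import Pool.Agent.NSA.SW
import Pool.Agent.NSA.FD1

set_option autoImplicit false

/-!
[NSA-EX] existence of the normal form.
`enter`: if `D ≠ ∅`, `D ≠ univ`, there is an arc from outside `D` into `D`: take `j ∉ D`, `k ∈ D` and a path `j → ... → k` (`StrConn`); some arc of the path enters `D`
(induction on `ReflTransGen`).
`one_le_indeg`: `enter` with `D = {i}` (`2 ≤ n`, so `D ≠ univ`).
`sum_indeg`: `numArcs f = ∑ i, indeg f i`: `Finset.card_eq_sum_card_fiberwise` / `Finset.card_sigma` with the bijection `(s, j, i) ↔ (i, (s, j))`.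
`feed_of_indeg_one`: let `D` be nonempty, disjoint from `W`.  If every `k ∈ D` had an in-arc from `D`, then, in-degrees in `D` being at most `1`, all
in-arcs of vertices of `D` come from `D`, contradicting `enter` (`D ≠ univ` as `W` is nonempty and disjoint from `D`).
`exists_nf`: `G = gates f`; for `k ∉ G`: `indeg f k = 1`, let `(s k, p k)` be the in-arc.  `Feed f G` (`feed_of_indeg_one`), `settle` gives `a` with
`f a k = a k` for `k ∉ G`.  For `k ∉ G`: `f x k` depends only on `x (p k)` (`exists_arc'`), and not constant, so `f x k = (x (p k) == s k)` (from the witnesses of the arc);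
hence `sw a f x k = x (p k)`.  Rank and root: by strong induction on `D.card` for sets `D` disjoint from `G` (or: let `U` be the set of vertices for which `p^[t] k ∈ G`
for some `t`; if `D = Uᶜ` were nonempty, `Feed` gives `k ∈ D` with `p k ∉ D`, so `p^[t] (p k) ∈ G`, contradiction).  `rk k` = least `t` with `p^[t] k ∈ G`,
`r k = p^[rk k] k`; for `k ∉ G`: `rk k = rk (p k) + 1`.  `big`: `mem_gates`, `indeg_sw`.
`conn`: for `S ⊆ G`, `S ≠ ∅, G`, let `D = {k | r k ∈ S}`: not empty, not everything (a gate outside `S` is its own root); `enter` gives an arc `j → k`, `k ∈ D`,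
`j ∉ D`; if `k ∉ G` then `j = p k` and `r j = r k ∈ S`, contradiction; so `k ∈ G`, `k = r k ∈ S`, `r j ∉ S` (transport the arc with `arc_sw`).
-/

open Relation NSep

namespace NSA

variable {n : ℕ} {f : Cfg n → Cfg n}

theorem enter (hc : StrConn f) {D : Finset (Fin n)} (h1 : D.Nonempty) (h2 : D ≠ Finset.univ) :
    ∃ k ∈ D, ∃ j, j ∉ D ∧ ∃ s, Arc f s j k := by
  obtain ⟨k, hk⟩ := h1
  obtain ⟨j, hj⟩ : ∃ j, j ∉ D := by
    by_contra hcon
    push Not at hcon
    exact h2 (Finset.eq_univ_iff_forall.2 hcon)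
  have hp : NSep.Path f j k := hc j k
  unfold NSep.Path at hp
  revert hk
  induction hp with
  | refl => intro hk; exact absurd hk hj
  | @tail b c hab hbc ih =>
    intro hk
    by_cases hb : b ∈ D
    · exact ih hb
    · obtain ⟨s, hs⟩ := hbc
      exact ⟨c, hk, b, hb, s, hs⟩

theorem one_le_indeg (hc : StrConn f) (h2 : 2 ≤ n) (i : Fin n) : 1 ≤ indeg f i := by
  obtain ⟨k, hk, j, hj, s, hs⟩ := enter hc (D := {i}) ⟨i, Finset.mem_singleton_self i⟩ (by
    intro h
    have h3 := congrArg Finset.card h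
    rw [Finset.card_singleton, Finset.card_univ, Fintype.card_fin] at h3
    omega)
  rw [Finset.mem_singleton] at hk
  subst hk
  have h3 : (s, j) ∈ inArcs f k := mem_inArcs.2 hs
  exact Finset.card_pos.2 ⟨_, h3⟩

theorem sum_indeg (f : Cfg n → Cfg n) : numArcs f = ∑ i, indeg f i := by
  classical
  unfold numArcs
  rw [Finset.card_eq_sum_card_fiberwise (f := fun t : Bool × Fin n × Fin n => t.2.2) (t := Finset.univ)
    (fun x _ => Finset.mem_univ _)]
  refine Finset.sum_congr rfl fun i _ => ?_
  unfold indeg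
  refine Finset.card_nbij' (fun t => (t.1, t.2.1)) (fun t => (t.1, t.2, i)) ?_ ?_ ?_ ?_
  · intro t ht
    simp only [Finset.coe_filter, Finset.mem_filter, Finset.mem_univ, true_and, Set.mem_ofPred_eq] at ht
    have h1 := ht.1
    have h2 := ht.2
    rw [h2] at h1
    exact mem_inArcs.2 h1
  · intro t ht
    have h1 : t ∈ inArcs f i := ht
    simp only [Finset.coe_filter, Finset.mem_filter, Finset.mem_univ, true_and, Set.mem_ofPred_eq]
    exact ⟨mem_inArcs.1 h1, trivial⟩
  · intro t ht
    simp only [Finset.coe_filter, Finset.mem_filter, Finset.mem_univ, true_and, Set.mem_ofPred_eq] at ht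
    obtain ⟨a, b, c⟩ := t
    have h2 : c = i := ht.2
    subst h2
    rfl
  · intro t ht
    rfl

theorem feed_of_indeg_one (hc : StrConn f) {W : Finset (Fin n)} (hW : W.Nonempty)
    (h : ∀ k, k ∉ W → indeg f k ≤ 1) : Feed f W := by
  intro D hD hd
  by_contra hcon
  push Not at hcon
  have hne : D ≠ Finset.univ := by
    intro h1
    obtain ⟨w, hw⟩ := hW
    exact Finset.disjoint_left.1 hd (h1 ▸ Finset.mem_univ w) hw
  obtain ⟨k, hk, j, hj, s, hs⟩ := enter hc hD hne
  obtain ⟨j', hj', s', hs'⟩ := hcon k hk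
  have hkW : k ∉ W := Finset.disjoint_left.1 hd hk
  have h1 := h k hkW
  unfold indeg at h1
  have h2 := Finset.card_le_one.1 h1 (s, j) (mem_inArcs.2 hs) (s', j') (mem_inArcs.2 hs')
  have h3 : j = j' := congrArg Prod.snd h2
  subst h3
  exact hj hj'

end NSA
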