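import Pool.Agent.NSA.Defs
import Pool.Agent.NSA.SW
import Pool.Agent.NSA.FD1
import Pool.Agent.NSA.EX

set_option autoImplicit false

/-!
[NSA-EX2] existence of the normal form.
`G = gates f`; for `k ∉ G`: `indeg f k = 1` (`one_le_indeg`, `mem_gates`), let `(s k, p k)` be the only in-arc.  `Feed f G` (`feed_of_indeg_one`), `settle` gives `a` with
`f a k = a k` for `k ∉ G`.  For `k ∉ G`: `f x k` depends only on `x (p k)` (`exists_arc'`: a change of `f _ k` needs an arc into `k` from a changed vertex), and from the
witnesses of the arc `f x k = (x (p k) == s k)` for all `x`; hence `sw a f x k = xor (a k) ((xor (a (p k)) (x (p k))) == s k) = x (p k)`, using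
`a k = f a k = (a (p k) == s k)`.
Rank and root: for every `k` some `p^[t] k ∈ G`: let `D` be the set of the `k` for which this fails; it is disjoint from `G`; if it were nonempty, `Feed f G` gives `k ∈ D`
without in-arc from `D`, so `p k ∉ D` (`p k → k` is an arc), `p^[t] (p k) ∈ G` for some `t`, contradiction.  `rk k` = least such `t` (`Nat.find`), `r k = p^[rk k] k`; for
`k ∉ G`: `rk k = rk (p k) + 1` and `r k = r (p k)`; for `k ∈ G`: `rk k = 0`, `r k = k`.  `big`: `mem_gates`, `indeg_sw`.
`conn`: for `S ⊆ G`, `S ≠ ∅, G`, let `D = {k | r k ∈ S}`: not empty, not everything (a gate outside `S` is its own root); `enter` gives an arc `j → k`, `k ∈ D`,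
`j ∉ D`; if `k ∉ G` then `j = p k` (the only in-arc) and `r j = r k ∈ S`, contradiction; so `k ∈ G`, `k = r k ∈ S`, `r j ∉ S` (transport the arc with `arc_sw`).
-/

open Relation NSep

namespace NSA

variable {n : ℕ} {f : Cfg n → Cfg n}

theorem exists_nf (hc : StrConn f) (h2 : 2 ≤ n) (hG : (gates f).Nonempty) :
    ∃ (a : Cfg n) (p r : Fin n → Fin n), NF (sw a f) (gates f) p r := by
  classical
  -- the only in-arc of a vertex outside the gates
  have hone : ∀ k, k ∉ gates f → indeg f k = 1 := by
    intro k hk
    have h1 := one_le_indeg hc h2 k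
    have h3 : ¬ 2 ≤ indeg f k := fun h => hk (mem_gates.2 h)
    omega
  have hin : ∀ k, ∃ t : Bool × Fin n, k ∉ gates f → inArcs f k = {t} := by
    intro k
    by_cases hk : k ∈ gates f
    · obtain ⟨g, -⟩ := hG
      exact ⟨(true, g), fun h => absurd hk h⟩
    · obtain ⟨t, ht⟩ := Finset.card_eq_one.1 (hone k hk)
      exact ⟨t, fun _ => ht⟩
  choose t ht using hin
  have harc : ∀ k, k ∉ gates f → Arc f (t k).1 (t k).2 k := by
    intro k hk
    have h3 : t k ∈ inArcs f k := by rw [ht k hk]; exact Finset.mem_singleton_self _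
    exact mem_inArcs.1 h3
  have honly : ∀ k, k ∉ gates f → ∀ s j, Arc f s j k → s = (t k).1 ∧ j = (t k).2 := by
    intro k hk s j hs
    have h3 : (s, j) ∈ inArcs f k := mem_inArcs.2 hs
    rw [ht k hk, Finset.mem_singleton] at h3
    rw [← h3]
    exact ⟨rfl, rfl⟩
  have hfeed : Feed f (gates f) := feed_of_indeg_one hc hG (fun k hk => (hone k hk).le)
  obtain ⟨a, -, -, ha⟩ := settle hfeed (fun _ => false)
  -- values
  have hdep : ∀ k, k ∉ gates f → ∀ x y : Cfg n, x (t k).2 = y (t k).2 → f x k = f y k := by
    intro k hk x y hxy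
    by_contra hne
    obtain ⟨j, hj, hs⟩ := exists_arc' hne
    obtain ⟨-, rfl⟩ := honly k hk _ j hs
    exact hj hxy
  have hval : ∀ k, k ∉ gates f → ∀ x : Cfg n, f x k = (x (t k).2 == (t k).1) := by
    intro k hk x
    obtain ⟨u, v, huv, hu, hv, hfu, hfv⟩ := harc k hk
    cases hx : x (t k).2
    · rw [hdep k hk x u (by rw [hx, hu]), hfu]
      cases (t k).1 <;> rfl
    · rw [hdep k hk x v (by rw [hx, hv]), hfv]
      cases (t k).1 <;> rfl
  -- the copied vertex
  set p : Fin n → Fin n := fun k => (t k).2 with hp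
  have hroot : ∀ k, ∃ m, p^[m] k ∈ gates f := by
    by_contra hcon
    push Not at hcon
    obtain ⟨k0, hk0⟩ := hcon
    have hDne : (Finset.univ.filter (fun k => ∀ m, p^[m] k ∉ gates f)).Nonempty := ⟨k0, by simpa using hk0⟩
    have hdis : Disjoint (Finset.univ.filter (fun k => ∀ m, p^[m] k ∉ gates f)) (gates f) := by
      rw [Finset.disjoint_left]
      intro k hk hkG
      simp only [Finset.mem_filter, Finset.mem_univ, true_and] at hk
      exact hk 0 hkG
    obtain ⟨k, hk, hk'⟩ := hfeed _ hDne hdis
    simp only [Finset.mem_filter, Finset.mem_univ, true_and] at hk hk'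
    have hkG : k ∉ gates f := hk 0
    refine hk' (p k) ?_ _ (harc k hkG)
    intro m
    have h3 := hk (m + 1)
    rw [Function.iterate_succ_apply] at h3
    exact h3
  set rk : Fin n → ℕ := fun k => Nat.find (hroot k) with hrk
  set r : Fin n → Fin n := fun k => p^[rk k] k with hr
  have hrk0 : ∀ k, k ∈ gates f → rk k = 0 := by
    intro k hk
    exact (Nat.find_eq_zero (hroot k)).2 hk
  have hrks : ∀ k, k ∉ gates f → rk k = rk (p k) + 1 := by
    intro k hk
    apply le_antisymm
    · apply Nat.find_min'
      rw [Function.iterate_succ_apply]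
      exact Nat.find_spec (hroot (p k))
    · have h3 : rk k ≠ 0 := by
        intro h4
        exact hk ((Nat.find_eq_zero (hroot k)).1 h4)
      obtain ⟨m, hm⟩ := Nat.exists_eq_succ_of_ne_zero h3
      rw [hm]
      have h5 : rk (p k) ≤ m := by
        apply Nat.find_min'
        have h6 : p^[rk k] k ∈ gates f := Nat.find_spec (hroot k)
        rw [hm, Nat.succ_eq_add_one, Function.iterate_succ_apply] at h6
        exact h6
      exact Nat.succ_le_succ h5
  have hmem : ∀ k, r k ∈ gates f := fun k => Nat.find_spec (hroot k)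
  have hgate : ∀ k ∈ gates f, r k = k := by
    intro k hk
    show p^[rk k] k = k
    rw [hrk0 k hk]
    rfl
  have hstep : ∀ k, k ∉ gates f → r k = r (p k) := by
    intro k hk
    show p^[rk k] k = p^[rk (p k)] (p k)
    rw [hrks k hk, Function.iterate_succ_apply]
  refine ⟨a, p, r, ?_, hmem, hgate, hstep, ⟨rk, fun k hk => by rw [hrks k hk]; exact Nat.lt_succ_self _⟩, ?_, ?_⟩
  · intro k hk x
    have h3 : a k = (a (p k) == (t k).1) := by
      rw [← ha k hk]
      exact hval k hk a
    show xor (a k) (f (xr a x) k) = x (p k)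
    rw [hval k hk (xr a x), h3]
    show xor (a (p k) == (t k).1) (xor (a (p k)) (x (p k)) == (t k).1) = x (p k)
    cases a (p k) <;> cases x (p k) <;> cases (t k).1 <;> rfl
  · intro g hg
    rw [indeg_sw]
    exact mem_gates.1 hg
  · intro S hS hne hneq
    have hD1 : (Finset.univ.filter (fun k => r k ∈ S)).Nonempty := by
      obtain ⟨g, hg⟩ := hne
      refine ⟨g, ?_⟩
      simp only [Finset.mem_filter, Finset.mem_univ, true_and]
      rw [hgate g (hS hg)]
      exact hg
    have hD2 : (Finset.univ.filter (fun k => r k ∈ S)) ≠ Finset.univ := by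
      intro h3
      apply hneq
      apply Finset.Subset.antisymm hS
      intro g hg
      have h4 : g ∈ Finset.univ.filter (fun k => r k ∈ S) := by rw [h3]; exact Finset.mem_univ g
      simp only [Finset.mem_filter, Finset.mem_univ, true_and] at h4
      rw [hgate g hg] at h4
      exact h4
    obtain ⟨k, hk, j, hj, s, hs⟩ := enter hc hD1 hD2
    simp only [Finset.mem_filter, Finset.mem_univ, true_and] at hk hj
    have hkG : k ∈ gates f := by
      by_contra hkG
      obtain ⟨-, h3⟩ := honly k hkG s j hs
      apply hj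
      have h4 := hstep k hkG
      rw [show p k = j from h3.symm] at h4
      rw [← h4]
      exact hk
    rw [hgate k hkG] at hk
    refine ⟨k, hk, j, (s == (a j == a k)), (arc_sw a f _ j k).2 ?_, hj⟩
    have e : ((s == (a j == a k)) == (a j == a k)) = s := by
      cases s <;> cases a j <;> cases a k <;> rfl
    rw [e]
    exact hs

end NSA
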