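import Pool.Agent.NSA.EX2
import Pool.Agent.NSA.C2
import Pool.Agent.NSA.C3
import Pool.Agent.NSA.C4A
import Pool.Agent.NSA.C4B

set_option autoImplicit false

/-!
[NSA-MN] the arc bound.  Suppose `¬ Separating f` and `numArcs f ≤ n + 4`.
`¬ Separating` gives `NSPair f A B`.  `n = 0`: `Cfg 0` has one element, so `A = B` (`att_eq`).  `n = 1`: `Feed f {0}` holds (no nonempty `D` is disjoint from it): `one_feed`.  So `n ≥ 2` and all
in-degrees are `≥ 1` (`one_le_indeg`); `∑ (indeg f i - 1) ≤ 4` (`sum_indeg`).  Let `G = gates f`.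
`G.card ≤ 1`: let `v` be the gate (or any vertex if `G = ∅`); `feed_of_indeg_one` with `W = {v}`, `one_feed`.
Otherwise `exists_nf`: `f' = sw a f` is in normal form, `NSPair f' (swS a A) (swS a B)` (`nspair_sw`), in-degrees are the same (`indeg_sw`).
`∑_{g ∈ G} (indeg f g - 1) ≤ 4` and every summand is `≥ 1`, so `G.card ≤ 4`.
`G.card = 2` (`Finset.card_eq_two`): `indeg f u + indeg f w ≤ 6`: `case2`.
`G.card = 3` (`Finset.card_eq_three`): at most one of the three in-degrees is `≥ 3` (otherwise the sum of the `indeg - 1` is `≥ 5`): `case3` with the order such that the last two have in-degree `2`.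
`G.card = 4`: all in-degrees are `2`; if two gates satisfy `Feed f' {u, w}`: `case4A` (`G = {u, w, v, v'}`), otherwise `case4B`.
-/

open Relation NSep

namespace NSA

variable {n : ℕ}

private theorem MN_two_le {f : Cfg n → Cfg n} {A B : Set (Cfg n)} (hns : NSPair f A B) : 2 ≤ n := by
  by_contra hn
  have hn' : n = 0 ∨ n = 1 := by omega
  obtain ⟨x, hx⟩ := hns.hA.1
  obtain ⟨y, hy⟩ := hns.hB.1
  rcases hn' with rfl | rfl
  · have e : x = y := by
      funext k
      exact k.elim0
    rw [← e] at hy
    exact hns.ne (att_eq hns.hA hns.hB hx hy)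
  · refine one_feed hns (v := 0) ?_
    intro D hD hd
    exfalso
    obtain ⟨k, hk⟩ := hD
    have hk0 : k = 0 := Subsingleton.elim _ _
    rw [hk0] at hk
    exact (Finset.disjoint_left.1 hd hk) (Finset.mem_singleton_self _)

theorem small_card {f : Cfg n → Cfg n} (hc : StrConn f) {A B : Set (Cfg n)} (hns : NSPair f A B)
    (hG : (gates f).card ≤ 1) : False := by
  have h2 := MN_two_le hns
  obtain ⟨v, hv⟩ : ∃ v : Fin n, gates f ⊆ {v} := by
    by_cases h0 : (gates f) = ∅
    · exact ⟨⟨0, by omega⟩, by rw [h0]; exact Finset.empty_subset _⟩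
    · have h1 : (gates f).card = 1 := by
        have := Finset.card_pos.2 (Finset.nonempty_iff_ne_empty.2 h0)
        omega
      obtain ⟨v, hv⟩ := Finset.card_eq_one.1 h1
      exact ⟨v, by rw [hv]⟩
  refine one_feed hns (v := v) (feed_of_indeg_one hc (Finset.singleton_nonempty v) ?_)
  intro k hk
  by_contra hlt
  have h3 : k ∈ gates f := mem_gates.2 (by omega)
  exact hk (hv h3)

theorem two_le {f : Cfg n → Cfg n} {A B : Set (Cfg n)} (hns : NSPair f A B) : 2 ≤ n := MN_two_le hns

theorem arc_bound (f : Cfg n → Cfg n) (hc : StrConn f) (hns : ¬ Separating f) : n + 5 ≤ numArcs f := by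
  by_contra hlt
  have hle : numArcs f ≤ n + 4 := by omega
  unfold Separating at hns
  push Not at hns
  obtain ⟨A, B, hA, hB, hne, hh⟩ := hns
  have hp : NSPair f A B := ⟨hA, hB, hne, by
    intro h0
    rw [h0] at hh
    simp at hh⟩
  have h2 := two_le hp
  have h1 : ∀ i, 1 ≤ indeg f i := one_le_indeg hc h2
  have hs : ∑ i, (indeg f i - 1) ≤ 4 := by
    have e1 : ∑ i, (indeg f i - 1) + ∑ _i : Fin n, 1 = ∑ i, indeg f i := by
      rw [← Finset.sum_add_distrib]
      refine Finset.sum_congr rfl (fun i _ => ?_)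
      have := h1 i
      omega
    rw [← sum_indeg] at e1
    simp at e1
    omega
  have hsG : ∑ g ∈ gates f, (indeg f g - 1) ≤ 4 :=
    le_trans (Finset.sum_le_sum_of_subset (Finset.subset_univ _)) hs
  have hge : ∀ g ∈ gates f, 1 ≤ indeg f g - 1 := by
    intro g hg
    have := mem_gates.1 hg
    omega
  have hcard : (gates f).card ≤ 4 := by
    have h3 : ∑ _g ∈ gates f, 1 ≤ ∑ g ∈ gates f, (indeg f g - 1) := Finset.sum_le_sum hge
    simp at h3
    omega
  by_cases hc1 : (gates f).card ≤ 1
  · exact small_card hc hp hc1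
  have hGne : (gates f).Nonempty := Finset.card_pos.1 (by omega)
  obtain ⟨a, p, r, hnf⟩ := exists_nf hc h2 hGne
  have hp' := nspair_sw hp a
  have hd : ∀ i, indeg (sw a f) i = indeg f i := indeg_sw a f
  have hc' : (gates f).card = 2 ∨ (gates f).card = 3 ∨ (gates f).card = 4 := by omega
  rcases hc' with hc' | hc' | hc'
  · obtain ⟨u, w, huw, hG⟩ := Finset.card_eq_two.1 hc'
    have gu := mem_gates.1 (show u ∈ gates f by rw [hG]; simp)
    have gw := mem_gates.1 (show w ∈ gates f by rw [hG]; simp)
    rw [hG] at hnf hsG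
    rw [Finset.sum_pair huw] at hsG
    exact case2 huw hnf hp' (by rw [hd, hd]; omega)
  · obtain ⟨x, y, z, hxy, hxz, hyz, hG⟩ := Finset.card_eq_three.1 hc'
    have gx := mem_gates.1 (show x ∈ gates f by rw [hG]; simp)
    have gy := mem_gates.1 (show y ∈ gates f by rw [hG]; simp)
    have gz := mem_gates.1 (show z ∈ gates f by rw [hG]; simp)
    have hsum : (indeg f x - 1) + ((indeg f y - 1) + (indeg f z - 1)) ≤ 4 := by
      rw [hG, Finset.sum_insert (by simp [hxy, hxz]), Finset.sum_pair hyz] at hsG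
      exact hsG
    by_cases h3 : indeg f y = 2 ∧ indeg f z = 2
    · exact case3 hnf hG hxy hxz hyz (by rw [hd]; exact h3.1) (by rw [hd]; exact h3.2) hp'
    by_cases h4 : indeg f x = 2 ∧ indeg f z = 2
    · refine case3 hnf (g1 := y) (g2 := x) (g3 := z) ?_ hxy.symm hyz hxz (by rw [hd]; exact h4.1)
        (by rw [hd]; exact h4.2) hp'
      rw [hG]
      ext k
      simp only [Finset.mem_insert, Finset.mem_singleton]
      tauto
    · refine case3 hnf (g1 := z) (g2 := x) (g3 := y) ?_ hxz.symm hyz.symm hxy (by rw [hd]; omega)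
        (by rw [hd]; omega) hp'
      rw [hG]
      ext k
      simp only [Finset.mem_insert, Finset.mem_singleton]
      tauto
  · have hall : ∀ g ∈ gates f, indeg (sw a f) g = 2 := by
      intro g hg
      rw [hd]
      have h5 := Finset.add_sum_erase (gates f) (fun g => indeg f g - 1) hg
      have h6 : ∑ _g ∈ (gates f).erase g, 1 ≤ ∑ g ∈ (gates f).erase g, (indeg f g - 1) :=
        Finset.sum_le_sum (fun k hk => hge k (Finset.mem_of_mem_erase hk))
      simp only [Finset.sum_const, smul_eq_mul, mul_one, Finset.card_erase_of_mem hg] at h6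
      have h7 := mem_gates.1 hg
      omega
    by_cases hF : ∃ u ∈ gates f, ∃ w ∈ gates f, u ≠ w ∧ Feed (sw a f) {u, w}
    · obtain ⟨u, hu, w, hw, huw, hfd⟩ := hF
      have hwu : w ∈ (gates f).erase u := Finset.mem_erase.2 ⟨huw.symm, hw⟩
      have hc2 : (((gates f).erase u).erase w).card = 2 := by
        rw [Finset.card_erase_of_mem hwu, Finset.card_erase_of_mem hu, hc']
      obtain ⟨v, v', hvv, hV⟩ := Finset.card_eq_two.1 hc2
      have hv : v ∈ ((gates f).erase u).erase w := by rw [hV]; simp
      have hv' : v' ∈ ((gates f).erase u).erase w := by rw [hV]; simp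
      simp only [Finset.mem_erase] at hv hv'
      have hG : gates f = {u, w, v, v'} := by
        rw [← Finset.insert_erase hu, ← Finset.insert_erase hwu, hV]
      exact case4A hnf hG huw (Ne.symm hv.2.1) (Ne.symm hv'.2.1) (Ne.symm hv.1) (Ne.symm hv'.1) hvv hall hp' hfd
    · refine case4B hnf hc' hall hp' ?_
      intro u hu w hw huw hfd
      exact hF ⟨u, hu, w, hw, huw, hfd⟩

end NSA
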