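import Pool.Agent.NSA.Defs
import Pool.Agent.NSA.FD1
import Pool.Agent.NSA.NF1

set_option autoImplicit false

/-!
[NSA-OM1] the exceptional topology, normalised: common configurations.
`Om` collects the data.  On `flat r x` the inputs are the values of their roots: `e1..e4` below (`flat r x j = x (r j)`).
`upd`: if `flat r x ∈ A`, `g ∈ G`, then `A` also contains `flat r x'` where `x' g = f (flat r x) g`, `x' = x` at the other gates (`NF.gstep`, or `x' = x`).
`om_start` (i): take `x ∈ A`, `flat r x ∈ A` (`flat_mem`); if `x g1 = true` then `f (flat r x) g1 = false`: update `g1`; then the same for `g2`.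
`om_common`: a configuration common to all attractors, if not (`o3 = o4 = true` and `s = t`).  From `om_start` (`x g1 = x g2 = false`), `q3 = x g3`, `q4 = x g4`:
`o3 = o4 = false`: `f g3 = _ && q1 = false`: update `g3`, then `f g4 = _ && q2 = false`: update `g4`: `flat r 0` (all `false`) is in `A`.
`o3 = false, o4 = true`: update `g3` to `false`, then `g4` to `(false == t) || false = !t`: the configuration with `g4 = !t` and the other gates `false`.  `o3 = true, o4 = false`: symmetric.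
`o3 = o4 = true`, `s ≠ t`: `f g3 = (q4 == s)`, `f g4 = (q3 == t)` while `q1 = q2 = false`; update `g3` and `g4` alternately (at most 4 updates, check the 8 cases of `s, q3, q4` with
`t = !s`): `(q3, q4)` reaches `(false, false)`: for `s = true, t = false`: `(0,0) → (0,1) → (1,1) → (1,0) → (0,0)` ; for `s = false, t = true`: `(0,0) → (1,0) → (1,1) → (0,1) → (0,0)`.
Two configurations `flat r x`, `flat r x'` are equal if `x, x'` agree on the four gates (`r k ∈ G`).
-/

open Relation NSep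

namespace NSA

variable {n : ℕ}

/-- the exceptional topology, normalised -/
structure Om (f : Cfg n → Cfg n) (G : Finset (Fin n)) (p r : Fin n → Fin n) (g1 g2 g3 g4 : Fin n)
    (s t o3 o4 : Bool) : Prop where
  nf : NF f G p r
  hG : G = {g1, g2, g3, g4}
  h12 : g1 ≠ g2
  h13 : g1 ≠ g3
  h14 : g1 ≠ g4
  h23 : g2 ≠ g3
  h24 : g2 ≠ g4
  h34 : g3 ≠ g4
  f1 : ∃ j j', r j = g1 ∧ r j' = g3 ∧ ∀ x, f x g1 = (!x j && x j')
  f2 : ∃ j j', r j = g2 ∧ r j' = g4 ∧ ∀ x, f x g2 = (!x j && x j')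
  f3 : ∃ j j', r j = g4 ∧ r j' = g1 ∧ ∀ x, f x g3 = if o3 then (x j == s) || x j' else (x j == s) && x j'
  f4 : ∃ j j', r j = g3 ∧ r j' = g2 ∧ ∀ x, f x g4 = if o4 then (x j == t) || x j' else (x j == t) && x j'

variable {f : Cfg n → Cfg n} {G : Finset (Fin n)} {p r : Fin n → Fin n} {g1 g2 g3 g4 : Fin n} {s t o3 o4 : Bool}

theorem att_sub {A T : Set (Cfg n)} (hA : IsAttractor f A) (hT : IsTrap f T) {x : Cfg n} (hx : x ∈ A)
    (hxT : x ∈ T) : A ⊆ T := by
  have h : A ∩ T = A := hA.2.2 _ ⟨x, hx, hxT⟩ (fun z hz w hw => ⟨hA.2.1 z hz.1 w hw, hT z hz.2 w hw⟩) Set.inter_subset_left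
  rw [← h]
  exact Set.inter_subset_right

theorem Om.e1 (h : Om f G p r g1 g2 g3 g4 s t o3 o4) (x : Cfg n) : f (flat r x) g1 = (!x g1 && x g3) := by
  obtain ⟨j, j', h1, h2, h3⟩ := h.f1
  rw [h3]; simp only [flat, h1, h2]

theorem Om.e2 (h : Om f G p r g1 g2 g3 g4 s t o3 o4) (x : Cfg n) : f (flat r x) g2 = (!x g2 && x g4) := by
  obtain ⟨j, j', h1, h2, h3⟩ := h.f2
  rw [h3]; simp only [flat, h1, h2]

theorem Om.e3 (h : Om f G p r g1 g2 g3 g4 s t o3 o4) (x : Cfg n) :
    f (flat r x) g3 = if o3 then (x g4 == s) || x g1 else (x g4 == s) && x g1 := by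
  obtain ⟨j, j', h1, h2, h3⟩ := h.f3
  rw [h3]; simp only [flat, h1, h2]

theorem Om.e4 (h : Om f G p r g1 g2 g3 g4 s t o3 o4) (x : Cfg n) :
    f (flat r x) g4 = if o4 then (x g3 == t) || x g2 else (x g3 == t) && x g2 := by
  obtain ⟨j, j', h1, h2, h3⟩ := h.f4
  rw [h3]; simp only [flat, h1, h2]

theorem Om.upd (h : Om f G p r g1 g2 g3 g4 s t o3 o4) {A : Set (Cfg n)} (hA : IsAttractor f A) {x : Cfg n}
    (hx : flat r x ∈ A) {g : Fin n} (hg : g ∈ G) : flat r (Function.update x g (f (flat r x) g)) ∈ A := by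
  by_cases hne : f (flat r x) g = x g
  · rw [hne, Function.update_eq_self]
    exact hx
  · have h1 := h.nf.gstep hA hx hg hne
    have h2 : f (flat r x) g = !x g := by
      cases h3 : f (flat r x) g <;> cases h4 : x g <;> simp_all
    rw [h2]
    exact h1

theorem Om.flat_ext (h : Om f G p r g1 g2 g3 g4 s t o3 o4) {x x' : Cfg n} (a1 : x g1 = x' g1) (a2 : x g2 = x' g2)
    (a3 : x g3 = x' g3) (a4 : x g4 = x' g4) : flat r x = flat r x' := by
  funext k
  have hk := h.nf.mem k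
  rw [h.hG] at hk
  simp only [Finset.mem_insert, Finset.mem_singleton] at hk
  simp only [flat]
  rcases hk with hk | hk | hk | hk <;> rw [hk] <;> assumption

theorem Om.start (h : Om f G p r g1 g2 g3 g4 s t o3 o4) {A : Set (Cfg n)} (hA : IsAttractor f A) :
    ∃ x, flat r x ∈ A ∧ x g1 = false ∧ x g2 = false := by
  have m1 : g1 ∈ G := by rw [h.hG]; simp
  have m2 : g2 ∈ G := by rw [h.hG]; simp
  obtain ⟨x0, hx0⟩ := hA.1
  have hx : flat r x0 ∈ A := h.nf.flat_mem hA hx0
  obtain ⟨x1, hx1, e1⟩ : ∃ x1, flat r x1 ∈ A ∧ x1 g1 = false := by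
    by_cases h1 : x0 g1 = false
    · exact ⟨x0, hx, h1⟩
    · have h2 := h.upd hA hx m1
      rw [h.e1] at h2
      refine ⟨_, h2, ?_⟩
      rw [Function.update_self]
      simp only [Bool.not_eq_false] at h1
      simp [h1]
  by_cases h1 : x1 g2 = false
  · exact ⟨x1, hx1, e1, h1⟩
  · have h2 := h.upd hA hx1 m2
    rw [h.e2] at h2
    refine ⟨_, h2, ?_, ?_⟩
    · rw [Function.update_of_ne h.h12]
      exact e1
    · rw [Function.update_self]
      simp only [Bool.not_eq_false] at h1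
      simp [h1]

private def OM1_P (A : Set (Cfg n)) (r : Fin n → Fin n) (g1 g2 g3 g4 : Fin n) (a b : Bool) : Prop :=
  ∃ x, flat r x ∈ A ∧ x g1 = false ∧ x g2 = false ∧ x g3 = a ∧ x g4 = b

private theorem OM1_h3 (h : Om f G p r g1 g2 g3 g4 s t o3 o4) {A : Set (Cfg n)} (hA : IsAttractor f A)
    {a b : Bool} (hP : OM1_P A r g1 g2 g3 g4 a b) :
    OM1_P A r g1 g2 g3 g4 (if o3 then (b == s) else false) b := by
  obtain ⟨x, hx, a1, a2, a3, a4⟩ := hP
  have m3 : g3 ∈ G := by rw [h.hG]; simp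
  have h2 := h.upd hA hx m3
  rw [h.e3] at h2
  refine ⟨_, h2, ?_, ?_, ?_, ?_⟩
  · rw [Function.update_of_ne h.h13]; exact a1
  · rw [Function.update_of_ne h.h23]; exact a2
  · rw [Function.update_self, a1, a4]
    cases o3 <;> simp
  · rw [Function.update_of_ne h.h34.symm]; exact a4

private theorem OM1_h4 (h : Om f G p r g1 g2 g3 g4 s t o3 o4) {A : Set (Cfg n)} (hA : IsAttractor f A)
    {a b : Bool} (hP : OM1_P A r g1 g2 g3 g4 a b) :
    OM1_P A r g1 g2 g3 g4 a (if o4 then (a == t) else false) := by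
  obtain ⟨x, hx, a1, a2, a3, a4⟩ := hP
  have m4 : g4 ∈ G := by rw [h.hG]; simp
  have h2 := h.upd hA hx m4
  rw [h.e4] at h2
  refine ⟨_, h2, ?_, ?_, ?_, ?_⟩
  · rw [Function.update_of_ne h.h14]; exact a1
  · rw [Function.update_of_ne h.h24]; exact a2
  · rw [Function.update_of_ne h.h34]; exact a3
  · rw [Function.update_self, a2, a3]
    cases o4 <;> simp

private def OM1_c3 (s o3 o4 : Bool) : Bool := if o3 && !o4 then !s else false

private def OM1_c4 (t o3 o4 : Bool) : Bool := if o4 && !o3 then !t else false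

private theorem OM1_target (h : Om f G p r g1 g2 g3 g4 s t o3 o4) (ho : ¬ (o3 = true ∧ o4 = true ∧ s = t))
    {A : Set (Cfg n)} (hA : IsAttractor f A) : OM1_P A r g1 g2 g3 g4 (OM1_c3 s o3 o4) (OM1_c4 t o3 o4) := by
  obtain ⟨x, hx, a1, a2⟩ := h.start hA
  have hP : OM1_P A r g1 g2 g3 g4 (x g3) (x g4) := ⟨x, hx, a1, a2, rfl, rfl⟩
  have h3 : ∀ a b, OM1_P A r g1 g2 g3 g4 a b → OM1_P A r g1 g2 g3 g4 (if o3 then (b == s) else false) b :=
    fun a b hab => OM1_h3 h hA hab
  have h4 : ∀ a b, OM1_P A r g1 g2 g3 g4 a b → OM1_P A r g1 g2 g3 g4 a (if o4 then (a == t) else false) :=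
    fun a b hab => OM1_h4 h hA hab
  generalize x g3 = a at hP
  generalize x g4 = b at hP
  clear h
  cases o3 <;> cases o4
  · have e1 := h4 _ _ (h3 _ _ hP)
    simpa [OM1_c3, OM1_c4] using e1
  · have e1 := h4 _ _ (h3 _ _ hP)
    cases t <;> simpa [OM1_c3, OM1_c4] using e1
  · have e1 := h3 _ _ (h4 _ _ hP)
    cases s <;> simpa [OM1_c3, OM1_c4] using e1
  · cases s <;> cases t
    · exact absurd ⟨rfl, rfl, rfl⟩ ho
    · cases a <;> cases b
      · simpa [OM1_c3, OM1_c4] using hP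
      · have e1 := h4 _ _ hP
        simpa [OM1_c3, OM1_c4] using e1
      · have e1 := h4 _ _ (h3 _ _ (h4 _ _ hP))
        simpa [OM1_c3, OM1_c4] using e1
      · have e1 := h4 _ _ (h3 _ _ hP)
        simpa [OM1_c3, OM1_c4] using e1
    · cases a <;> cases b
      · simpa [OM1_c3, OM1_c4] using hP
      · have e1 := h3 _ _ (h4 _ _ (h3 _ _ hP))
        simpa [OM1_c3, OM1_c4] using e1
      · have e1 := h3 _ _ hP
        simpa [OM1_c3, OM1_c4] using e1
      · have e1 := h3 _ _ (h4 _ _ hP)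
        simpa [OM1_c3, OM1_c4] using e1
    · exact absurd ⟨rfl, rfl, rfl⟩ ho

theorem Om.common (h : Om f G p r g1 g2 g3 g4 s t o3 o4) (ho : ¬ (o3 = true ∧ o4 = true ∧ s = t)) :
    ∃ z, ∀ A : Set (Cfg n), IsAttractor f A → z ∈ A := by
  refine ⟨flat r (fun k => if k = g3 then OM1_c3 s o3 o4 else if k = g4 then OM1_c4 t o3 o4 else false), ?_⟩
  intro A hA
  obtain ⟨x, hx, a1, a2, a3, a4⟩ := OM1_target h ho hA
  have e : flat r (fun k => if k = g3 then OM1_c3 s o3 o4 else if k = g4 then OM1_c4 t o3 o4 else false) =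
      flat r x := by
    apply h.flat_ext
    · rw [a1]; simp [h.h13, h.h14]
    · rw [a2]; simp [h.h23, h.h24]
    · rw [a3]; simp
    · rw [a4]; simp [h.h34.symm]
  rw [e]
  exact hx

end NSA
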